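import Pool.Agent.Lib.MP_6e7c44_mp.RS.Defs
import Pool.Agent.Lib.MP_6e7c44_mp.LA.Tube

/-! The reduced system for arbitrary masses: invariants, the way back, and the motion of the
binary. -/

set_option autoImplicit false

open Set Complex Filter Topology

noncomputable section

namespace Pool.Agent.Lib.MP_6e7c44_mp.RS

open LA

variable {μ : Fin 3 → ℝ}

/-- Escape is inherited backwards along an orbit of the reduced system. -/
theorem back {μ : Fin 3 → ℝ} (hμ : Ms μ) {γ : ℝ → Z3} {g : ℝ → ℝ} (hg : Continuous g) {T : ℝ}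
    (hT : 0 ≤ T) (h : ∀ t, NC (γ t) ∧ HasDerivAt γ (g t • GR μ (γ t)) t)
    (g0 : ∀ t ∈ Icc 0 T, 0 < g t) (he : EscR μ (γ T)) : EscR μ (γ 0) := by
  have hs : (μ 0 : ℂ) = 1 - μ 1 - μ 2 := by
    have : μ 0 = 1 - μ 1 - μ 2 := by linarith [hμ.2]
    exact_mod_cast congrArg (fun x : ℝ => (x : ℂ)) this
  obtain ⟨η, hη⟩ : ∃ η : ℝ → ℂ, η = fun t => (γ t).1 := ⟨_, rfl⟩
  obtain ⟨Y, hY⟩ : ∃ Y : ℝ → ℂ, Y = fun t => (γ t).2.1 := ⟨_, rfl⟩
  obtain ⟨W, hW⟩ : ∃ W : ℝ → ℂ, W = fun t => (γ t).2.2 := ⟨_, rfl⟩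
  have dη : ∀ t, HasDerivAt η (g t * (Kp (η t) + μ 2 * Sg (Y t))) t := fun t => by
    rw [hη, hY]
    exact hd_congr (h t).2.fst (fun _ => rfl) rfl
  have dY : ∀ t, HasDerivAt Y (g t * (W t - η t * Y t)) t := fun t => by
    rw [hη, hY, hW]
    exact hd_congr (h t).2.snd.fst (fun _ => rfl) rfl
  have dW : ∀ t, HasDerivAt W (g t * ((3 / 2 * (η t).re - η t) * W t
      - (ff (Y t + 1 / 2) + ff (Y t - 1 / 2)) / 2 + (μ 0 - μ 1) / 2 * Sg (Y t))) t := fun t => by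
    rw [hη, hY, hW]
    exact hd_congr (h t).2.snd.snd (fun _ => rfl) rfl
  have nc : ∀ t, Y t + 1 / 2 ≠ 0 ∧ Y t - 1 / 2 ≠ 0 := fun t => by rw [hY]; exact (h t).1
  have ph : ∀ t, phys (γ t) = (![0, 1, Y t + 1 / 2], ![0, η t, W t + η t / 2]) := fun t => by
    rw [hη, hY, hW]; rfl
  rw [EscR, ph] at he ⊢
  clear hη hY hW ph h
  have cη : Continuous η := continuous_iff_continuousAt.mpr fun t => (dη t).continuousAt
  obtain ⟨L, L0, dL⟩ : ∃ L : ℝ → ℂ, L 0 = 0 ∧ ∀ t, HasDerivAt L (g t * η t) t :=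
    ⟨fun u => ∫ s in (0 : ℝ)..u, (g s * η s : ℂ), by simp, fun t =>
      (Continuous.integral_hasStrictDerivAt (f := fun s => (g s * η s : ℂ)) (by fun_prop)
        0 t).hasDerivAt⟩
  have cL : Continuous L := continuous_iff_continuousAt.mpr fun t => (dL t).continuousAt
  obtain ⟨x, w, x0, w0, xn, wp, xw, cw, dx, dw⟩ : ∃ (x : ℝ → ℂ) (w : ℝ → ℝ), x 0 = 1 ∧ w 0 = 1 ∧
      (∀ t, x t ≠ 0) ∧ (∀ t, 0 < w t) ∧ (∀ t, (‖x t‖ ^ 3)⁻¹ = w t ^ 2) ∧ Continuous w ∧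
      (∀ t, HasDerivAt x (g t * η t * x t) t) ∧
      ∀ t, HasDerivAt (fun s => (w s : ℂ)) (-(3 / 2) * g t * (η t).re * w t) t := by
    refine ⟨fun t => cexp (L t), fun t => Real.exp (-(3 / 2) * (L t).re), by simp [L0],
      by simp [L0], fun t => Complex.exp_ne_zero _, fun t => Real.exp_pos _, fun t => ?_,
      by fun_prop, fun t => hd_congr (dL t).cexp (fun _ => rfl) (by ring), fun t => ?_⟩
    · rw [Complex.norm_exp, ← Real.exp_nat_mul, ← Real.exp_nat_mul, ← Real.exp_neg]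
      congr 1; push_cast; ring
    · refine hd_congr ((hd_re (dL t)).const_mul (-(3 / 2))).exp.ofReal_comp (fun _ => rfl) ?_
      rw [re_ofReal_mul]; push_cast; ring
  clear L0 dL cL
  have wc : ∀ t, (w t : ℂ) ≠ 0 := fun t => by exact_mod_cast (wp t).ne'
  have fm : ∀ (c : ℂ) t, ff (c * x t) = ff c * (w t ^ 2 * x t) := fun c t => by
    rw [bk_ff_mul, xw]; push_cast; ring
  have f1 : ff 1 = 1 := by simp [ff]
  let A : ℝ → Fin 3 → ℂ := fun t a =>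
    x t * ![0, 1, Y t + 1 / 2] a + -(μ 1 + μ 2 * (Y t + 1 / 2)) * x t
  let B : ℝ → Fin 3 → ℂ := fun t a =>
    w t • (x t * ![0, η t, W t + η t / 2] a) + -(μ 1 * η t + μ 2 * (W t + η t / 2)) * w t * x t
  have hT' : (A T, B T) ∈ Esc μ :=
    esc_map (ContinuousLinearMap.mul ℝ ℂ (x T)) (norm_pos_iff.mpr (xn T)) (wp T)
      (fun y => by simp) 1 _ _ (fun b => by
        have := (pow_pos (norm_pos_iff.mpr (xn T)) 3).ne'
        rw [← xw, inv_mul_cancel₀ this, one_mul]; rfl) he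
  have a10 : ∀ t, A t 1 - A t 0 = 1 * x t := fun t => by simp [A]
  have a20 : ∀ t, A t 2 - A t 0 = (Y t + 1 / 2) * x t := fun t => by simp [A]; ring
  have a21 : ∀ t, A t 2 - A t 1 = (Y t - 1 / 2) * x t := fun t => by simp [A]; ring
  have h0 : (A 0, B 0) ∈ Esc μ := by
    refine bk_time (G := fun t => g t * (w t)⁻¹) (hg.mul (cw.inv₀ fun t => (wp t).ne')) hT
      (fun t ht => mul_pos (g0 t ht) (inv_pos.mpr (wp t))) (fun t a => ?_) (fun t a b hab e => ?_) hT'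
    · have k1 := dx t
      have k2 := ((dY t).add_const (1 / 2)).mul (dx t)
      have k3 := ((dη t).mul (dw t)).mul (dx t)
      have k4 := (((dW t).add ((dη t).div_const 2)).mul (dw t)).mul (dx t)
      have k5 := ((k1.const_mul (μ 1 : ℂ)).add (k2.const_mul (μ 2 : ℂ))).neg
      have k6 := ((k3.const_mul (μ 1 : ℂ)).add (k4.const_mul (μ 2 : ℂ))).neg
      obtain ⟨b0, b1, b2⟩ := bk_acc μ (A t)
      rw [a10, a20, fm, fm, f1] at b0
      rw [← neg_sub (A t 1), ff_neg, a10, a21, fm, fm, f1] at b1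
      rw [← neg_sub (A t 2), ← neg_sub (A t 2), ff_neg, ff_neg, a20, a21, fm, fm] at b2
      have := wc t
      fin_cases a
      · refine ⟨hd_congr k5 (fun s => by simp [A]; ring) ?_,
          hd_congr k6 (fun s => by simp [B]; ring) ?_⟩
        · simp [B]; field_simp; ring
        · simp only [Fin.zero_eta, b0, Kp, Sg, hs, Complex.real_smul, Pi.add_apply, Pi.mul_apply]
          generalize ff (Y t + 1 / 2) = F0, ff (Y t - 1 / 2) = F1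
          push_cast; field_simp; ring
      · refine ⟨hd_congr (k1.add k5) (fun s => by simp [A]; ring) ?_,
          hd_congr (k3.add k6) (fun s => by simp [B]; ring) ?_⟩
        · simp [B]; field_simp; ring
        · simp only [Fin.mk_one, b1, Kp, Sg, hs, Complex.real_smul, Pi.add_apply, Pi.mul_apply]
          generalize ff (Y t + 1 / 2) = F0, ff (Y t - 1 / 2) = F1
          push_cast; field_simp; ring
      · refine ⟨hd_congr (k2.add k5) (fun s => by simp [A]; ring) ?_,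
          hd_congr (k4.add k6) (fun s => by simp [B]; ring) ?_⟩
        · simp [B]; field_simp; ring
        · simp only [Fin.reduceFinMk, b2, Kp, Sg, hs, Complex.real_smul, Pi.add_apply, Pi.mul_apply]
          generalize ff (Y t + 1 / 2) = F0, ff (Y t - 1 / 2) = F1
          push_cast; field_simp; ring
    · have n1 : A t 1 - A t 0 ≠ 0 := by rw [a10, one_mul]; exact xn t
      have n2 : A t 2 - A t 0 ≠ 0 := by rw [a20]; exact mul_ne_zero (nc t).1 (xn t)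
      have n3 : A t 2 - A t 1 ≠ 0 := by rw [a21]; exact mul_ne_zero (nc t).2 (xn t)
      rw [sub_ne_zero] at n1 n2 n3
      fin_cases a <;> fin_cases b <;> first | exact hab rfl | tauto
  have := esc_map (ContinuousLinearMap.id ℝ ℂ) one_pos one_pos (fun y => by simp) 1
    (μ 1 + μ 2 * (Y 0 + 1 / 2)) (μ 1 * η 0 + μ 2 * (W 0 + η 0 / 2)) (m' := μ)
    (fun b => by simp) h0
  convert this using 2 <;> funext a <;> simp [A, B, x0, w0] <;> ring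

theorem inv_En (hμ : Ms μ) {γ : ℝ → Z3} {g t : ℝ} (hn : NC (γ t))
    (h : HasDerivAt γ (g • GR μ (γ t)) t) :
    HasDerivAt (fun s => En μ (γ s)) (g * (γ t).1.re * En μ (γ t)) t := by
  have h1 := hd_fst h
  have h2 := hd_fst (hd_snd h)
  have h3 := hd_snd (hd_snd h)
  have a1 := ((i_nsq h1).div_const 2).sub_const 1
  have a2 := ((i_nsq (h3.fun_sub (h1.div_const 2))).div_const 2).fun_sub
    (i_inv (h2.sub_const (1 / 2)) hn.2)
  have a3 := ((i_nsq (h3.fun_add (h1.div_const 2))).div_const 2).fun_sub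
    (i_inv (h2.add_const (1 / 2)) hn.1)
  refine hd_congr ((((a1.const_mul (μ 0 * μ 1)).fun_add (a2.const_mul (μ 1 * μ 2))).fun_add
    (a3.const_mul (μ 2 * μ 0))).fun_neg.div_const (I0 μ)) (fun _ => rfl) ?_
  have b1 := i_cube hn.1
  have b2 := i_cube hn.2
  have b3 : μ 2 = 1 - μ 0 - μ 1 := by linarith [hμ.2]
  rw [En, ← mul_div_assoc]
  congr 1
  simp only [GR, Kp, Sg, ff, ← inv_pow, sq_norm', b3] at b1 b2 ⊢
  generalize ‖(γ t).2.1 + 1 / 2‖⁻¹ = α at b1 b2 ⊢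
  generalize ‖(γ t).2.1 - 1 / 2‖⁻¹ = β at b1 b2 ⊢
  simp [dot, pow_succ] at b1 b2 ⊢
  linear_combination -(g * (γ t).1.re * (1 - μ 0 - μ 1) * μ 0) * b1 -
    (g * (γ t).1.re * (1 - μ 0 - μ 1) * μ 1) * b2

theorem inv_Am (hμ : Ms μ) {γ : ℝ → Z3} {g t : ℝ} (hn : NC (γ t))
    (h : HasDerivAt γ (g • GR μ (γ t)) t) :
    HasDerivAt (fun s => Am μ (γ s)) (-(g * (γ t).1.re / 2) * Am μ (γ t)) t := by
  have h1 := hd_fst h
  have h2 := hd_fst (hd_snd h)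
  have h3 := hd_snd (hd_snd h)
  have a2 := hd_cr (h2.sub_const (1 / 2)) (h3.fun_sub (h1.div_const 2))
  have a3 := hd_cr (h2.add_const (1 / 2)) (h3.fun_add (h1.div_const 2))
  refine hd_congr (((((hd_im h1).const_mul (μ 0 * μ 1)).fun_add
    (a2.const_mul (μ 1 * μ 2))).fun_add (a3.const_mul (μ 2 * μ 0))).div_const (I0 μ))
    (fun _ => rfl) ?_
  have b3 : μ 2 = 1 - μ 0 - μ 1 := by linarith [hμ.2]
  rw [Am, ← mul_div_assoc]
  congr 1
  simp only [GR, Kp, Sg, ff, ← inv_pow, b3]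
  generalize ‖(γ t).2.1 + 1 / 2‖⁻¹ = α
  generalize ‖(γ t).2.1 - 1 / 2‖⁻¹ = β
  simp [cr, pow_succ]
  ring

/-- The sign of the energy and of the angular momentum, and `En * Am ^ 2`, are preserved. -/
theorem inv_flow (hμ : Ms μ) {γ : ℝ → Z3} {g : ℝ → ℝ} (hg : Continuous g)
    (h : ∀ t, NC (γ t) ∧ HasDerivAt γ (g t • GR μ (γ t)) t) (t : ℝ) :
    (0 < En μ (γ 0) → 0 < En μ (γ t)) ∧ (0 < Am μ (γ 0) → 0 < Am μ (γ t)) ∧
      En μ (γ t) * Am μ (γ t) ^ 2 = En μ (γ 0) * Am μ (γ 0) ^ 2 := by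
  have hc : Continuous γ := continuous_iff_continuousAt.2 fun t => (h t).2.continuousAt
  have ha : Continuous fun t => g t * (γ t).1.re := by fun_prop
  have h1 := i_lin (f := fun s => En μ (γ s)) 1 ha
    (fun t => hd_congr (inv_En hμ (h t).1 (h t).2) (fun _ => rfl) (by ring)) t
  have h2 := i_lin (f := fun s => Am μ (γ s)) (-(1 / 2)) ha
    (fun t => hd_congr (inv_Am hμ (h t).1 (h t).2) (fun _ => rfl) (by ring)) t
  rw [h1, h2]
  refine ⟨fun k => by positivity, fun k => by positivity, ?_⟩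
  rw [mul_pow, mul_mul_mul_comm, ← Real.exp_nat_mul, ← Real.exp_add]
  simp

lemma iv_flow (hμ : Ms μ) {γ : ℝ → Z3} {g : ℝ → ℝ} (hg : Continuous g)
    (h : ∀ t, NC (γ t) ∧ HasDerivAt γ (g t • GR μ (γ t)) t) (h0 : Iv μ (γ 0)) (t : ℝ) :
    Iv μ (γ t) := by
  obtain ⟨a, b, c⟩ := inv_flow hμ hg h t
  exact ⟨a h0.1, b h0.2.1, c ▸ h0.2.2⟩

lemma Mass.m01 {a : ℝ} (hμ : Mass a μ) : 1 / 43 ≤ μ 0 * μ 1 ∧ μ 0 + μ 1 ≤ 1 := by
  have h1 := hμ.res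
  have h2 := hμ.sm
  have h3 := hμ.ms.2
  have p0 := hμ.ms.1 0
  have p1 := hμ.ms.1 1
  have p2 := hμ.ms.1 2
  unfold I0 at h1
  refine ⟨?_, by linarith⟩
  have : μ 2 * (μ 0 + μ 1) ≤ 1 / 2 ^ 200 * 1 := by gcongr; linarith
  linarith

/-- The energy and the angular momentum are averages. -/
lemma avg {a : ℝ} (hμ : Mass a μ) (X Y Z : ℝ) :
    (μ 0 * μ 1 * X + μ 1 * μ 2 * Y + μ 2 * μ 0 * Z) / I0 μ
      = X + 675 / 16 * μ 2 * (μ 1 * (Y - X) + μ 0 * (Z - X)) := by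
  have h := hμ.res
  rw [h, div_eq_iff (by norm_num)]
  unfold I0 at h
  linear_combination X * h

lemma avg_le {a : ℝ} (hμ : Mass a μ) {A B C : ℝ} (h1 : |A| ≤ C) (h2 : |B| ≤ C) :
    |675 / 16 * μ 2 * (μ 1 * A + μ 0 * B)| ≤ 43 * μ 2 * C := by
  have p0 := hμ.ms.1 0
  have p1 := hμ.ms.1 1
  have p2 := hμ.ms.1 2
  have c0 : 0 ≤ C := (abs_nonneg _).trans h1
  have b : |μ 1 * A + μ 0 * B| ≤ C := by
    refine (abs_add_le _ _).trans ?_
    rw [abs_mul, abs_mul, abs_of_pos p0, abs_of_pos p1]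
    nlinarith [hμ.m01.2]
  rw [abs_mul, abs_of_pos (by positivity)]
  gcongr
  norm_num

/-- The distance from the circular binary is controlled by the defect of the invariant. -/
lemma zeta_le {η : ℂ} {ε : ℝ} (h0 : -(1 / 4) ≤ η.im) (e1 : ε ≤ 1 / 4)
    (h : 1 - ε ≤ (2 - ‖η‖ ^ 2) * η.im ^ 2) : ‖η - I‖ ^ 2 ≤ 3 * ε := by
  rw [sq_norm'] at h ⊢
  simp only [sub_re, sub_im, I_re, I_im, sub_zero]
  set u := η.re
  set v := η.im
  have a1 : (1 - v ^ 2) ^ 2 + u ^ 2 * v ^ 2 ≤ ε := by linarith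
  have a2 : (1 - v ^ 2) ^ 2 ≤ (1 / 2) ^ 2 := by nlinarith [sq_nonneg (u * v)]
  have a3 : 1 / 2 ≤ v ^ 2 := by linarith [(abs_le.1 (abs_le_of_sq_le_sq a2 (by norm_num))).2]
  have a4 : 0 ≤ v := by nlinarith
  have a5 : (v - 1) ^ 2 ≤ (1 - v ^ 2) ^ 2 := by
    have : (1 - v ^ 2) ^ 2 = (v - 1) ^ 2 * (1 + v) ^ 2 := by ring
    nlinarith [sq_nonneg (v - 1), mul_nonneg (sq_nonneg (v - 1)) a4,
      mul_nonneg (sq_nonneg (v - 1)) (sq_nonneg v)]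
  nlinarith [sq_nonneg u, mul_le_mul_of_nonneg_left a3 (sq_nonneg u), sq_nonneg (1 - v ^ 2)]

/-- In the region of the tubes the binary is circular up to a tiny error. -/
lemma safe_zeta {a : ℝ} (hμ : Mass a μ) {z : Z3} (hs : Safe (co z)) (h : Iv μ z) :
    ‖z.1 - I‖ ≤ 1 / 2 ^ 70 := by
  obtain ⟨hE, hA, hl⟩ := h
  obtain ⟨m1, m2⟩ := hμ.m01
  have p0 := hμ.ms.1 0
  have p1 := hμ.ms.1 1
  have p2 := hμ.ms.1 2
  have sm := hμ.sm
  have nY : ‖z.2.1‖ ≤ 128 := by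
    have a1 : |z.2.1.re| ≤ 64 := hs.1 .i0
    have a2 : |z.2.1.im| ≤ 64 := hs.1 .i1
    linarith [norm_le_abs_re_add_abs_im z.2.1]
  have nW : ‖z.2.2‖ ≤ 128 := by
    have a1 : |z.2.2.re| ≤ 64 := hs.1 .i2
    have a2 : |z.2.2.im| ≤ 64 := hs.1 .i3
    linarith [norm_le_abs_re_add_abs_im z.2.2]
  have d0 : ‖z.2.1 + 1 / 2‖⁻¹ ≤ 32 := inv_le_of_inv_le₀ (by norm_num) (by rw [← one_div]; exact hs.2.1)
  have d1 : ‖z.2.1 - 1 / 2‖⁻¹ ≤ 32 := inv_le_of_inv_le₀ (by norm_num) (by rw [← one_div]; exact hs.2.2)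
  have d2 : 0 ≤ ‖z.2.1 + 1 / 2‖⁻¹ := by positivity
  have d3 : 0 ≤ ‖z.2.1 - 1 / 2‖⁻¹ := by positivity
  have nη : ‖z.1‖ ≤ 2 := by
    have h1 := (div_pos_iff_of_pos_right (by rw [hμ.res]; norm_num : 0 < I0 μ)).mp hE
    have a1 : μ 1 * μ 2 * (-32) ≤ μ 1 * μ 2 * (‖z.2.2 - z.1 / 2‖ ^ 2 / 2 - ‖z.2.1 - 1 / 2‖⁻¹) := by
      gcongr; nlinarith [sq_nonneg ‖z.2.2 - z.1 / 2‖]
    have a2 : μ 2 * μ 0 * (-32) ≤ μ 2 * μ 0 * (‖z.2.2 + z.1 / 2‖ ^ 2 / 2 - ‖z.2.1 + 1 / 2‖⁻¹) := by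
      gcongr; nlinarith [sq_nonneg ‖z.2.2 + z.1 / 2‖]
    have a3 : μ 2 * (μ 0 + μ 1) ≤ 1 / 2 ^ 200 * 1 := by gcongr
    by_contra hh
    have a4 : 1 ≤ ‖z.1‖ ^ 2 / 2 - 1 := by nlinarith
    nlinarith
  have nh : ‖z.1 / 2‖ ≤ 1 := by rw [norm_div]; simp; linarith
  have w0 : ‖z.2.2 + z.1 / 2‖ ≤ 129 := (norm_add_le _ _).trans (by linarith)
  have w1 : ‖z.2.2 - z.1 / 2‖ ≤ 129 := (norm_sub_le _ _).trans (by linarith)
  have n2 : ‖(1 / 2 : ℂ)‖ ≤ 1 := by norm_num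
  have y0 : ‖z.2.1 + 1 / 2‖ ≤ 129 := (norm_add_le _ _).trans (by linarith)
  have y1 : ‖z.2.1 - 1 / 2‖ ≤ 129 := (norm_sub_le _ _).trans (by linarith)
  have vi := abs_le.1 ((abs_im_le_norm z.1).trans nη)
  have sq : ∀ {x : ℂ} {C : ℝ}, ‖x‖ ≤ C → 0 ≤ ‖x‖ ^ 2 ∧ ‖x‖ ^ 2 ≤ C ^ 2 := fun h =>
    ⟨sq_nonneg _, pow_le_pow_left₀ (norm_nonneg _) h 2⟩
  have c0 := abs_le.1 ((abs_cr_le (z.2.1 + 1 / 2) (z.2.2 + z.1 / 2)).trans
    (mul_le_mul y0 w0 (norm_nonneg _) (by norm_num)))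
  have c1 := abs_le.1 ((abs_cr_le (z.2.1 - 1 / 2) (z.2.2 - z.1 / 2)).trans
    (mul_le_mul y1 w1 (norm_nonneg _) (by norm_num)))
  have e1 : |Am μ z - z.1.im| ≤ 1 / 2 ^ 178 := by
    rw [Am, avg hμ, add_sub_cancel_left]
    refine (avg_le hμ (C := 2 ^ 15) (abs_le.2 ⟨by linarith, by linarith⟩)
      (abs_le.2 ⟨by linarith, by linarith⟩)).trans (by linarith)
  have e2 : |En μ z - (1 - ‖z.1‖ ^ 2 / 2)| ≤ 1 / 2 ^ 178 := by
    rw [En, neg_div, avg hμ, ← abs_neg]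
    refine le_of_eq_of_le (congrArg _ (by ring)) ((avg_le hμ (C := 2 ^ 15)
      (A := ‖z.2.2 - z.1 / 2‖ ^ 2 / 2 - ‖z.2.1 - 1 / 2‖⁻¹ - (‖z.1‖ ^ 2 / 2 - 1))
      (B := ‖z.2.2 + z.1 / 2‖ ^ 2 / 2 - ‖z.2.1 + 1 / 2‖⁻¹ - (‖z.1‖ ^ 2 / 2 - 1))
      (abs_le.2 ⟨by linarith [sq nη, sq w1], by linarith [sq nη, sq w1]⟩)
      (abs_le.2 ⟨by linarith [sq nη, sq w0], by linarith [sq nη, sq w0]⟩)).trans (by linarith))
  rw [abs_le] at e1 e2
  have e3 : Am μ z ^ 2 ≤ z.1.im ^ 2 + 5 / 2 ^ 178 := by nlinarith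
  have e4 : 1 - 1 / 2 ^ 170 ≤ (2 - ‖z.1‖ ^ 2) * z.1.im ^ 2 := by
    have b1 := mul_le_mul_of_nonneg_left e3 hE.le
    have b2 : z.1.im ^ 2 ≤ 4 := by nlinarith
    nlinarith [sq nη, sq_nonneg z.1.im]
  have e5 := zeta_le (by linarith) (by norm_num) e4
  exact (abs_le_of_sq_le_sq' (e5.trans (by norm_num)) (by positivity)).2

end Pool.Agent.Lib.MP_6e7c44_mp.RS
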