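import Pool.Agent.Lib.MP_6e7c44_mp.RS.Defs
import Pool.Agent.Lib.MP_6e7c44_mp.LA.Chk

/-! The checker of one step of a tube. -/

set_option autoImplicit false

namespace Pool.Agent.Lib.MP_6e7c44_mp.RS

open LA

/-- The format of the tubes: five rows of thirty digits. -/
def cV : Fm := ⟨192, 150, 30⟩

def r1 (j : ℕ) : Bool := Nat.ble 1 j && Nat.ble j 4
def cb (b k : ℕ) : Bool := Nat.ble k 10 && Nat.testBit (Nat.add k 1) b
def cp (p k : ℕ) : Bool := Nat.ble k 11 && Nat.beq (Nat.mod k 2) p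
def mX : ℕ := msk cV 63 r0 (cl 11)
def mA : ℕ := msk cV 63 r1 (cl 11)
def mB : ℕ := msk cV 63 r0 (cl 7)
def mP (p : ℕ) : ℕ := msk cV 63 r0 (cp p)

def I4.n : I4 → ℕ
  | .i0 => 1
  | .i1 => 2
  | .i2 => 3
  | .i3 => 4

def all4 (f : I4 → Bool) : Bool := f .i0 && (f .i1 && (f .i2 && f .i3))

/-- The data of a step. -/
structure Raw where
  w : ℕ
  hn : ℕ
  R : I4 → ℕ
  t : I4 → ℕ
  c : I4 → ℕ
  ro : I4 → ℕ
  xp : I4 → ℕ
  xn : I4 → ℕ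
  hk : Bool → ℕ
  hp : Bool → ℕ
  hm : Bool → ℕ
  ap : I4 → ℕ
  an : I4 → ℕ
  bp : I4 → I4 → ℕ
  bn : I4 → I4 → ℕ

def mu (p q : TM) : TM := TM.mul cV p q
def sb (p q : TM) : TM := TM.sub cV p q
def bd (p : TM) : ℕ := TM.bnd cV p
def tc (s : ℕ) (p : TM) : TM := TM.tr cV s 11 11 p

/-- The derivative of a polynomial of degree eleven. -/
def dr1 (s : ℕ → Bool) (P N : ℕ) : TM :=
  ((TM.ex cV (msk cV 63 s (cb 0)) P N).add ((TM.ex cV (msk cV 63 s (cb 1)) P N).up 1)).add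
    (((TM.ex cV (msk cV 63 s (cb 2)) P N).up 2).add ((TM.ex cV (msk cV 63 s (cb 3)) P N).up 3))
def dr (s : ℕ → Bool) (P N : ℕ) : TM := dr1 s (Nat.shiftRight P 192) (Nat.shiftRight N 192)

namespace Raw
variable (r : Raw)

def wt (j : Bool) : ℕ := cond j r.w (Nat.sub (Nat.pow 2 60) r.w)
def X (i : I4) : TM := TM.ex cV mX (r.xp i) (r.xn i)
def E (i : I4) : TM := TM.ex cV mA (r.ap i) (r.an i)
def dZ (i : I4) : TM := ((dr r1 (r.ap i) (r.an i)).add ((dr r0 (r.xp i) (r.xn i)).up 32)).up 56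
def B (i l : I4) : TM := TM.ex cV mB (r.bp i l) (r.bn i l)
def Hr (j : Bool) : TM := TM.ex cV mX (r.hp j) (r.hm j)
def H (j : Bool) : TM := (TM.cst (r.hk j)).add (r.Hr j)
def qq : TM :=
  (tc 32 ((mu (r.X .i0) (r.X .i0)).add (mu (r.X .i1) (r.X .i1)))).add (.cst (Nat.pow 2 46))
def rho (j : Bool) : TM := cond j (r.qq.add ((r.X .i0).up 8)) (sb r.qq ((r.X .i0).up 8))
def kk (j : Bool) : TM := tc 32 (mu (r.H j) (r.H j))
def eps (j : Bool) : ℕ := bd (sb (mu (r.kk j) (r.rho j)) (.cst (Nat.pow 2 96)))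
def ht (j : Bool) : TM := (r.H j).err (dn (Nat.mul (r.eps j) (r.H j).bd0) 95)
def kt (j : Bool) : TM := (r.kk j).err (dn (Nat.mul (r.eps j) (r.kk j).bd0) 95)
def aa (j : Bool) : TM := tc 100 ((mu (r.kt j) (r.ht j)).smul (r.wt j))
def bb (j : Bool) : TM := mu (r.aa j) (r.kt j)
def as : TM := (r.aa true).add (r.aa false)
def uu : TM := tc 40 (mu (tc 56 ((r.bb true).add (r.bb false))) (r.X .i1))
def ii : TM := tc 32 (sb (r.as.up 32) ((mu r.uu (r.X .i1)).smul 3))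
def ri : TM := tc 33 ((((mu r.uu (r.X .i0)).up 1).add
  (mu (tc 56 (sb (r.bb true) (r.bb false))) (r.X .i1))).smul 3)
def li (i : I4) : TM := ((r.E i).add ((r.X i).up 32)).up 48

/-- The vector field at the centre plus its derivative applied to the error, 120 binary places. -/
def row : I4 → TM
  | .i0 => (r.li .i2).add (r.li .i1)
  | .i1 => sb (r.li .i3) (r.li .i0)
  | .i2 => sb ((((r.li .i3).add (.cst (Nat.shiftLeft r.w 60))).add (mu (r.as.add r.ii) (r.E .i0))).add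
      (mu r.ri (r.E .i1)))
      ((((mu r.as (r.X .i0)).add ((sb (r.aa true) (r.aa false)).up 39)).up 32).add
        (.cst (Nat.pow 2 119)))
  | .i3 => sb (mu r.ri (r.E .i0))
      (((r.li .i2).add (mu r.ii (r.E .i1))).add ((mu r.as (r.X .i1)).up 32))

def eb (i : I4) : ℕ := (r.E i).bd0
def e2 : ℕ := Nat.add (Nat.mul (r.eb .i0) (r.eb .i0)) (Nat.mul (r.eb .i1) (r.eb .i1))
def e1 : ℕ := Nat.add (mx (r.eb .i0) (r.eb .i1)) (dn (Nat.add (r.eb .i0) (r.eb .i1)) 3)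
def e3 : ℕ := dn (Nat.add r.e1 (Nat.div r.e2 r.e1)) 1
def es : ℕ := dn (Nat.add r.e3 (Nat.div r.e2 r.e3)) 1
def hb (j : Bool) : ℕ := (r.ht j).bd0
def gq (j : Bool) : ℕ := Nat.add
  (Nat.div (Nat.shiftLeft (r.hb j) 92) (Nat.sub (Nat.pow 2 112) (Nat.mul (r.hb j) r.es))) 1
def g4 (j : Bool) : ℕ :=
  Nat.mul (r.wt j) (Nat.mul (Nat.mul (r.gq j) (r.gq j)) (Nat.mul (r.gq j) (r.gq j)))
def w2 : ℕ := dn (Nat.mul (Nat.mul 3 (Nat.mul r.es r.es)) (Nat.add (r.g4 true) (r.g4 false))) 164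

/-- Bounds of the nonlinear terms, 120 binary places. -/
def nl : I4 → ℕ
  | .i0 => 0
  | .i1 => 0
  | .i2 => r.w2
  | .i3 => r.w2

def G (l : I4) : TM := (sb ((r.row l).smul r.hn) (r.dZ l)).err
  (Nat.mul r.hn (Nat.add (r.nl l) (Nat.pow 2 76)))
def dB (v : I4 → TM) (i : I4) : TM := ((mu (r.B i .i0) (v .i0)).add (mu (r.B i .i1) (v .i1))).add
  ((mu (r.B i .i2) (v .i2)).add (mu (r.B i .i3) (v .i3)))
def gg (i : I4) : ℕ := dn (bd (r.dB r.G i)) (Nat.add (r.t i) 32)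
def dl (i : I4) : ℕ := dn (Nat.shiftLeft
  (bd (sb ((TM.mono cV (Nat.mul 30 i.n)).smul (Nat.pow 2 (r.t i))) (r.dB r.E i))) 20) (r.t i)
def gm : ℕ := mx (mx (r.gg .i0) (r.gg .i1)) (mx (r.gg .i2) (r.gg .i3))
def d (i : I4) : ℕ := Nat.mul 2 (Nat.add (r.gg i) (dn (Nat.mul (r.dl i) r.gm) 19))
def okH (j : Bool) : Bool := Nat.ble (r.eps j) (Nat.pow 2 95) && (Nat.ble (r.Hr j).bd0 (r.hk j) &&
  (Nat.blt (Nat.mul (r.hb j) r.es) (Nat.pow 2 112) && Nat.ble (r.gq j) (Nat.pow 2 25)))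
def okI (i : I4) : Bool := Nat.ble (r.dl i) (Nat.pow 2 19) && (Nat.blt 0 (r.R i) &&
  (Nat.blt (Nat.add (r.R i) (r.d i)) (Nat.pow 2 24) &&
    Nat.ble (Nat.add (Nat.shiftLeft (r.X i).bd0 32) (r.eb i)) (Nat.pow 2 78)))
def ok : Bool := Nat.blt 0 r.hn && (Nat.ble r.w (Nat.pow 2 60) &&
  (Nat.ble r.e2 (Nat.mul r.es r.es) && (r.okH true && (r.okH false && all4 r.okI))))

end Raw

/-- The sum of the digits of parity `p`. -/
def sP (p P : ℕ) : ℕ := Nat.mod (Nat.land P (mP p)) cV.x1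
/-- `a * p (1) = b * q (-1)`. -/
def lk (a b P N P' N' : ℕ) : Bool :=
  Nat.beq (Nat.add (Nat.mul a (Nat.add (sP 0 P) (sP 1 P))) (Nat.mul b (Nat.add (sP 0 N') (sP 1 P'))))
    (Nat.add (Nat.mul a (Nat.add (sP 0 N) (sP 1 N))) (Nat.mul b (Nat.add (sP 0 P') (sP 1 N'))))
def sl (P : ℕ) (j : I4) : ℕ := Nat.shiftRight P (Nat.mul 192 (Nat.mul 30 j.n))
def isU : I4 → Bool
  | .i0 => true
  | .i1 => true
  | _ => false
def lkR (w : Bool) (a b R d R' : ℕ) : Bool :=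
  cond w (Nat.ble (Nat.add (Nat.mul a R') (Nat.mul b d)) (Nat.mul b R))
    (Nat.ble (Nat.mul b (Nat.add R d)) (Nat.mul a R'))
def lkC (r r' : Raw) (a b : ℕ) (j k : I4) : Bool :=
  lk a b (sl (r.ap k) j) (sl (r.an k) j) (sl (r'.ap k) j) (sl (r'.an k) j)
def lkA (r r' : Raw) (j : I4) (a b : ℕ) : Bool := Nat.blt 0 a && (Nat.blt 0 b &&
  (lkR (isU j) a b (r.R j) (r.d j) (r'.R j) && all4 (lkC r r' a b j)))
def lkJ (r r' : Raw) (j : I4) : Bool := lk 1 1 (r.xp j) (r.xn j) (r'.xp j) (r'.xn j) &&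
  lkA r r' j (Nat.shiftLeft (r'.ro j) 8) (Nat.shiftLeft (r.ro j) (r'.c j))
def link (r r' : Raw) : Bool := all4 (lkJ r r')

def o1 : ℕ := Nat.div (Nat.pow 2 13824) (Nat.sub (Nat.pow 2 192) 1)
def o2 : ℕ := Nat.div (Nat.pow 2 2304) (Nat.sub (Nat.pow 2 192) 1)
def pt (s k : ℕ) : ℕ := Nat.div (Nat.pow 2 (Nat.mul s k)) (Nat.sub (Nat.pow 2 s) 1)
def o48 : ℕ := Nat.mul o1 (pt 48 4)
def o32 : ℕ := Nat.mul o1 (pt 32 4)
def o21 : ℕ := Nat.mul o1 (pt 21 4)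
def fl (U p b : ℕ) : ℕ := Nat.land (Nat.shiftRight U p) (Nat.mul o2 (Nat.sub (Nat.pow 2 b) 1))
def ix (i : I4) : ℕ := Nat.sub i.n 1
def ro1 (D : ℕ) (j : I4) : ℕ := rd D (Nat.add 152 (Nat.mul 32 (ix j))) 32
def fA1 (U D : ℕ) (k j : I4) : ℕ := Nat.shiftLeft (Nat.mul (ro1 D j)
  (fl U (Nat.add (Nat.mul 2304 (Nat.add j.n 1)) (Nat.mul 32 (ix k))) 31)) (Nat.mul 5760 j.n)
def fA (U D : ℕ) (k : I4) : ℕ :=
  Nat.add (Nat.add (fA1 U D k .i0) (fA1 U D k .i1)) (Nat.add (fA1 U D k .i2) (fA1 U D k .i3))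
def fB (U V : ℕ) (i : I4) : I4 → ℕ
  | .i3 => fl U (Nat.add 2304 (Nat.mul 21 (ix i))) 20
  | l => fl V (Nat.add (Nat.mul 2304 (Nat.add i.n 1)) (Nat.mul 21 (ix l))) 20
def fH (U : ℕ) (j : Bool) : ℕ := fl U (cond j 2304 2352) 47
def uD (D p : ℕ) : ℕ := Nat.shiftRight D (Nat.add 288 p)

def unpack (w D : ℕ) : Raw where
  w := w
  hn := rd D 0 12
  R i := rd D (Nat.add 12 (Nat.mul 24 (ix i))) 24
  t i := rd D (Nat.add 108 (Nat.mul 7 (ix i))) 7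
  c i := rd D (Nat.add 136 (Nat.mul 4 (ix i))) 4
  ro := ro1 D
  xp i := fl (ps 47 o48 (uD D 0)) (Nat.mul 48 (ix i)) 47
  xn i := fl (ng 47 o48 (uD D 0)) (Nat.mul 48 (ix i)) 47
  hk j := rd (fH (ps 47 o48 (uD D 0)) j) 0 47
  hp j := Nat.sub (fH (ps 47 o48 (uD D 0)) j) (rd (fH (ps 47 o48 (uD D 0)) j) 0 47)
  hm j := fH (ng 47 o48 (uD D 0)) j
  ap := fA (ps 31 o32 (uD D 0)) D
  an := fA (ng 31 o32 (uD D 0)) D
  bp := fB (ps 20 o21 (uD D 96)) (ps 20 o21 (uD D 128))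
  bn := fB (ng 20 o21 (uD D 96)) (ng 20 o21 (uD D 128))

/-- A piece of a chain from `D` to `D'`. -/
def seg (w : ℕ) (D' : ℕ) : ℕ → List ℕ → Bool
  | D, [] => (unpack w D).ok && link (unpack w D) (unpack w D')
  | D, E :: l => (unpack w D).ok && (link (unpack w D) (unpack w E) && seg w D' E l)

end Pool.Agent.Lib.MP_6e7c44_mp.RS
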