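import Pool.Agent.Lib.MP_6e7c44_mp.LA.Defs

/-!
The Lagrange equilibrium at the two to one resonance: masses, the limit system and the tubes.
-/

set_option autoImplicit false

open Set Complex

noncomputable section

namespace Pool.Agent.Lib.MP_6e7c44_mp.RS

open LA

/-- Normalised masses. -/
def Ms (μ : Fin 3 → ℝ) : Prop := (∀ k, 0 < μ k) ∧ μ 0 + μ 1 + μ 2 = 1

/-- Normalised resonant masses close to `(a, 1 - a, 0)`. -/
structure Mass (a : ℝ) (μ : Fin 3 → ℝ) : Prop where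
  ms : Ms μ
  res : I0 μ = 16 / 675
  sm : μ 2 ≤ 1 / 2 ^ 200
  cl : |(μ 0 - μ 1) / 2 - (a - 1 / 2)| ≤ 1 / 2 ^ 58

/-- The invariant condition that keeps the binary almost circular. -/
def Iv (μ : Fin 3 → ℝ) (z : Z3) : Prop :=
  0 < En μ z ∧ 0 < Am μ z ∧ 1 - 1 / 2 ^ 180 ≤ 2 * (En μ z * Am μ z ^ 2)

/-- Four indices. -/
inductive I4 : Type
  | i0 | i1 | i2 | i3
  deriving DecidableEq

instance : Fintype I4 := ⟨{.i0, .i1, .i2, .i3}, fun x => by cases x <;> simp⟩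

lemma I4.sum (f : I4 → ℝ) : ∑ i, f i = f .i0 + f .i1 + f .i2 + f .i3 := by
  show ∑ i ∈ ({.i0, .i1, .i2, .i3} : Finset I4), f i = _
  simp [add_assoc]

/-- Real coordinates of the third body. -/
def co (z : Z3) : I4 → ℝ
  | .i0 => z.2.1.re
  | .i1 => z.2.1.im
  | .i2 => z.2.2.re
  | .i3 => z.2.2.im

def yc (x : I4 → ℝ) : ℂ := ⟨x .i0, x .i1⟩
def Fa (a : ℝ) (Y : ℂ) : ℂ := a • ff (Y + 1 / 2) + (1 - a) • ff (Y - 1 / 2)

/-- The vector field of the restricted problem. -/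
def f0 (a : ℝ) (x : I4 → ℝ) : I4 → ℝ
  | .i0 => x .i2 + x .i1
  | .i1 => x .i3 - x .i0
  | .i2 => x .i3 + (a - 1 / 2) - (Fa a (yc x)).re
  | .i3 => -x .i2 - (Fa a (yc x)).im

/-- The compact region in which the tubes lie. -/
def Safe (x : I4 → ℝ) : Prop :=
  (∀ i, |x i| ≤ 64) ∧ 1 / 32 ≤ ‖yc x + 1 / 2‖ ∧ 1 / 32 ≤ ‖yc x - 1 / 2‖

/-- A curve that solves the limit system up to a small error as long as it is safe. -/
structure Traj (a : ℝ) (X : ℝ → I4 → ℝ) : Prop where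
  cont : Continuous X
  der : ∀ τ, Safe (X τ) → ∀ i, ∃ w : ℝ, |w| ≤ 1 / 2 ^ 44 ∧
    HasDerivAt (fun s => X s i) (f0 a (X τ) i + w) τ

/-- One step of a tube: length, coordinates at both ends, radii, drift, final property. -/
structure SS where
  h : ℝ
  yS : I4 → (I4 → ℝ) → ℝ
  yE : I4 → (I4 → ℝ) → ℝ
  R : I4 → ℝ
  d : I4 → ℝ
  out : (I4 → ℝ) → Prop

def SS.Box (s : SS) (x : I4 → ℝ) : Prop := ∀ j, |s.yS j x| ≤ s.R j

structure SS.OK (a : ℝ) (s : SS) : Prop where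
  h0 : 0 ≤ s.h
  R0 : ∀ j, 0 < s.R j
  cS : ∀ j, Continuous (s.yS j)
  step : ∀ X, Traj a X → ∀ τ, s.Box (X τ) → (∀ t ∈ Icc τ (τ + s.h), Safe (X t)) ∧
    (∀ j, |s.yE j (X (τ + s.h)) - s.yS j (X τ)| ≤ s.d j) ∧ s.out (X (τ + s.h))

/-- The link of two steps; the first two coordinates are exit directions. -/
def SS.Link (s s' : SS) : Prop := ∀ j, ∃ k : ℝ, 0 < k ∧ (∀ x, s'.yS j x = k * s.yE j x) ∧
  if j = .i0 ∨ j = .i1 then s'.R j ≤ k * (s.R j - s.d j) else k * (s.R j + s.d j) ≤ s'.R j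

/-- The escape criterion. -/
def Out (a : ℝ) (x : I4 → ℝ) : Prop := Safe x ∧ ∃ ζ c G b : ℝ, 0 < ζ ∧ 0 < c ∧
  2 ≤ (c * ζ) ^ 2 ∧ 1 / 2 ≤ G ∧ 0 ≤ b ∧ 1 / G + 1 / 800 ≤ b ^ 2 / 2 ∧
  G + (ζ ^ 2 / 3 + 2 / (3 * ζ)) + 1 / 2 ^ 20 ≤ ‖yc x + (a - 1 / 2 : ℝ)‖ ∧
  (b + c + 1 / 2 ^ 20) * ‖yc x + (a - 1 / 2 : ℝ)‖
    ≤ (x .i0 + (a - 1 / 2)) * x .i2 + x .i1 * (x .i3 + (a - 1 / 2))

/-- A chain of links ending in escape. -/
def Chain (a : ℝ) : SS → List SS → Prop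
  | s, [] => s.OK a ∧ ∀ x, s.out x → Out a x
  | s, s' :: l => s.OK a ∧ s.Link s' ∧ Chain a s' l

/-- The normalised exit coordinates at the start of a step. -/
def SS.g (s : SS) (x : I4 → ℝ) : ℂ := ⟨s.yS .i0 x / s.R .i0, s.yS .i1 x / s.R .i1⟩

end Pool.Agent.Lib.MP_6e7c44_mp.RS
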