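import Pool.Agent.Lib.MP_6e7c44_mp.RS.Trap

/-! An essential family of orbits that leave the Lagrange point inside the trap. -/

set_option autoImplicit false

open Set Complex Filter Topology

noncomputable section

namespace Pool.Agent.Lib.MP_6e7c44_mp.RS

open LA

/-- A cut-off flow that fixes the zeros of the field. -/
theorem cut_flow {E : Type} [NormedAddCommGroup E] [NormedSpace ℝ E] [FiniteDimensional ℝ E]
    {U K : Set E} (hU : IsOpen U) (hK : IsCompact K) (hKU : K ⊆ U) {F : E → E}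
    (hF : ContDiffOn ℝ 1 F U) : ∃ (Φ : ℝ → E → E) (β : E → ℝ),
      Continuous (fun p : ℝ × E => Φ p.1 p.2) ∧ (∀ x, Φ 0 x = x) ∧ Continuous β ∧
      (∀ x, 0 ≤ β x) ∧ (∀ x ∈ K, β x = 1) ∧ (∀ x, F x = 0 → ∀ t, Φ t x = x) ∧
      ∀ x ∈ U, ∀ t, Φ t x ∈ U ∧ HasDerivAt (fun s => Φ s x) (β (Φ t x) • F (Φ t x)) t := by
  obtain ⟨K', k1, k2, k3⟩ := exists_compact_between hK hU hKU
  obtain ⟨β, b0, b1, b2⟩ := exists_contMDiffMap_zero_one_of_isClosed (n := 1)
    (modelWithCornersSelf ℝ E) isOpen_interior.isClosed_compl hK.isClosed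
    (disjoint_left.2 fun x h1 h2 => h1 (k2 h2))
  have cβ : ContDiff ℝ 1 β := β.contMDiff.contDiff
  have z0 : ∀ x, x ∉ K' → β x • F x = 0 := fun x hx => by
    rw [b0 fun h => hx (interior_subset h)]; simp
  have cZ : ContDiff ℝ 1 fun x => β x • F x := contDiff_iff_contDiffAt.2 fun x => by
    by_cases hx : x ∈ U
    · exact cβ.contDiffAt.smul (hF.contDiffAt (hU.mem_nhds hx))
    · exact (contDiffAt_const (c := 0)).congr_of_eventuallyEq
        (mem_of_superset (k1.isClosed.isOpen_compl.mem_nhds fun h => hx (k3 h)) z0)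
  have sZ : HasCompactSupport fun x => β x • F x := HasCompactSupport.intro k1 z0
  obtain ⟨L, hL⟩ := cZ.lipschitzWith_of_hasCompactSupport sZ (by simp)
  obtain ⟨C, hC⟩ := sZ.exists_bound_of_continuous cZ.continuous
  have := FiniteDimensional.complete ℝ E
  obtain ⟨Φ, f0, f1, f2⟩ := Hg.exists_lip_flow hL (L := ⟨C, (norm_nonneg _).trans (hC 0)⟩) hC
  have un : ∀ x y t, β y • F y = 0 → Φ t x = y → ∀ s, Φ s x = y := fun x y t h e =>
    congrFun (ODE_solution_unique_univ (v := fun _ x => β x • F x) (s := fun _ => univ)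
      (f := fun s => Φ s x) (g := fun _ => y) (t₀ := t) (fun _ => hL.lipschitzOnWith)
      (fun s => ⟨f1 x s, trivial⟩) (fun s => ⟨by rw [h]; exact hasDerivAt_const _ _, trivial⟩) e)
  refine ⟨Φ, β, continuous_iff_continuousAt.2 fun p => ?_, f0, cβ.continuous, fun x => (b2 x).1,
    fun x hx => b1 hx, fun x hx => un x x 0 (by simp [hx]) (f0 x), fun x hx t => ⟨?_, f1 x t⟩⟩
  · obtain ⟨C, hC⟩ := f2 (|p.1| + 1)
    exact hC.continuousOn.continuousAt ((isOpen_Ioo.prod isOpen_univ).mem_nhds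
      ⟨⟨by linarith [neg_abs_le p.1], by linarith [le_abs_self p.1]⟩, trivial⟩)
  · by_contra h
    exact h (un x _ t (z0 _ fun h' => h (k3 h')) rfl 0 ▸ (f0 x).symm ▸ hx)

/-- The resonant partner. -/
def pa (u : ℂ) : ℂ := I * (starRingEnd ℂ) u ^ 2 / ‖u‖

lemma pa_norm (u : ℂ) : ‖pa u‖ = ‖u‖ := by
  rcases eq_or_ne u 0 with rfl | h
  · simp [pa]
  · simp [pa, sq, h]

lemma pa_cont : Continuous pa := continuous_iff_continuousAt.2 fun u => by
  rcases eq_or_ne u 0 with rfl | h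
  · rw [ContinuousAt, show pa 0 = 0 by simp [pa], tendsto_zero_iff_norm_tendsto_zero]
    simpa [pa_norm] using continuous_norm.tendsto (0 : ℂ)
  · exact ContinuousAt.div (by fun_prop) (by fun_prop) (by simpa using h)

lemma pa_mul (u : ℂ) : pa u * u ^ 2 = I * (‖u‖ ^ 3 : ℝ) := by
  rcases eq_or_ne u 0 with rfl | h
  · simp
  · have : (‖u‖ : ℂ) ≠ 0 := by simpa using h
    rw [pa, div_mul_eq_mul_div, mul_assoc, ← mul_pow, conj_mul', div_eq_iff this]
    push_cast; ring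

namespace Dt
variable (d : Dt) (μ : Fin 3 → ℝ)

/-- The initial states. -/
def st (u : ℂ) : Z3 := (I, cL + sI μ (pa u / d.b true) (u / d.b false),
  cL * I + pI μ (pa u / d.b true) (u / d.b false))
def sh (z : Z3) : ℂ := d.w0 * ev d.Z2 (d.xx μ z)
/-- What is known at the end of the local stage. -/
def Ex (z : Z3) : Prop := d.Uo μ z ∧ d.Tr 1 (d.xx μ z) ∧ ‖z.1 - I‖ ≤ 1 / 2 ^ 80 ∧ Iv μ z

variable {d μ}

lemma st_uu (hd : d.Fc) (hμ : Mass (d.w / 2 ^ 60) μ) (u : ℂ) :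
    d.uu μ true (d.st μ u) = pa u ∧ d.uu μ false (d.st μ u) = u := by
  simp only [uu, st, sz, pz, add_sub_cancel_left, ell_sI hμ]
  exact ⟨mul_div_cancel₀ _ (b_ne hd.n2 _), mul_div_cancel₀ _ (b_ne hd.n2 _)⟩

lemma st_ok (hd : d.Fc) (hμ : Mass (d.w / 2 ^ 60) μ) {u : ℂ} (h1 : ‖u‖ ≤ 1 / 1000000) :
    d.Uo μ (d.st μ u) ∧ d.Tr 1 (d.xx μ (d.st μ u)) ∧ ‖u‖ / 2 ≤ d.rr μ (d.st μ u) ∧
    1 - d.rr μ (d.st μ u) ^ 2 / 2 ^ 186 ≤ 2 * (En μ (d.st μ u) * Am μ (d.st μ u) ^ 2) := by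
  have e : d.xx μ (d.st μ u) = pt4 (pa u) u := by rw [xx, (st_uu hd hμ u).1, (st_uu hd hμ u).2]
  have a0 := norm_nonneg u
  let π : P4 := ⟨pt4 (pa u) u, ‖u‖, a0, by linarith, fun i => by cases i <;> simp [pt4, pa_norm]⟩
  obtain ⟨a1, a2, a3, a4, -⟩ := hd.st π _ _ rfl
  obtain ⟨s1, s2⟩ := hd.sp μ _ π hμ e.symm
  have z : ‖(d.st μ u).1 - I‖ = 0 := by simp [st]
  have l := (abs_le.1 (loc_inv hμ s1 s2 (by linarith [π.t1]) (by rw [z]; norm_num)).2.2.2).1
  simp only [π, mul_conj', pa_norm, sub_self, sub_zero, pa_mul, map_mul, conj_I, conj_ofReal,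
    neg_mul, add_neg_cancel, zero_div, show (d.st μ u).1 = I from rfl, norm_I, I_im,
    norm_zero] at a1 a2 a3 a4 l
  rw [Uo, Tr, rr, e, z, (st_uu hd hμ u).1, (st_uu hd hμ u).2, pa_norm]
  have c := abs_le.1 ((abs_norm_sub_norm_le _ _).trans a2)
  have b1 := (abs_re_le_norm _).trans a3
  have b2 := (abs_re_le_norm _).trans a4
  have u2 : ‖u‖ ^ 2 ≤ ‖u‖ / 1000000 := by nlinarith
  have b3 : ‖(ev d.Z1 (pt4 (pa u) u) - pa u) * ev d.Z2 (pt4 (pa u) u) ^ 2
      + pa u * ((ev d.Z2 (pt4 (pa u) u) - u) * (ev d.Z2 (pt4 (pa u) u) + u))‖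
      ≤ ‖u‖ / 8 * (2 * ‖u‖) ^ 2 + ‖u‖ * (‖u‖ / 8 * (2 * ‖u‖ + ‖u‖)) := by
    refine norm_add_le_of_le ?_ ?_
    · rw [norm_mul, norm_pow]; gcongr <;> linarith
    · rw [norm_mul, norm_mul, pa_norm]
      gcongr
      · linarith
      · exact norm_add_le_of_le (by linarith) le_rfl
  have b4 := (abs_le.1 ((abs_im_le_norm _).trans b3)).1
  rw [show ∀ a b c e : ℂ, (a - b) * c ^ 2 + b * ((c - e) * (c + e)) = a * c ^ 2 - b * e ^ 2 from
    fun _ _ _ _ => by ring, pa_mul, sub_im, I_mul_im, ofReal_re] at b4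
  have r1 : 99 / 100 * ‖u‖ ≤ ‖ev d.Z2 (pt4 (pa u) u)‖ := by linarith
  have r2 := pow_le_pow_left₀ (by positivity) r1 2
  have r3 := pow_le_pow_left₀ (by positivity) r1 3
  have u3 := mul_le_mul_of_nonneg_left h1 (pow_nonneg a0 2)
  have u4 := mul_le_mul_of_nonneg_left h1 (pow_nonneg a0 3)
  have := pow_nonneg a0 2
  have := pow_nonneg a0 3
  exact ⟨⟨by norm_num, by linarith, by linarith⟩, ⟨by linarith, by linarith, by linarith⟩,
    by linarith, by linarith⟩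

theorem fam (hd : d.Fc) (hμ : Mass (d.w / 2 ^ 60) μ) {U : Set Z3} (hU : U ∈ 𝓝 (lag I)) :
    ∃ X : ℂ → Z3, Continuous X ∧ (∀ ξ, NC (X ξ)) ∧ (Ess norm univ fun ξ => d.sh μ (X ξ)) ∧
      ∀ ξ, d.sh μ (X ξ) ≠ 0 → ‖d.sh μ (X ξ)‖ ≤ 1 →
        d.Ex μ (X ξ) ∧ (EscR μ (X ξ) → ∃ z ∈ U, EscR μ z) := by
  have cu := uu_cont (d := d) (μ := μ)
  obtain ⟨Φ, β, c1, f0, c2, b0, b1, fx, hf⟩ := cut_flow (U := {z | d.Uo μ z})
    (K := {z | ‖z.1 - I‖ ≤ 1 / 16 ∧ max ‖d.uu μ true z‖ ‖d.uu μ false z‖ ≤ 19 / 20})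
    (IsOpen.and (isOpen_lt (by fun_prop) continuous_const) (IsOpen.and (isOpen_lt (by fun_prop)
      continuous_const) (isOpen_lt (by fun_prop) continuous_const)))
    (Metric.isCompact_of_isClosed_isBounded (IsClosed.and (isClosed_le (by fun_prop) continuous_const)
      (isClosed_le (by fun_prop) continuous_const)) (isBounded_iff_forall_norm_le.2 ⟨3, fun z hz => by
        have a := max_le_iff.1 hz.2
        obtain ⟨s1, s2⟩ := hd.sp μ z (P4.of _ _ (a.1.trans (by norm_num)) (a.2.trans (by norm_num)))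
          hμ rfl
        have n := in_C.le' (n := 64) rfl
        have a1 := norm_sub_norm_le z.1 I
        have a2 := norm_sub_norm_le z.2.1 cL
        have a3 := norm_sub_norm_le z.2.2 (cL * z.1)
        have a4 := mul_le_mul (show ‖cL‖ ≤ 1 by linarith) (show ‖z.1‖ ≤ 2 by
          rw [norm_I] at a1; linarith [hz.1]) (norm_nonneg _) zero_le_one
        rw [norm_I] at a1
        rw [norm_mul] at a3
        simp only [Prod.norm_def, max_le_iff, P4.of, sz, pz] at s1 s2 ⊢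
        exact ⟨by linarith [hz.1], by linarith [hz.2], by linarith [hz.2]⟩⟩))
    (fun z hz => ⟨hz.1.trans_lt (by norm_num), (max_le_iff.1 hz.2).1.trans_lt (by norm_num),
      (max_le_iff.1 hz.2).2.trans_lt (by norm_num)⟩)
    ((cd_GR μ).mono fun z hz => (Uo.inv hd hμ hz).1)
  have cs : Continuous (d.st μ) := by
    have := pa_cont
    unfold st sI pI; fun_prop
  have s0 : d.st μ 0 = lag I := by simp [st, lag, pa, sI, pI]
  obtain ⟨δ, δ0, hδ⟩ := Metric.mem_nhds_iff.1 (cs.continuousAt.preimage_mem_nhds (s0 ▸ hU))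
  obtain ⟨r, r0, r1, r2⟩ : ∃ r : ℝ, 0 < r ∧ r ≤ δ ∧ r ≤ 1 / 1000000 :=
    ⟨min δ (1 / 1000000), by positivity, min_le_left _ _, min_le_right _ _⟩
  have w1 := hd.w1
  have w2 := hd.w2
  have wn : d.w0 ≠ 0 := norm_pos_iff.1 (by linarith)
  obtain ⟨u, cu2, u0, u1, u2⟩ : ∃ u : ℂ → ℂ, Continuous u ∧ (∀ ξ, ‖u ξ‖ < r) ∧
      (∀ ξ, ‖ξ‖ = 1 → d.w0 * u ξ = r * ξ) ∧ ∀ ξ, ‖ξ‖ = 1 → r / 2 ≤ ‖u ξ‖ := by
    have m : ∀ ξ : ℂ, 0 < max 1 ‖ξ‖ := fun ξ => by positivity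
    refine ⟨fun ξ => r / d.w0 * (ξ / (max 1 ‖ξ‖ : ℝ)), continuous_const.mul (continuous_id.div
      (by fun_prop) fun ξ => ofReal_ne_zero.2 (m ξ).ne'), fun ξ => ?_, fun ξ h => ?_, fun ξ h => ?_⟩
    · rw [norm_mul, norm_div, norm_div, norm_real, norm_real, Real.norm_of_nonneg r0.le,
        Real.norm_of_nonneg (m ξ).le]
      exact (mul_le_of_le_one_right (by positivity) ((div_le_one (m ξ)).2 (le_max_right _ _))).trans_lt
        (div_lt_self r0 (by linarith))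
    · simp only [h, max_self, ofReal_one]; field_simp
    · simp only [h, max_self, ofReal_one, div_one, norm_mul, norm_div, norm_real, mul_one,
        Real.norm_of_nonneg r0.le]
      gcongr; linarith
  have ok := fun ξ => st_ok hd hμ ((u0 ξ).le.trans r2)
  have cγ : ∀ z, Continuous fun t => Φ t z := fun z => c1.comp (Continuous.prodMk_left z)
  have tp := fun ξ (h : 0 < ‖u ξ‖) t (ht : 0 ≤ t) => trap hd hμ (c2.comp (cγ _)) (fun t => b0 _)
    (hf _ (ok ξ).1) (fun t h1 h2 => b1 _ ⟨h1, h2⟩) (by rw [f0]; linarith [(ok ξ).2.2.1])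
    (by rw [f0]; exact (ok ξ).2.1) (by rw [f0]; exact (ok ξ).2.2.2) ht
  simp only [f0] at tp
  obtain ⟨T, T1, T2⟩ : ∃ T : ℝ, 1 ≤ T ∧ 1 ≤ 47 / 50000 * (r / 4) ^ 2 * T :=
    ⟨max 1 (47 / 50000 * (r / 4) ^ 2)⁻¹, le_max_left _ _,
      (inv_le_iff_one_le_mul₀' (by positivity)).1 (le_max_right _ _)⟩
  have ns : ∀ z, ‖d.sh μ z‖ = ‖d.w0‖ * d.rr μ z := fun z => norm_mul _ _
  have e2 : ∀ z, ev d.Z2 (d.xx μ z) = d.uu μ false z + ev d.F2 (d.xx μ z) := fun z => by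
    simp only [Z2, ev_cons, Tm.val, xx, pt4]; push_cast; ring
  have cX : Continuous fun p : ℂ × ℝ => Φ p.2 (d.st μ (u p.1)) :=
    c1.comp (continuous_snd.prodMk (cs.comp (cu2.comp continuous_fst)))
  refine ⟨fun ξ => Φ T (d.st μ (u ξ)), cX.comp (Continuous.prodMk_left T),
    fun ξ => (Uo.inv hd hμ (hf _ (ok ξ).1 T).1).1, ?_, fun ξ h1 h2 => ?_⟩
  · have := ess_base (H := fun p => d.w0 * (d.uu μ false (Φ p.2 (d.st μ (u p.1)))
      + (min p.2 1 : ℝ) * ev d.F2 (d.xx μ (Φ p.2 (d.st μ (u p.1))))))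
      (continuous_const.mul (((cu _).comp cX).add ((by fun_prop : Continuous fun p : ℂ × ℝ =>
        ((min p.2 1 : ℝ) : ℂ)).mul ((ev_cont _).comp (xx_cont.comp cX))))) (T := fun _ => T)
      continuous_const (fun _ => by linarith) r0 (fun ξ h => by simp [f0, st_uu hd hμ, u1 ξ h])
      fun ξ h => ?_
    · simpa [min_eq_right T1, sh, e2] using this
    have p := u2 ξ h
    have q := (ok ξ).2.2.1
    refine ⟨fun t ht => mul_ne_zero wn fun h0 => ?_, ?_⟩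
    · obtain ⟨a1, a2, -⟩ := tp ξ (by linarith) t ht.1
      have V := (hf _ (ok ξ).1 t).1
      generalize Φ t (d.st μ (u ξ)) = z at *
      have a3 : ‖ev d.Z2 (d.xx μ z) - d.uu μ false z‖ ≤ _ := (hd.st (Uo.p V) _ _ rfl).2.1
      have a4 := (Uo.st hd V a1.two).1
      have a5 : ev d.Z2 (d.xx μ z) = ((1 - min t 1 : ℝ) : ℂ) * (ev d.Z2 (d.xx μ z) - d.uu μ false z) := by
        rw [e2]; push_cast; linear_combination h0
      have a6 := congrArg norm a5
      have m0 : 0 ≤ min t 1 := le_min ht.1 zero_le_one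
      rw [norm_mul, norm_real, Real.norm_of_nonneg (sub_nonneg.2 (min_le_right _ _)), ← rr] at a6
      have a7 := mul_le_mul (show 1 - min t 1 ≤ 1 by linarith) a3 (norm_nonneg _) zero_le_one
      have a8 := mul_le_mul_of_nonneg_left (Uo.p V).t1 (Uo.p V).t0
      linarith
    · simp only [min_eq_right T1, ofReal_one, one_mul, ← e2]
      obtain ⟨-, a2, -, -, a3⟩ := tp ξ (by linarith) T (by linarith)
      rw [norm_mul, ← rr]
      by_contra hh
      have a4 : d.rr μ (Φ T (d.st μ (u ξ))) ≤ 81 / 100 := by nlinarith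
      have a5 := mul_le_mul_of_nonneg_right (pow_le_pow_left₀ (by positivity)
        (show r / 4 ≤ d.rr μ (d.st μ (u ξ)) by linarith) 2) (show 0 ≤ T by linarith)
      linarith [(a3 a4).2]
  · have p : 0 < ‖u ξ‖ := norm_pos_iff.2 fun h0 => h1 (by
      have g : GR μ (lag I) = 0 := by
        simp only [GR, lag, Kp, Sg, i_ff i_n1, i_ff i_n2, Prod.mk_eq_zero, I_re]
        push_cast
        exact ⟨by linear_combination -I_sq, by ring, by linear_combination -cL * I_sq⟩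
      have x := (ok ξ).1
      have a := (hd.st (Uo.p x) _ _ rfl).2.1
      simp only [h0, s0, fx _ g] at x ⊢
      have e := st_uu hd hμ 0
      simp only [Uo.p, P4.of, h0, e, pa_norm] at a
      rw [sh, xx, ← s0, e.1, e.2]
      simpa [wn] using a)
    obtain ⟨a1, a2, a3, a4, a5⟩ := tp ξ p T (by linarith)
    rw [ns] at h2
    refine ⟨⟨(hf _ (ok ξ).1 T).1, a1, a3, a4⟩, fun he => ⟨_, hδ (by
      simpa using (u0 ξ).trans_le r1 : u ξ ∈ _), ?_⟩⟩
    have := back hμ.ms (c2.comp (cγ _)) (by linarith : 0 ≤ T) (fun t => ⟨(Uo.inv hd hμ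
      (hf _ (ok ξ).1 t).1).1, (hf _ (ok ξ).1 t).2⟩) (fun t ht => by
        rw [(a5 (by nlinarith [norm_nonneg (ev d.Z2 (d.xx μ (Φ T (d.st μ (u ξ)))))])).1 t ht]
        exact one_pos) he
    rwa [f0] at this

end Dt

end Pool.Agent.Lib.MP_6e7c44_mp.RS
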