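import Pool.Agent.Lib.MP_6e7c44_mp.RS.Main

/-! Reduction of the theorem to the normalised Lagrange state. -/

set_option autoImplicit false

open Set Complex Filter Topology

namespace Pool.Agent.Lib.MP_6e7c44_mp.RS

open LA

theorem near {μ : Fin 3 → ℝ} (h : Ms μ) (h1 : I0 μ = 16 / 675) (h2 : μ 2 ≤ 1 / 2 ^ 200) :
    phys (lag I) ∈ closure (Esc μ) := by
  have p2 := h.1 2
  have e : ((μ 0 - μ 1) / 2) ^ 2 = 611 / 2700 + μ 2 / 2 - 3 / 4 * μ 2 ^ 2 := by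
    unfold I0 at h1
    linear_combination (μ 0 + μ 1 + 1 + 3 * μ 2) / 4 * h.2 - h1
  have a1 : (548451795857644546 / 2 ^ 60 - 1 / 2 ^ 58 : ℝ) ^ 2 ≤ |(μ 0 - μ 1) / 2| ^ 2 := by
    rw [sq_abs]; nlinarith
  have a2 : |(μ 0 - μ 1) / 2| ^ 2 ≤ (548451795857644546 / 2 ^ 60 + 1 / 2 ^ 58 : ℝ) ^ 2 := by
    rw [sq_abs]; nlinarith
  have a3 := (abs_le_of_sq_le_sq' a1 (abs_nonneg _)).2
  have a4 := (abs_le_of_sq_le_sq' a2 (by positivity)).2
  rcases abs_cases ((μ 0 - μ 1) / 2) with k | k <;> rw [k.1] at a3 a4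
  · exact nearP ⟨h, h1, h2, by rw [wP, abs_le]; push_cast; constructor <;> linarith⟩
  · exact nearM ⟨h, h1, h2, by rw [wM, abs_le]; push_cast; constructor <;> linarith⟩

theorem final (m : Fin 3 → ℝ) (q v : ℝ → Fin 3 → ℂ) (hm : ∀ a, 0 < m a)
    (hres : 675 * (m 0 * m 1 + m 1 * m 2 + m 2 * m 0) = 16 * (m 0 + m 1 + m 2) ^ 2)
    (h2 : m 2 ≤ 1 / 2 ^ 200 * (m 0 + m 1))
    (hq : ∀ t a, HasDerivAt (fun s => q s a) (v t a) t)
    (hv : ∀ t a, HasDerivAt (fun s => v s a)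
      (∑ b ∈ Finset.univ.erase a, (m b / ‖q t b - q t a‖ ^ 3) • (q t b - q t a)) t)
    {r : ℝ} (r0 : 0 < r) (he : ∀ t a b, a ≠ b → ‖q t a - q t b‖ = r) :
    (q 0, v 0) ∈ closure (Esc m) := by
  obtain ⟨M, hM⟩ : ∃ M, M = m 0 + m 1 + m 2 := ⟨_, rfl⟩
  have m0 := hm 0
  have m1 := hm 1
  have m2 := hm 2
  have hM0 : 0 < M := by rw [hM]; positivity
  have e0 : ∀ t, ‖q t 1 - q t 0‖ = r := fun t => he t 1 0 (by decide)
  have n0 : ∀ t, q t 1 - q t 0 ≠ 0 := fun t => norm_pos_iff.1 (e0 t ▸ r0)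
  have e1 : ∀ t, ‖q t 2 - q t 0‖ = ‖q t 1 - q t 0‖ := fun t => by rw [e0, he t 2 0 (by decide)]
  have e2 : ∀ t, ‖q t 2 - q t 1‖ = ‖q t 1 - q t 0‖ := fun t => by rw [e0, he t 2 1 (by decide)]
  have hP : ∀ t, HasDerivAt (fun s => v s 1 - v s 0) (-(M * ff (q t 1 - q t 0))) t := fun t => by
    refine hd_congr ((hv t 1).sub (hv t 0)) (fun _ => rfl) ?_
    obtain ⟨b0, b1, -⟩ := bk_acc m (q t)
    have : _ = bkAcc m (q t) 1 - bkAcc m (q t) 0 := rfl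
    rw [← neg_sub (q t 1), ff_neg] at b1
    refine Eq.trans ?_ this.symm
    rw [b0, b1, hM]
    simp only [ff, e1, e2, Complex.real_smul]
    push_cast; ring
  have k0 : ∀ t, dot (q t 1 - q t 0) (v t 1 - v t 0) = 0 := fun t => by
    have := (i_nsq ((hq t 1).fun_sub (hq t 0))).unique
      (hd_congr (hasDerivAt_const t (r ^ 2)) (fun s => by rw [e0]) rfl)
    linarith
  have k1 := (hd_dot ((hq 0 1).fun_sub (hq 0 0)) (hP 0)).unique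
    (hd_congr (hasDerivAt_const (0 : ℝ) (0 : ℝ)) k0 rfl)
  have k2 := k0 0
  have hpos : ∀ t, q t 2 - q t 0 = (1 / 2 + cL) * (q t 1 - q t 0) ∨
      q t 2 - q t 0 = (1 / 2 - cL) * (q t 1 - q t 0) := fun t =>
    bk_apex (n0 t) (e1 t) (by rw [← e2]; congr 1; ring)
  obtain ⟨c1, c2⟩ := bk_cL
  have hne : 1 / 2 + cL ≠ 1 / 2 - cL := fun h => by
    have : cL = 0 := by linear_combination h / 2
    rw [this] at c1; norm_num at c1
  have hor : (q 0 2 - q 0 0 = (1 / 2 + cL) * (q 0 1 - q 0 0) ∧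
      v 0 2 - v 0 0 = (1 / 2 + cL) * (v 0 1 - v 0 0)) ∨
      (q 0 2 - q 0 0 = (1 / 2 - cL) * (q 0 1 - q 0 0) ∧
      v 0 2 - v 0 0 = (1 / 2 - cL) * (v 0 1 - v 0 0)) := by
    rcases hpos 0 with h | h
    · exact Or.inl ⟨h, bk_orient ((hq 0 1).sub (hq 0 0)) ((hq 0 2).sub (hq 0 0)) hpos h hne (n0 0)⟩
    · exact Or.inr ⟨h, bk_orient ((hq 0 1).sub (hq 0 0)) ((hq 0 2).sub (hq 0 0))
        (fun t => (hpos t).symm) h hne.symm (n0 0)⟩
  have x0 := n0 0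
  clear hP hpos e0 e1 e2 n0 he hv hq k0
  generalize q 0 = Q at *
  generalize v 0 = V at *
  obtain ⟨x, hx⟩ : ∃ x, x = Q 1 - Q 0 := ⟨_, rfl⟩
  rw [← hx] at k1 k2 hor x0
  have hr : 0 < ‖x‖ := norm_pos_iff.mpr x0
  obtain ⟨ω, hω, hω2⟩ : ∃ ω : ℝ, 0 < ω ∧ ω ^ 2 = M / ‖x‖ ^ 3 :=
    ⟨√(M / ‖x‖ ^ 3), by positivity, Real.sq_sqrt (by positivity)⟩
  have hωc : (ω : ℂ) ≠ 0 := by exact_mod_cast hω.ne'
  obtain ⟨η, hη⟩ : ∃ η : ℂ, V 1 - V 0 = ω * (x * η) := ⟨(V 1 - V 0) / (ω * x), by field_simp⟩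
  have η1 : η.re = 0 := by
    have : ω * ‖x‖ ^ 2 * η.re = 0 := by rw [← k2, hη, sq_norm']; simp [dot]; ring
    exact (mul_eq_zero.1 this).resolve_left (by positivity)
  have η2 : η = I ∨ η = -I := by
    have a1 : dot x (-(M * ff x)) = -(ω ^ 2 * ‖x‖ ^ 2) := by
      rw [hω2, sq_norm' x]; simp [dot, ff, -ofReal_inv, -ofReal_pow]; ring
    rw [a1, dot_self, hη, norm_mul, norm_mul, norm_real, Real.norm_of_nonneg hω.le] at k1
    have a2 : ‖η‖ ^ 2 = 1 := mul_left_cancel₀ (by positivity : ω ^ 2 * ‖x‖ ^ 2 ≠ 0) (by linarith)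
    rw [sq_norm', η1] at a2
    exact (sq_eq_sq_iff_eq_or_eq_neg.1 (show η.im ^ 2 = 1 ^ 2 by linarith)).imp
      (fun h => Complex.ext η1 h) fun h => Complex.ext (by simpa using η1) (by simpa using h)
  obtain ⟨n, hn⟩ : ∃ n : Fin 3 → ℝ, n = fun k => m k / M := ⟨_, rfl⟩
  have hmn : ∀ b, m b = ω ^ 2 * ‖x‖ ^ 3 * n b := fun b => by rw [hω2, hn]; field_simp
  have s2 : Equiv.swap (0 : Fin 3) 1 2 = 2 := by decide
  have M0 : Ms n ∧ I0 n = 16 / 675 ∧ n 2 ≤ 1 / 2 ^ 200 := by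
    rw [hn]
    refine ⟨⟨fun k => div_pos (hm k) hM0, by rw [hM]; field_simp⟩, ?_, ?_⟩
    · simp only [I0]
      field_simp
      rw [hM]; linarith
    · show m 2 / M ≤ _
      rw [div_le_iff₀ hM0]; linarith
  have M1 := near M0.1 M0.2.1 M0.2.2
  have M2 := near (μ := fun b => n (Equiv.swap 0 1 b)) ⟨fun k => M0.1.1 _, by
    simp only [s2, Equiv.swap_apply_left, Equiv.swap_apply_right]; linarith [M0.1.2]⟩ (by
      rw [← M0.2.1]
      simp only [I0, s2, Equiv.swap_apply_left, Equiv.swap_apply_right]; ring) (s2.symm ▸ M0.2.2)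
  have g1 : ∀ y : ℂ, ‖y‖ = ‖x‖ → ∀ z, ‖ContinuousLinearMap.mul ℝ ℂ y z‖ = ‖x‖ * ‖z‖ := by
    intro y h z; simp [h]
  have g2 : ∀ y : ℂ, ‖y‖ = ‖x‖ → ∀ z, ‖((ContinuousLinearMap.mul ℝ ℂ y).comp
      (Complex.conjCLE : ℂ →L[ℝ] ℂ)) z‖ = ‖x‖ * ‖z‖ := by
    intro y h z; simp [h]
  have c3 : (starRingEnd ℂ) 2 = 2 := map_ofNat _ 2
  rw [hη, sub_eq_iff_eq_add, sub_eq_iff_eq_add, sub_eq_iff_eq_add, sub_eq_iff_eq_add] at hor
  rw [sub_eq_iff_eq_add] at hη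
  replace hx : Q 1 = x + Q 0 := by rw [hx]; ring
  rcases hor with ⟨h0, h1⟩ | ⟨h0, h1⟩ <;> rcases η2.symm with rfl | rfl
  · have := bk_cl _ hr hω (g2 (-x) (norm_neg x)) (Equiv.swap 0 1) (Q 1) (V 1) (m' := m)
      (fun b => by simp [hmn b]) M2
    convert this using 2 <;> funext a <;> fin_cases a <;>
      simp [phys, lag, s2, c2, c3, h0, h1, hx, hη] <;> ring
  · have := bk_cl _ hr hω (g1 x rfl) 1 (Q 0) (V 0) (m' := m) hmn M1
    convert this using 2 <;> funext a <;> fin_cases a <;>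
      simp [phys, lag, h0, h1, hx, hη] <;> ring
  · have := bk_cl _ hr hω (g2 x rfl) 1 (Q 0) (V 0) (m' := m) hmn M1
    convert this using 2 <;> funext a <;> fin_cases a <;>
      simp [phys, lag, c2, c3, h0, h1, hx, hη] <;> ring
  · have := bk_cl _ hr hω (g1 (-x) (norm_neg x)) (Equiv.swap 0 1) (Q 1) (V 1) (m' := m)
      (fun b => by simp [hmn b]) M2
    convert this using 2 <;> funext a <;> fin_cases a <;>
      simp [phys, lag, s2, h0, h1, hx, hη] <;> ring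

end Pool.Agent.Lib.MP_6e7c44_mp.RS
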