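import Pool.Agent.Lib.MP_6e7c44_mp.RS.Defs
import Pool.Agent.Lib.MP_6e7c44_mp.LA.TM

/-!
Polynomial models in four complex variables, truncated at total degree eleven and stored as their
value at a power of two.
-/

set_option autoImplicit false

open Finset

namespace Pool.Agent.Lib.MP_6e7c44_mp.RS

open LA

def hMd : ℕ := Nat.pow 2 (160 * 20736)
def hMk : ℕ := Nat.sub hMd 1
def hX1 : ℕ := Nat.sub (Nat.pow 2 160) 1
def hOn : ℕ := Nat.div hMk hX1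
def hY : ℕ := Nat.pow 2 (160 * 1728)
def hYw : ℕ := Nat.sub hY 32
def hM (c : ℕ) : ℕ := Nat.mul hOn (Nat.sub (Nat.pow 2 c) 1)

/-- Value, coefficient bound, weighted coefficient bound, error bound. -/
structure RT where
  v : ℕ
  b : ℕ
  w : ℕ
  r : ℕ

namespace RT
def add (p q : RT) : RT := ⟨Nat.add p.v q.v, Nat.add p.b q.b, Nat.add p.w q.w, Nat.add p.r q.r⟩
def neg (p : RT) : RT := ⟨Nat.sub hMd (Nat.land p.v hMk), p.b, p.w, p.r⟩
def smul (a : ℕ) (p : RT) : RT := ⟨Nat.mul a p.v, Nat.mul a p.b, Nat.mul a p.w, Nat.mul a p.r⟩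
def err (a : ℕ) (p : RT) : RT := ⟨p.v, p.b, p.w, Nat.add p.r a⟩
def mul (p q : RT) : RT := ⟨Nat.land (Nat.mul p.v q.v) hMk, Nat.mul p.b q.b, Nat.mul p.w q.w,
  Nat.add (Nat.add (Nat.mul p.b q.r) (Nat.mul p.r (Nat.add q.b q.r)))
    (Nat.add (Nat.shiftRight (Nat.mul p.w q.w) 60) 1)⟩
def bd (p : RT) : ℕ := Nat.add p.b p.r
def tr4 (p : RT) (P N ρ : ℕ) : RT :=
  cond (Nat.beq (Nat.land (Nat.add p.v (Nat.shiftLeft N 64)) hMk) (Nat.add (Nat.shiftLeft P 64) ρ)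
      && Nat.ble p.b (Nat.pow 2 158))
    ⟨Nat.add P (Nat.sub hMd N), Nat.mod (Nat.add P N) hX1, Nat.mod (Nat.mod (Nat.add P N) hYw) hX1,
      Nat.add (Nat.shiftRight (Nat.add p.r (Nat.mod ρ hX1)) 64) 1⟩
    ⟨0, 0, 0, Nat.add (Nat.shiftRight p.bd 64) 1⟩
def tr3 (p : RT) (u sg fl sp : ℕ) : RT := tr4 p (Nat.land sp (hM 84))
  (Nat.land (Nat.sub (Nat.shiftLeft (Nat.sub hOn sg) 95) (Nat.sub fl sp)) (hM 84))
  (Nat.land u (hM 64))
def tr2 (p : RT) (u sg fl : ℕ) : RT := tr3 p u sg fl (Nat.land fl (Nat.mul sg hX1))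
def tr1 (p : RT) (u : ℕ) : RT :=
  tr2 p u (Nat.land (Nat.shiftRight u 159) hOn) (Nat.land (Nat.shiftRight u 64) (hM 95))
/-- Rounding: 64 binary places less. -/
def tr (p : RT) : RT := tr1 p (Nat.land (Nat.add p.v (Nat.shiftLeft hOn 159)) hMk)
end RT

/-- A point of the polydisc of radius `t`. -/
structure P4 where
  x : I4 → ℂ
  t : ℝ
  t0 : 0 ≤ t
  t1 : t ≤ 1
  hx : ∀ i, ‖x i‖ ≤ t

/-- The monomial of index `k`. -/
noncomputable def P4.φ (π : P4) (k : ℕ) : ℂ := π.x .i0 ^ (k % 12) * π.x .i1 ^ (k / 12 % 12)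
  * π.x .i2 ^ (k / 144 % 12) * π.x .i3 ^ (k / 1728 - (k % 12 + k / 12 % 12 + k / 144 % 12))

def idx (a b c d : ℕ) : ℕ := a + 12 * b + 144 * c + 1728 * (a + b + c + d)

/-- The index `k` belongs to a monomial of degree between `l` and eleven. -/
def Vd (l k : ℕ) : Prop := ∃ a b c d, k = idx a b c d ∧ l ≤ a + b + c + d ∧ a + b + c + d ≤ 11

noncomputable def sc (φ : ℕ → ℂ) (L : List (ℤ × ℕ)) : ℂ := (L.map fun u => (u.1 : ℂ) * φ u.2).sum
def nrw (L : List (ℤ × ℕ)) : ℕ := (L.map fun u => u.1.natAbs * 32 ^ (u.2 / 1728)).sum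

@[simp] lemma sc_nil (φ : ℕ → ℂ) : sc φ [] = 0 := rfl
@[simp] lemma nrw_nil : nrw [] = 0 := rfl
@[simp] lemma sc_cons (φ : ℕ → ℂ) (u : ℤ × ℕ) (L : List (ℤ × ℕ)) :
    sc φ (u :: L) = u.1 * φ u.2 + sc φ L := by simp [sc]
@[simp] lemma nrw_cons (u : ℤ × ℕ) (L : List (ℤ × ℕ)) :
    nrw (u :: L) = u.1.natAbs * 32 ^ (u.2 / 1728) + nrw L := by simp [nrw]
@[simp] lemma sc_app (φ : ℕ → ℂ) (L M : List (ℤ × ℕ)) : sc φ (L ++ M) = sc φ L + sc φ M := by
  simp [sc]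
@[simp] lemma nrw_app (L M : List (ℤ × ℕ)) : nrw (L ++ M) = nrw L + nrw M := by simp [nrw]

variable {π : P4} {l l' e f : ℕ}

lemma P4.mon_le (π : P4) (a b c d : ℕ) :
    ‖π.x .i0 ^ a * π.x .i1 ^ b * π.x .i2 ^ c * π.x .i3 ^ d‖ ≤ π.t ^ (a + b + c + d) := by
  have h := fun i n => pow_le_pow_left₀ (norm_nonneg _) (π.hx i) n
  have := π.t0
  simp only [norm_mul, norm_pow, pow_add]
  gcongr <;> exact π.hx _

lemma φ_idx {a b c d : ℕ} (h : a + b + c + d ≤ 11) :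
    π.φ (idx a b c d) = π.x .i0 ^ a * π.x .i1 ^ b * π.x .i2 ^ c * π.x .i3 ^ d ∧
      idx a b c d / 1728 = a + b + c + d := by
  have e1 : idx a b c d % 12 = a := by unfold idx; omega
  have e2 : idx a b c d / 12 % 12 = b := by
    rw [show idx a b c d / 12 = b + 12 * (c + 12 * (a + b + c + d)) by unfold idx; omega]; omega
  have e3 : idx a b c d / 144 % 12 = c := by
    rw [show idx a b c d / 144 = c + 12 * (a + b + c + d) by unfold idx; omega]; omega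
  have e4 : idx a b c d / 1728 = a + b + c + d := by unfold idx; omega
  exact ⟨by rw [P4.φ, e1, e2, e3, e4, Nat.add_sub_cancel_left], e4⟩

lemma φ_le {k : ℕ} (h : Vd l k) : ‖π.φ k‖ ≤ π.t ^ l := by
  obtain ⟨a, b, c, d, rfl, h1, h2⟩ := h
  rw [(φ_idx h2).1]
  exact (π.mon_le ..).trans (pow_le_pow_of_le_one π.t0 π.t1 h1)

lemma Vd.lt {k : ℕ} (h : Vd l k) : k < 20736 := by
  obtain ⟨a, b, c, d, rfl, h1, h2⟩ := h
  unfold idx; omega

lemma φ_add {j k : ℕ} (hj : Vd l j) (hk : Vd l' k) (h : j / 1728 + k / 1728 ≤ 11) :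
    π.φ (j + k) = π.φ j * π.φ k ∧ Vd (l + l') (j + k) ∧ (j + k) / 1728 = j / 1728 + k / 1728 := by
  obtain ⟨a, b, c, d, rfl, a1, a2⟩ := hj
  obtain ⟨a', b', c', d', rfl, b1, b2⟩ := hk
  have e : idx a b c d + idx a' b' c' d' = idx (a + a') (b + b') (c + c') (d + d') := by
    unfold idx; ring
  rw [(φ_idx (π := π) a2).2, (φ_idx (π := π) b2).2] at h ⊢
  have h3 : a + a' + (b + b') + (c + c') + (d + d') ≤ 11 := by omega
  rw [e, (φ_idx a2).1, (φ_idx b2).1, (φ_idx h3).1, (φ_idx (π := π) h3).2]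
  exact ⟨by ring, ⟨_, _, _, _, rfl, by omega, h3⟩, by ring⟩

lemma sc_le {L : List (ℤ × ℕ)} (h : ∀ u ∈ L, Vd l u.2) : ‖sc π.φ L‖ ≤ nrm L * π.t ^ l := by
  induction L with
  | nil => simp
  | cons u L ih =>
    rw [sc_cons, nrm_cons, Nat.cast_add, add_mul]
    refine norm_add_le_of_le ?_ (ih fun v hv => h v (List.mem_cons_of_mem _ hv))
    rw [norm_mul, Complex.norm_intCast, Nat.cast_natAbs, Int.cast_abs]
    exact mul_le_mul_of_nonneg_left (φ_le (h u List.mem_cons_self)) (abs_nonneg _)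

lemma pw_gen (a b : ℕ) : Nat.pow 2 (a * b) = (2 ^ a) ^ b := by rw [← pow_mul]; rfl
lemma md_eq : hMd = (2 ^ 160) ^ 20736 := pw_gen 160 20736
lemma md_cast : (hMd : ℤ) = ((2 ^ 160 : ℕ) : ℤ) ^ 20736 := by rw [md_eq, Nat.cast_pow]
lemma md_pos : 0 < hMd := by rw [md_eq]; exact Nat.pow_pos (Nat.pow_pos two_pos)
lemma land_gen (a n : ℕ) : Nat.land a (Nat.sub (Nat.pow 2 n) 1) = a % Nat.pow 2 n :=
  Nat.and_two_pow_sub_one_eq_mod a n
lemma land_mk (a : ℕ) : Nat.land a hMk = a % hMd := by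
  unfold hMk hMd; exact land_gen a _

lemma y_eq : hY = (2 ^ 160) ^ 1728 := pw_gen 160 1728

attribute [irreducible] hMd hY

lemma yw_eq : hYw = (2 ^ 160) ^ 1728 - 32 := by rw [← y_eq]; rfl
lemma mk_eq : hMk = hMd - 1 := rfl

attribute [irreducible] hMk hYw

lemma on_eq : hOn = hMk / (2 ^ 160 - 1) := rfl

attribute [irreducible] hOn

lemma land_eq (a : ℕ) : (hMd : ℤ) ∣ (Nat.land a hMk : ℕ) - (a : ℤ) := by
  rw [land_mk]; push_cast
  exact ⟨-(a / hMd), by rw [Int.emod_def]; ring⟩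

/-- The truncated product of a term and a list. -/
def lm1 (u : ℤ × ℕ) : List (ℤ × ℕ) → List (ℤ × ℕ)
  | [] => []
  | v :: M => if u.2 / 1728 + v.2 / 1728 ≤ 11 then (u.1 * v.1, u.2 + v.2) :: lm1 u M else lm1 u M

lemma lm1_ok {u : ℤ × ℕ} (hu : Vd l u.2) {M : List (ℤ × ℕ)} (hM : ∀ v ∈ M, Vd l' v.2) :
    (hMd : ℤ) ∣ evX (2 ^ 160 : ℕ) (lm1 u M) - u.1 * (2 ^ 160 : ℕ) ^ u.2 * evX (2 ^ 160 : ℕ) M ∧
    (∀ v ∈ lm1 u M, Vd (l + l') v.2) ∧ nrm (lm1 u M) ≤ u.1.natAbs * nrm M ∧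
    nrw (lm1 u M) ≤ u.1.natAbs * 32 ^ (u.2 / 1728) * nrw M ∧
    ‖u.1 * π.φ u.2 * sc π.φ M - sc π.φ (lm1 u M)‖ * 2 ^ 60
      ≤ (u.1.natAbs * 32 ^ (u.2 / 1728) * nrw M : ℕ) * π.t ^ (l + l') := by
  induction M with
  | nil => simp [lm1]
  | cons v M ih =>
    obtain ⟨a1, a2, a3, a4, a5⟩ := ih fun w hw => hM w (List.mem_cons_of_mem _ hw)
    have hv := hM v List.mem_cons_self
    have t0 := pow_nonneg π.t0 (l + l')
    rw [lm1]
    split_ifs with h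
    · obtain ⟨b1, b2, b3⟩ := φ_add (π := π) hu hv h
      refine ⟨dv a1 (by simp only [evX_cons]; ring), fun w hw => ?_, ?_, ?_, ?_⟩
      · rcases List.mem_cons.1 hw with rfl | hw
        exacts [b2, a2 w hw]
      · simp only [nrm_cons, Int.natAbs_mul]; nlinarith
      · simp only [nrw_cons, Int.natAbs_mul, b3, pow_add]; nlinarith
      · simp only [sc_cons, b1, nrw_cons, mul_add]
        refine le_trans (le_of_eq ?_) (a5.trans ?_)
        · congr 2; push_cast; ring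
        · gcongr; omega
    · have c1 : 20736 ≤ u.2 + v.2 := by omega
      have c2 : (32 : ℝ) ^ 12 ≤ 32 ^ (u.2 / 1728) * 32 ^ (v.2 / 1728) := by
        rw [← pow_add]; exact pow_le_pow_right₀ (by norm_num) (by omega)
      have c3 : (hMd : ℤ) ∣ ((2 ^ 160 : ℕ) : ℤ) ^ (u.2 + v.2) := by
        rw [md_cast]; exact pow_dvd_pow _ c1
      refine ⟨dv (a1.sub (c3.mul_left (u.1 * v.1))) (by simp only [evX_cons]; ring), a2,
        a3.trans (by simp [mul_add]), a4.trans (by simp [mul_add]), ?_⟩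
      have c4 : ‖(u.1 : ℂ) * π.φ u.2 * (v.1 * π.φ v.2)‖
          ≤ |(u.1 : ℝ)| * π.t ^ l * (|(v.1 : ℝ)| * π.t ^ l') := by
        have := φ_le (π := π) hu
        have := φ_le (π := π) hv
        have := π.t0
        simp only [norm_mul, Complex.norm_intCast]
        gcongr
      have c5 := norm_add_le ((u.1 : ℂ) * π.φ u.2 * (v.1 * π.φ v.2))
        (u.1 * π.φ u.2 * sc π.φ M - sc π.φ (lm1 u M))
      have c6 := mul_le_mul_of_nonneg_left c2 (mul_nonneg (mul_nonneg (abs_nonneg (u.1 : ℝ))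
        (abs_nonneg (v.1 : ℝ))) t0)
      rw [sc_cons, nrw_cons, mul_add, add_sub_assoc]
      push_cast at a5 ⊢
      simp only [Nat.cast_natAbs, Int.cast_abs, pow_add] at *
      linarith

/-- The truncated product of two lists. -/
def lm2 (L M : List (ℤ × ℕ)) : List (ℤ × ℕ) := L.flatMap fun u => lm1 u M

lemma lm2_ok {L M : List (ℤ × ℕ)} (hL : ∀ v ∈ L, Vd l v.2) (hM : ∀ v ∈ M, Vd l' v.2) :
    (hMd : ℤ) ∣ evX (2 ^ 160 : ℕ) (lm2 L M) - evX (2 ^ 160 : ℕ) L * evX (2 ^ 160 : ℕ) M ∧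
    (∀ v ∈ lm2 L M, Vd (l + l') v.2) ∧ nrm (lm2 L M) ≤ nrm L * nrm M ∧
    nrw (lm2 L M) ≤ nrw L * nrw M ∧
    ‖sc π.φ L * sc π.φ M - sc π.φ (lm2 L M)‖ * 2 ^ 60 ≤ (nrw L * nrw M : ℕ) * π.t ^ (l + l') := by
  induction L with
  | nil => simp [lm2]
  | cons u L ih =>
    obtain ⟨a1, a2, a3, a4, a5⟩ := ih fun w hw => hL w (List.mem_cons_of_mem _ hw)
    obtain ⟨b1, b2, b3, b4, b5⟩ := lm1_ok (π := π) (hL u List.mem_cons_self) hM
    rw [lm2, List.flatMap_cons, ← lm2]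
    refine ⟨dv (a1.add b1) (by simp only [evX_cons, evX_app]; ring),
      fun w hw => (List.mem_append.1 hw).elim (b2 w) (a2 w), ?_, ?_, ?_⟩
    · simp only [nrm_app, nrm_cons, add_mul]; omega
    · simp only [nrw_app, nrw_cons, add_mul]; omega
    · have c := norm_add_le (u.1 * π.φ u.2 * sc π.φ M - sc π.φ (lm1 u M))
        (sc π.φ L * sc π.φ M - sc π.φ (lm2 L M))
      rw [sc_cons, sc_app, nrw_cons, show (u.1 * π.φ u.2 + sc π.φ L) * sc π.φ M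
        - (sc π.φ (lm1 u M) + sc π.φ (lm2 L M)) = u.1 * π.φ u.2 * sc π.φ M - sc π.φ (lm1 u M)
        + (sc π.φ L * sc π.φ M - sc π.φ (lm2 L M)) by ring]
      push_cast at a5 b5 ⊢
      linarith

/-- `k` represents `z` with `e` binary places; all terms have order at least `l`. -/
def RR (π : P4) (e l : ℕ) (k : RT) (z : ℂ) : Prop :=
  ∃ L : List (ℤ × ℕ), (hMd : ℤ) ∣ evX (2 ^ 160 : ℕ) L - k.v ∧ (∀ u ∈ L, Vd l u.2) ∧ nrm L ≤ k.b ∧
    nrw L ≤ k.w ∧ ‖z * 2 ^ e - sc π.φ L‖ ≤ k.r * π.t ^ l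

lemma dsum {X n p c : ℕ} (g : ℕ → ℕ) (hg : ∀ j, g j ≤ c) (hX : 33 < X) (hp : 1 < p)
    (hn : n ≤ p * 12) (h : n * (c * 32 ^ 11) < X - 1) :
    (∑ j ∈ range n, g j * X ^ j) % (X - 1) = ∑ j ∈ range n, g j ∧
    (∑ j ∈ range n, g j * X ^ j) % (X ^ p - 32) % (X - 1) = ∑ j ∈ range n, g j * 32 ^ (j / p) := by
  have m1 : X ≡ 1 [MOD X - 1] := ((Nat.modEq_iff_dvd' (by omega)).2 dvd_rfl).symm
  have h1 : X ^ 1 ≤ X ^ (p - 1) := Nat.pow_le_pow_right (by omega) (by omega)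
  have h2 : X ^ p = X * X ^ (p - 1) := by rw [← pow_succ']; congr 1; omega
  rw [pow_one] at h1
  have m2 : X ^ p ≡ 32 [MOD X ^ p - 32] :=
    ((Nat.modEq_iff_dvd' (by nlinarith)).2 dvd_rfl).symm
  have b1 : ∀ j ∈ range n, g j * 32 ^ (j / p) ≤ c * 32 ^ 11 := fun j hj =>
    Nat.mul_le_mul (hg j) (Nat.pow_le_pow_right (by norm_num) (Nat.lt_succ_iff.1
      (Nat.div_lt_of_lt_mul ((mem_range.1 hj).trans_le hn))))
  have b2 : ∑ j ∈ range n, g j * 32 ^ (j / p) < X - 1 :=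
    (sum_le_card_nsmul _ _ _ b1).trans_lt (by simpa using h)
  have b3 : ∑ j ∈ range n, g j ≤ ∑ j ∈ range n, g j * 32 ^ (j / p) :=
    sum_le_sum fun j _ => Nat.le_mul_of_pos_right _ (by positivity)
  have s1 : ∀ (F : ℕ → ℕ) (k : ℕ → ℕ),
      ∑ j ∈ range n, F j * X ^ k j ≡ ∑ j ∈ range n, F j [MOD X - 1] := fun F k =>
    Nat.ModEq.sum fun j _ => by simpa using (m1.pow (k j)).mul_left (F j)
  refine ⟨Eq.trans (s1 g id) (Nat.mod_eq_of_lt (by omega)), ?_⟩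
  have s2 : ∑ j ∈ range n, g j * X ^ j
      ≡ ∑ j ∈ range n, g j * 32 ^ (j / p) * X ^ (j % p) [MOD X ^ p - 32] :=
    Nat.ModEq.sum fun j _ => by
      have := ((m2.pow (j / p)).mul_left (g j)).mul_right (X ^ (j % p))
      rwa [← pow_mul, mul_assoc, ← pow_add, Nat.div_add_mod] at this
  have b4 : ∑ j ∈ range n, g j * 32 ^ (j / p) * X ^ (j % p) < X ^ p - 32 := by
    have : ∑ j ∈ range n, g j * 32 ^ (j / p) * X ^ (j % p)
        ≤ (∑ j ∈ range n, g j * 32 ^ (j / p)) * X ^ (p - 1) := by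
      rw [sum_mul]
      exact sum_le_sum fun j _ => Nat.mul_le_mul_left _ (Nat.pow_le_pow_right (by omega)
        (by have := Nat.mod_lt j (show 0 < p by omega); omega))
    generalize ∑ j ∈ range n, g j * 32 ^ (j / p) = S at *
    have c1 : S * X ^ (p - 1) + 2 * X ^ (p - 1) ≤ X * X ^ (p - 1) := by
      rw [← add_mul]; exact Nat.mul_le_mul_right _ (by omega)
    omega
  rw [s2, Nat.mod_eq_of_lt b4, s1 (fun j => g j * 32 ^ (j / p)) (fun j => j % p),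
    Nat.mod_eq_of_lt b2]

lemma mkN_cst (B a k i : ℕ) : (2 ^ B - 1) * mkN B (fun _ => a) k i = ((2 ^ B) ^ k - 1) * a := by
  induction k generalizing i with
  | zero => simp [mkN]
  | succ k ih =>
    have h1 : 0 < 2 ^ B := by positivity
    have h2 : 0 < (2 ^ B) ^ k := by positivity
    rw [mkN_succ, mul_add, mul_left_comm, ih, pow_succ]
    obtain ⟨Y, hY⟩ : ∃ Y, 2 ^ B = Y + 1 := ⟨2 ^ B - 1, by omega⟩
    obtain ⟨Z, hZ⟩ : ∃ Z, (2 ^ B) ^ k = Z + 1 := ⟨(2 ^ B) ^ k - 1, by omega⟩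
    rw [hZ, hY, show (Z + 1) * (Y + 1) - 1 = Z * Y + Z + Y by rw [Nat.sub_eq_iff_eq_add] <;> nlinarith]
    simp only [Nat.add_sub_cancel]
    ring

lemma hM_eq (c : ℕ) : hM c = mkN 160 (fun _ => 2 ^ c - 1) 20736 0 := by
  have h1 := mkN_cst 160 1 20736 0
  have h2 := mkN_cst 160 (2 ^ c - 1) 20736 0
  rw [← md_eq, ← mk_eq] at h1 h2
  have h3 : hOn = mkN 160 (fun _ => 1) 20736 0 := by
    rw [on_eq, ← mul_one hMk, ← h1, Nat.mul_div_cancel_left _ (by norm_num)]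
  refine Nat.eq_of_mul_eq_mul_left (show 0 < 2 ^ 160 - 1 by norm_num) ?_
  rw [h2, hM, h3, Nat.mul_eq, ← mul_assoc, h1, mul_one]
  rfl

lemma land_hM {c : ℕ} (hc : c ≤ 160) (Q : ℕ) : ∃ g : ℕ → ℕ, (∀ j, g j < 2 ^ c) ∧
    Nat.land Q (hM c) = ∑ j ∈ range 20736, g j * (2 ^ 160) ^ j := by
  have p : 0 < 2 ^ c := by positivity
  obtain ⟨L, q, h1, -, -, -, -, h6⟩ := land_mkN 160 c (fun _ => 2 ^ c - 1) (fun _ => by omega) hc
    20736 0 Q
  refine ⟨fun j => Q / 2 ^ (160 * j) % 2 ^ 160 &&& (2 ^ c - 1),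
    fun j => Nat.and_le_right.trans_lt (by omega), ?_⟩
  have h7 := h6 fun j => ((2 ^ 160 : ℕ) : ℝ) ^ j
  have h8 : ∀ L : List (ℤ × ℕ), sem (fun j => ((2 ^ 160 : ℕ) : ℝ) ^ j) L
      = (evX (2 ^ 160 : ℕ) L : ℤ) := fun L => by
    induction L with
    | nil => simp
    | cons u L ih => rw [sem_cons, evX_cons, ih]; push_cast; ring
  rw [h8, h1, ← hM_eq, pow_zero, one_mul] at h7
  simp only [zero_add] at h7
  exact_mod_cast h7

lemma sum_flt {R : Type} [AddCommMonoid R] (F : ℤ × ℕ → R) (c : ℕ → ℤ) (hF : ∀ j, F (0, j) = 0)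
    (n : ℕ) : ((((List.range n).filter fun j => c j ≠ 0).map fun j => (c j, j)).map F).sum
      = ∑ j ∈ range n, F (c j, j) := by
  induction n with
  | zero => simp
  | succ n ih =>
    rw [List.range_succ, List.filter_append, List.map_append, List.map_append, List.sum_append, ih,
      sum_range_succ]
    by_cases h : c n = 0 <;> simp [h, hF]

lemma cf_vd {L : List (ℤ × ℕ)} (h : ∀ u ∈ L, Vd l u.2) {j : ℕ} (hj : ¬ Vd l j) : cf L j = 0 :=
  List.sum_eq_zero fun x hx => by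
    obtain ⟨u, hu, rfl⟩ := List.mem_map.1 hx
    exact if_neg fun e : u.2 = j => hj (e ▸ h u hu)

lemma le_sh (a s : ℕ) : (a : ℝ) ≤ (Nat.add (Nat.shiftRight a s) 1 : ℕ) * 2 ^ s := by
  rw [Nat.add_eq, Nat.shiftRight_eq, Nat.shiftRight_eq_div_pow]
  exact_mod_cast ((Nat.div_lt_iff_lt_mul (by positivity)).1 (Nat.lt_succ_self _)).le

namespace RR
variable {p q : RT} {a b : ℂ}

lemma congr (h : RR π e l p a) (h1 : a = b) : RR π e l p b := h1 ▸ h

lemma scale (h : RR π e l p a) (h1 : b * 2 ^ f = a * 2 ^ e) : RR π f l p b := by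
  obtain ⟨L, a1, a2, a3, a4, a5⟩ := h
  exact ⟨L, a1, a2, a3, a4, h1 ▸ a5⟩

lemma mono (h : RR π e l p a) (h1 : l' ≤ l) : RR π e l' p a := by
  obtain ⟨L, a1, a2, a3, a4, a5⟩ := h
  refine ⟨L, a1, fun u hu => ?_, a3, a4, a5.trans
    (mul_le_mul_of_nonneg_left (pow_le_pow_of_le_one π.t0 π.t1 h1) (Nat.cast_nonneg _))⟩
  obtain ⟨a, b, c, d, e1, e2, e3⟩ := a2 u hu
  exact ⟨a, b, c, d, e1, h1.trans e2, e3⟩

lemma add (hp : RR π e l p a) (hq : RR π e l q b) : RR π e l (p.add q) (a + b) := by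
  obtain ⟨L, a1, a2, a3, a4, a5⟩ := hp
  obtain ⟨M, b1, b2, b3, b4, b5⟩ := hq
  refine ⟨L ++ M, dv (a1.add b1) (by simp [RT.add]; ring),
    fun u hu => (List.mem_append.1 hu).elim (a2 u) (b2 u), by simpa [RT.add] using add_le_add a3 b3,
    by simpa [RT.add] using add_le_add a4 b4, ?_⟩
  refine le_of_eq_of_le (congrArg _ ?_) ((norm_add_le_of_le a5 b5).trans_eq ?_)
  · simp; ring
  · simp [RT.add, add_mul]

lemma lsm_ok (c : ℤ) (L : List (ℤ × ℕ)) :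
    nrw (lsm c 0 L) = c.natAbs * nrw L ∧ sc π.φ (lsm c 0 L) = c * sc π.φ L := by
  induction L with
  | nil => simp [lsm]
  | cons u L ih =>
    rw [lsm, List.map_cons, ← lsm, nrw_cons, sc_cons, ih.1, ih.2, nrw_cons, sc_cons, Int.natAbs_mul]
    simp only [zero_add]
    exact ⟨by ring, by push_cast; ring⟩

lemma vd_lsm (c : ℤ) {L : List (ℤ × ℕ)} (h : ∀ u ∈ L, Vd l u.2) : ∀ u ∈ lsm c 0 L, Vd l u.2 :=
  fun u hu => by
    obtain ⟨v, hv, rfl⟩ := List.mem_map.1 hu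
    simpa using h v hv

lemma neg (hp : RR π e l p a) : RR π e l p.neg (-a) := by
  obtain ⟨L, a1, a2, a3, a4, a5⟩ := hp
  have h2 : Nat.land p.v hMk ≤ hMd := by rw [land_mk]; exact (Nat.mod_lt _ md_pos).le
  refine ⟨lsm (-1) 0 L, ?_, vd_lsm _ a2, by simpa [nrm_lsm, RT.neg] using a3,
    by simpa [(lsm_ok (π := π) _ L).1, RT.neg] using a4, ?_⟩
  · refine dv ((a1.add (dvd_refl _)).sub (land_eq p.v)).neg_right ?_
    simp only [evX_lsm, RT.neg, Nat.sub_eq, Nat.cast_sub h2]; ring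
  · rw [(lsm_ok _ L).2, ← norm_neg]
    exact le_of_eq_of_le (congrArg _ (by push_cast; ring)) a5

lemma smul (n : ℕ) (hp : RR π e l p a) : RR π e l (p.smul n) (n * a) := by
  obtain ⟨L, a1, a2, a3, a4, a5⟩ := hp
  refine ⟨lsm n 0 L, dv (a1.mul_left n) (by simp only [evX_lsm, RT.smul, Nat.mul_eq]; push_cast; ring),
    vd_lsm _ a2, by simpa [nrm_lsm, RT.smul] using Nat.mul_le_mul_left n a3,
    by simpa [(lsm_ok (π := π) _ L).1, RT.smul] using Nat.mul_le_mul_left n a4, ?_⟩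
  rw [(lsm_ok _ L).2, show (n : ℂ) * a * 2 ^ e - (n : ℤ) * sc π.φ L = n * (a * 2 ^ e - sc π.φ L) by
    push_cast; ring, norm_mul, Complex.norm_natCast]
  simp only [RT.smul, Nat.mul_eq, Nat.cast_mul, mul_assoc]
  gcongr

lemma err {n : ℕ} (hp : RR π e l p a) (h : ‖b - a‖ * 2 ^ e ≤ n * π.t ^ l) :
    RR π e l (p.err n) b := by
  obtain ⟨L, a1, a2, a3, a4, a5⟩ := hp
  refine ⟨L, a1, a2, a3, a4, ?_⟩
  have := norm_add_le (a * 2 ^ e - sc π.φ L) ((b - a) * 2 ^ e)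
  rw [norm_mul, norm_pow, Complex.norm_two, show a * 2 ^ e - sc π.φ L + (b - a) * 2 ^ e
    = b * 2 ^ e - sc π.φ L by ring] at this
  simp only [RT.err, Nat.add_eq, Nat.cast_add]
  linarith

lemma le (hp : RR π e l p a) : ‖a‖ * 2 ^ e ≤ p.bd * π.t ^ l := by
  obtain ⟨L, -, a2, a3, -, a5⟩ := hp
  have h0 := (sc_le (π := π) a2).trans (mul_le_mul_of_nonneg_right (Nat.cast_le.2 a3)
    (pow_nonneg π.t0 l))
  have h1 := norm_add_le (a * 2 ^ e - sc π.φ L) (sc π.φ L)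
  rw [sub_add_cancel, norm_mul, norm_pow, Complex.norm_two] at h1
  simp only [RT.bd, Nat.add_eq, Nat.cast_add]
  linarith

lemma mul (hp : RR π e l p a) (hq : RR π f l' q b) : RR π (e + f) (l + l') (p.mul q) (a * b) := by
  have hb := hq.le
  obtain ⟨L, a1, a2, a3, a4, a5⟩ := hp
  obtain ⟨M, b1, b2, b3, b4, b5⟩ := hq
  obtain ⟨c1, c2, c3, c4, c5⟩ := lm2_ok (π := π) a2 b2
  refine ⟨lm2 L M, ?_, c2, c3.trans (Nat.mul_le_mul a3 b3), c4.trans (Nat.mul_le_mul a4 b4), ?_⟩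
  · refine dv (((c1.add (a1.mul_right (evX (2 ^ 160 : ℕ) M))).add (b1.mul_left p.v)).sub
      (land_eq (Nat.mul p.v q.v))) ?_
    simp only [RT.mul, Nat.mul_eq]; push_cast; ring
  have t0 := π.t0
  have h0 := (sc_le (π := π) a2).trans (mul_le_mul_of_nonneg_right (Nat.cast_le.2 a3)
    (pow_nonneg π.t0 l))
  have d1 : ‖sc π.φ L * (b * 2 ^ f - sc π.φ M)‖ ≤ p.b * π.t ^ l * (q.r * π.t ^ l') := by
    rw [norm_mul]; gcongr
  have d2 : ‖(a * 2 ^ e - sc π.φ L) * (b * 2 ^ f)‖ ≤ p.r * π.t ^ l * (q.bd * π.t ^ l') := by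
    rw [norm_mul, norm_mul, norm_pow, Complex.norm_two]; gcongr
  have d3 := mul_le_mul_of_nonneg_right (((Nat.cast_le (α := ℝ)).2 (Nat.mul_le_mul a4 b4)).trans
    (le_sh _ 60)) (pow_nonneg t0 (l + l'))
  have d4 := norm_add₃_le (a := sc π.φ L * (b * 2 ^ f - sc π.φ M))
    (b := (a * 2 ^ e - sc π.φ L) * (b * 2 ^ f)) (c := sc π.φ L * sc π.φ M - sc π.φ (lm2 L M))
  rw [show sc π.φ L * (b * 2 ^ f - sc π.φ M) + (a * 2 ^ e - sc π.φ L) * (b * 2 ^ f)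
    + (sc π.φ L * sc π.φ M - sc π.φ (lm2 L M)) = a * b * 2 ^ (e + f) - sc π.φ (lm2 L M) by ring] at d4
  simp only [RT.mul, RT.bd, Nat.mul_eq, Nat.add_eq, pow_add] at *
  push_cast at *
  linarith

lemma tr4 (hp : RR π (e + 64) l p a) (Q1 Q2 Q3 : ℕ) : RR π e l
    (p.tr4 (Nat.land Q1 (hM 84)) (Nat.land Q2 (hM 84)) (Nat.land Q3 (hM 64))) a := by
  have t0 := pow_nonneg π.t0 l
  have n2 : Nat.land Q2 (hM 84) ≤ hMd := by
    refine Nat.and_le_right.trans (le_trans ?_ ((Nat.div_mul_le_self hMk (2 ^ 160 - 1)).trans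
      (mk_eq ▸ Nat.sub_le _ _)))
    rw [← on_eq]
    exact Nat.mul_le_mul_left _ (by decide)
  obtain ⟨g1, a1, e1⟩ := land_hM (c := 84) (by decide) Q1
  obtain ⟨g2, a2, e2⟩ := land_hM (c := 84) (by decide) Q2
  obtain ⟨g3, a3, e3⟩ := land_hM (c := 64) (by decide) Q3
  have s1 := dsum (X := 2 ^ 160) (n := 20736) (p := 1728) (c := 2 ^ 85) (fun j => g1 j + g2 j)
    (fun j => by have := a1 j; have := a2 j; omega) (by decide) (by decide) (by decide) (by decide)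
  have s3 := (dsum (X := 2 ^ 160) (n := 20736) (p := 1728) (c := 2 ^ 85) g3
    (fun j => by have := a3 j; omega) (by decide) (by decide) (by decide) (by decide)).1
  simp only [add_mul, sum_add_distrib] at s1
  rw [← e1, ← e2, ← yw_eq] at s1
  rw [← e3] at s3
  generalize Nat.land Q1 (hM 84) = P, Nat.land Q2 (hM 84) = N, Nat.land Q3 (hM 64) = ρ at *
  rw [RT.tr4]
  cases hc : (Nat.beq (Nat.land (Nat.add p.v (Nat.shiftLeft N 64)) hMk)
    (Nat.add (Nat.shiftLeft P 64) ρ) && Nat.ble p.b (Nat.pow 2 158))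
  · refine ⟨[], by simp, by simp, by simp, by simp, ?_⟩
    have h1 := hp.le
    have h2 := mul_le_mul_of_nonneg_right (le_sh p.bd 64) t0
    simp only [cond_false, sc_nil, sub_zero, norm_mul, norm_pow, Complex.norm_two, pow_add] at h1 ⊢
    linarith
  obtain ⟨L, b1, b2, b3, -, b5⟩ := hp
  simp only [Bool.and_eq_true, Nat.beq_eq, Nat.ble_eq, Nat.pow_eq] at hc
  have c1 := land_eq (Nat.add p.v (Nat.shiftLeft N 64))
  rw [hc.1] at c1
  have c2 := sum_cf (fun j => ((2 ^ 160 : ℕ) : ℤ) ^ j) 20736 L fun u hu => (b2 u hu).lt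
  have c3 := sum_cf π.φ 20736 L fun u hu => (b2 u hu).lt
  have z := digits_zero (2 ^ 160) 20736 (fun j => cf L j - (2 ^ 64 * (g1 j - g2 j) + g3 j))
    (fun j => by
      have := (cf_le L j).trans (b3.trans hc.2)
      have := a1 j; have := a2 j; have := a3 j
      omega) (by
      rw [← md_cast]
      refine dv (b1.sub c1) ?_
      simp only [Int.cast_id] at c2
      simp only [evX, c2, Nat.add_eq, Nat.shiftLeft_eq', Nat.shiftLeft_eq, Nat.cast_add,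
        Nat.cast_mul, e1, e2, e3, Nat.cast_sum, Nat.cast_pow (2 ^ 160), sub_mul, add_mul, mul_sub,
        sum_sub_distrib, sum_add_distrib, mul_assoc, ← mul_sum]
      push_cast; ring)
  have z0 : ∀ j < 20736, ¬ Vd l j → (g1 j : ℤ) - g2 j = 0 ∧ g3 j = 0 := fun j hj hv => by
    have := z j hj
    rw [cf_vd b2 hv] at this
    have := a3 j
    omega
  have F := fun {R : Type} [AddCommMonoid R] (F : ℤ × ℕ → R) hF =>
    sum_flt F (fun j => (g1 j : ℤ) - g2 j) hF 20736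
  refine ⟨((List.range 20736).filter fun j => (g1 j : ℤ) - g2 j ≠ 0).map
    fun j => ((g1 j : ℤ) - g2 j, j), ?_, fun u hu => ?_, ?_, ?_, ?_⟩
  · rw [evX, F _ (by simp)]
    refine dv (dvd_refl _).neg_right ?_
    simp only [cond_true, Nat.add_eq, Nat.sub_eq, Nat.cast_add, Nat.cast_sub n2, sub_mul,
      sum_sub_distrib]
    rw [e1, e2]
    push_cast; ring
  · obtain ⟨j, hj, rfl⟩ := List.mem_map.1 hu
    rw [List.mem_filter, List.mem_range, decide_eq_true_eq] at hj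
    exact by_contra fun hv => hj.2 (z0 j hj.1 hv).1
  · rw [nrm, F _ (by simp)]
    refine le_of_le_of_eq ?_ s1.1.symm
    rw [← sum_add_distrib]
    exact sum_le_sum fun j _ => by simp only; omega
  · rw [nrw, F _ (by simp)]
    refine le_of_le_of_eq ?_ s1.2.symm
    rw [← sum_add_distrib]
    exact sum_le_sum fun j _ => by
      rw [← add_mul]; exact Nat.mul_le_mul_right _ (by simp only; omega)
  · rw [sc, F _ (by simp)]
    have d1 : ‖∑ j ∈ range 20736, (g3 j : ℂ) * π.φ j‖ ≤ (∑ j ∈ range 20736, g3 j : ℕ) * π.t ^ l := by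
      rw [Nat.cast_sum, sum_mul]
      refine norm_sum_le_of_le _ fun j hj => ?_
      by_cases hv : Vd l j
      · rw [norm_mul, Complex.norm_natCast]
        exact mul_le_mul_of_nonneg_left (φ_le hv) (Nat.cast_nonneg _)
      · simp [(z0 j (mem_range.1 hj) hv).2]
    have d2 : sc π.φ L = 2 ^ 64 * ∑ j ∈ range 20736, (((g1 j : ℤ) - g2 j : ℤ) : ℂ) * π.φ j
        + ∑ j ∈ range 20736, (g3 j : ℂ) * π.φ j := by
      rw [sc, c3, mul_sum, ← sum_add_distrib]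
      refine sum_congr rfl fun j hj => ?_
      rw [sub_eq_zero.1 (z j (mem_range.1 hj))]
      push_cast; ring
    have d3 := mul_le_mul_of_nonneg_right (le_sh (Nat.add p.r (Nat.mod ρ hX1)) 64) t0
    have d4 := norm_add_le_of_le b5 d1
    rw [d2, ← s3] at d4
    simp only [cond_true]
    generalize ∑ j ∈ range 20736, (((g1 j : ℤ) - g2 j : ℤ) : ℂ) * π.φ j = S,
      ∑ j ∈ range 20736, (g3 j : ℂ) * π.φ j = T at *
    rw [show a * 2 ^ (e + 64) - (2 ^ 64 * S + T) + T = (a * 2 ^ e - S) * 2 ^ 64 by ring, norm_mul,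
      norm_pow, Complex.norm_two] at d4
    have d5 : ((Nat.add p.r (Nat.mod ρ hX1) : ℕ) : ℝ) = p.r + (ρ % (2 ^ 160 - 1) : ℕ) :=
      Nat.cast_add _ _
    rw [d5] at d3
    linarith

lemma tr (hp : RR π (e + 64) l p a) : RR π e l p.tr a := hp.tr4 _ _ _

end RR

end Pool.Agent.Lib.MP_6e7c44_mp.RS
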