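import Pool.Agent.Lib.MP_6e7c44_mp.RS.StepB

/-! Soundness of the checker of tubes. -/

set_option autoImplicit false

open Set Filter Topology

noncomputable section

namespace Pool.Agent.Lib.MP_6e7c44_mp.RS

open LA

lemma diff_det {M : ℝ → Matrix I4 I4 ℝ} {x : ℝ}
    (h : ∀ i j, DifferentiableAt ℝ (fun s => M s i j) x) :
    DifferentiableAt ℝ (fun s => (M s).det) x := by
  simp only [Matrix.det_apply']
  exact DifferentiableAt.fun_sum fun σ _ =>
    (DifferentiableAt.fun_finsetProd fun i _ => h _ _).const_mul _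

lemma diff_inv {M : ℝ → Matrix I4 I4 ℝ} {x : ℝ}
    (h : ∀ i j, DifferentiableAt ℝ (fun s => M s i j) x) (h0 : (M x).det ≠ 0) (i j : I4) :
    DifferentiableAt ℝ (fun s => (M s)⁻¹ i j) x := by
  simp only [Matrix.inv_def, Ring.inverse_eq_inv', Matrix.smul_apply, smul_eq_mul,
    Matrix.adjugate_apply]
  refine ((diff_det h).inv h0).mul (diff_det fun k l => ?_)
  simp only [Matrix.updateRow_apply]
  split_ifs
  exacts [differentiableAt_const _, h _ _]

lemma boot {y : ℝ → I4 → ℝ} {R d : I4 → ℝ} (hc : ∀ j, ContinuousOn (fun s => y s j) (Icc (-1) 1))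
    (h0 : ∀ j, |y (-1) j| ≤ R j) (h1 : ∀ j, R j + d j < 1) (d0 : ∀ j, 0 ≤ d j)
    (hd : ∀ x ∈ Icc (-1 : ℝ) 1, (∀ j, |y x j| ≤ 1) → ∀ j, ∃ w, 2 * |w| ≤ d j ∧
      HasDerivAt (fun s => y s j) w x) :
    (∀ x ∈ Icc (-1 : ℝ) 1, ∀ j, |y x j| ≤ 1) ∧ ∀ j, |y 1 j - y (-1) j| ≤ d j := by
  have mv : ∀ t ∈ Icc (-1 : ℝ) 1, Icc (-1) t ⊆ {x | ∀ j, |y x j| ≤ 1} →
      ∀ j, |y t j - y (-1) j| ≤ d j := fun t ht hs j => by
    have a : ∀ x ∈ Icc (-1 : ℝ) t, ∃ w, 2 * |w| ≤ d j ∧ HasDerivAt (fun s => y s j) w x :=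
      fun x hx => hd x ⟨hx.1, hx.2.trans ht.2⟩ (hs hx) j
    choose! w w1 w2 using a
    have b := norm_image_sub_le_of_norm_deriv_le_segment' (C := d j / 2)
      (fun x hx => (w2 x hx).hasDerivWithinAt)
      (fun x hx => by rw [Real.norm_eq_abs]; linarith [w1 x (Ico_subset_Icc_self hx)]) t
      ⟨ht.1, le_rfl⟩
    rw [Real.norm_eq_abs] at b
    nlinarith [w1 t ⟨ht.1, le_rfl⟩, abs_nonneg (w t), ht.2]
  have key : Icc (-1 : ℝ) 1 ⊆ {x | ∀ j, |y x j| ≤ 1} := by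
    refine IsClosed.Icc_subset_of_forall_mem_nhdsGT_of_Icc_subset ?_
      (fun j => by linarith [h0 j, h1 j, d0 j]) fun t ht hs => ?_
    · have : Nonempty I4 := ⟨.i0⟩
      rw [inter_comm, ofPred_forall, inter_iInter]
      exact isClosed_iInter fun j => (hc j).abs.preimage_isClosed_of_isClosed isClosed_Icc
        (t := Iic 1) isClosed_Iic
    · refine eventually_all.2 fun j => ?_
      have a : |y t j| < 1 := by
        linarith [mv t (Ico_subset_Icc_self ht) hs j, h0 j, h1 j,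
          abs_sub_abs_le_abs_sub (y t j) (y (-1) j)]
      exact ((((hc j).abs t (Ico_subset_Icc_self ht)).mono_of_mem_nhdsWithin
        (Icc_mem_nhdsGT_of_mem ht)).eventually_lt_const a).mono fun _ h => h.le
  exact ⟨fun x hx => key hx, mv 1 ⟨by norm_num, le_rfl⟩ key⟩

namespace Raw
variable {r r' : Raw}

def yy (r : Raw) (x : ℝ) (z : I4 → ℝ) : I4 → ℝ := (r.As x)⁻¹.mulVec (z - r.xs x)

/-- The step described by the data. -/
def ss (r : Raw) : SS where
  h := r.hn / 128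
  yS j z := r.yy (-1) z j
  yE j z := r.yy 1 z j
  R j := r.R j / 2 ^ 24
  d j := r.d j / 2 ^ 24
  out z := Safe z ∧ ∀ i, |z i - r.xs 1 i| ≤ r.eb i / 2 ^ 72

lemma As_der (x : ℝ) (k j : I4) : HasDerivAt (fun s => r.As s k j) (r.dA x k j) x :=
  (pl_der _ _ _ x).div_const _

lemma xs_der (x : ℝ) (k : I4) : HasDerivAt (fun s => r.xs s k) (r.dx x k) x :=
  (pl_der _ _ _ x).div_const _

lemma yy_spec {x : ℝ} (h : (r.As x).det ≠ 0) (z : I4 → ℝ) :
    r.xs x + (r.As x).mulVec (r.yy x z) = z := by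
  rw [yy, Matrix.mulVec_mulVec, Matrix.mul_nonsing_inv _ (Ne.isUnit h), Matrix.one_mulVec,
    add_sub_cancel]

theorem ss_ok (h : r.ok = true) : r.ss.OK r.ma := by
  obtain ⟨hn, -, -, -, hi⟩ := ok_iff h
  have hp : (0 : ℝ) < r.hn := by exact_mod_cast hn
  refine ⟨by simp only [ss]; positivity, fun j => ?_, fun j => ?_, fun X hX τ hb => ?_⟩
  · have : (0 : ℝ) < r.R j := by exact_mod_cast (hi j).2.1
    exact div_pos this (by positivity)
  · simp only [ss, yy, Matrix.mulVec, dotProduct, Pi.sub_apply]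
    fun_prop
  have dt : ∀ x : ℝ, HasDerivAt (fun s : ℝ => τ + (s + 1) * (r.hn / 256)) (r.hn / 256) x :=
    fun x => by simpa using (((hasDerivAt_id x).add_const 1).mul_const (r.hn / 256 : ℝ)).const_add τ
  set T := fun s : ℝ => τ + (s + 1) * (r.hn / 256 : ℝ) with hT
  have cT : Continuous T := by fun_prop
  have e0 : T (-1) = τ := by simp [hT]
  have ab : ∀ x ∈ Icc (-1 : ℝ) 1, |x| ≤ 1 := fun x hx => abs_le.2 hx
  have di := fun x hx => diff_inv (fun k j => (r.As_der x k j).differentiableAt)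
    (det_ne h (ab x hx))
  have sf : ∀ x ∈ Icc (-1 : ℝ) 1, (∀ j, |r.yy x (X (T x)) j| ≤ 1) → Safe (X (T x)) :=
    fun x hx hy => yy_spec (det_ne h (ab x hx)) (X (T x)) ▸ safe (π := ⟨x, _, ab x hx, hy⟩) h
  obtain ⟨k1, k2⟩ := boot (y := fun x => r.yy x (X (T x))) (R := r.ss.R) (d := r.ss.d)
    (fun j x hx => by
      simp only [yy, Matrix.mulVec, dotProduct, Pi.sub_apply]
      refine ContinuousAt.continuousWithinAt (tendsto_finsetSum _ fun l _ => ?_)
      exact (di x hx j l).continuousAt.mul ((((continuous_apply l).comp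
        (hX.cont.comp cT)).continuousAt).sub (r.xs_der x l).continuousAt))
    (by rw [e0]; exact hb) (fun j => by
      have : (r.R j : ℝ) + r.d j < 2 ^ 24 := by exact_mod_cast (hi j).2.2.1
      simp only [ss]
      linarith) (fun j => div_nonneg (Nat.cast_nonneg _) (by positivity)) fun x hx hy j => by
    choose p p1 p2 using hX.der _ (sf x hx hy)
    have d1 : ∀ l, HasDerivAt (fun s => X (T s) l) ((f0 r.ma (X (T x)) l + p l) * (r.hn / 256)) x :=
      fun l => (p2 l).comp x (dt x)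
    have d2 : ∀ j, DifferentiableAt ℝ (fun s => r.yy s (X (T s)) j) x := fun j => by
      simp only [yy, Matrix.mulVec, dotProduct, Pi.sub_apply]
      exact DifferentiableAt.fun_sum fun l _ =>
        (di x hx j l).mul ((d1 l).sub (r.xs_der x l)).differentiableAt
    refine ⟨_, drift (π := ⟨x, _, ab x hx, hy⟩) (w := fun j => deriv
      (fun s => r.yy s (X (T s)) j) x) h p1 (fun l => ?_) j, (d2 j).hasDerivAt⟩
    have d3 := (r.xs_der x l).add (HasDerivAt.fun_sum (u := Finset.univ) fun j _ =>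
      (r.As_der x l j).mul (d2 j).hasDerivAt)
    have ev : ∀ᶠ s in 𝓝 x, (r.As s).det ≠ 0 :=
      (diff_det fun k j => (r.As_der x k j).differentiableAt).continuousAt.eventually_ne
        (det_ne h (ab x hx))
    have d4 := (d1 l).unique (d3.congr_of_eventuallyEq (ev.mono fun s hs =>
      (congrFun (yy_spec hs (X (T s))) l).symm))
    simp only [yy_spec (det_ne h (ab x hx))]
    simp only [Finset.sum_add_distrib] at d4
    simp only [Matrix.mulVec, dotProduct]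
    linarith
  have e1 : T 1 = τ + r.ss.h := by simp only [hT, ss]; ring
  have m1 : (1 : ℝ) ∈ Icc (-1 : ℝ) 1 := ⟨by norm_num, le_rfl⟩
  refine ⟨fun t ht => ?_, by rw [e0, e1] at k2; exact k2, e1 ▸ sf 1 m1 (k1 1 m1), fun i => ?_⟩
  · have m : (t - τ) / (r.hn / 256) - 1 ∈ Icc (-1 : ℝ) 1 := by
      have := ht.2
      simp only [ss] at this
      constructor
      · linarith [div_nonneg (sub_nonneg.2 ht.1) (show (0 : ℝ) ≤ r.hn / 256 by positivity)]
      · rw [sub_le_iff_le_add, div_le_iff₀ (by positivity)]; linarith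
    have := sf _ m (k1 _ m)
    rwa [show T ((t - τ) / (r.hn / 256) - 1) = t by simp only [hT]; field_simp; ring] at this
  · have a : _ ≤ (r.eb i : ℝ) := (r.rE (π := ⟨1, _, ab 1 m1, k1 1 m1⟩) i).le0
    have b := congrFun (yy_spec (det_ne h (ab 1 m1)) (X (T 1))) i
    rw [← e1, ← b, Pi.add_apply, add_sub_cancel_left, le_div_iff₀ (by positivity)]
    exact a

end Raw

lemma sP_eq (p P : ℕ) : (sP p P : ℝ)
    = ∑ k ∈ Finset.range 30, if cp p k then dg 192 63 P (30 * 0 + k) * 1 ^ k else 0 :=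
  (mod_msk cV (m := 5) (by decide) rfl (by decide) (by decide) _ _ P).trans (mv0 _ _ _ _ rfl)

lemma pl_one (P N : ℕ) : pl P N 0 1 = sP 0 P + sP 1 P - (sP 0 N + sP 1 N) := by
  simp [sP_eq, pl, cf', Finset.sum_range_succ, cp]; ring

lemma pl_neg (P N : ℕ) : pl P N 0 (-1) = sP 0 P + sP 1 N - (sP 0 N + sP 1 P) := by
  simp [sP_eq, pl, cf', Finset.sum_range_succ, cp]; ring

lemma lk_eq {a b P N P' N' : ℕ} (h : lk a b P N P' N' = true) :
    a * pl P N 0 1 = b * pl P' N' 0 (-1) := by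
  simp only [lk, Nat.beq_eq, Nat.add_eq, Nat.mul_eq] at h
  have := congrArg (Nat.cast : ℕ → ℝ) h
  push_cast at this
  rw [pl_one, pl_neg]
  linarith

lemma pl_sl (P N : ℕ) (j : I4) (x : ℝ) : pl (sl P j) (sl N j) 0 x = pl P N j.n x := by
  simp only [pl, cf', sl, Nat.mul_eq, dg_shift, mul_zero, zero_add]

lemma lkR_ok {c : Bool} {a b R d R' : ℕ} (a1 : (0 : ℝ) < a) (h : lkR c a b R d R' = true) :
    if c = true then (R' / 2 ^ 24 : ℝ) ≤ b / a * (R / 2 ^ 24 - d / 2 ^ 24)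
    else (b / a * (R / 2 ^ 24 + d / 2 ^ 24) : ℝ) ≤ R' / 2 ^ 24 := by
  cases c <;> simp only [lkR, cond_true, cond_false, Nat.ble_eq, Nat.add_eq, Nat.mul_eq] at h <;>
    have h2 := (Nat.cast_le (α := ℝ)).2 h <;> push_cast at h2
  · rw [if_neg (by simp), div_mul_eq_mul_div, div_le_iff₀ a1]; linarith
  · rw [if_pos rfl, div_mul_eq_mul_div, le_div_iff₀ a1]; linarith

theorem link_ok {r r' : Raw} (h : link r r' = true) : r.ss.Link r'.ss := by
  simp only [link, all4_iff, lkJ, lkA, Bool.and_eq_true, Nat.blt_eq, lkC] at h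
  set a := fun j => Nat.shiftLeft (r'.ro j) 8
  set b := fun j => Nat.shiftLeft (r.ro j) (r'.c j)
  have a0 : ∀ j, (0 : ℝ) < a j := fun j => by exact_mod_cast (h j).2.1
  have b0 : ∀ j, (0 : ℝ) < b j := fun j => by exact_mod_cast (h j).2.2.1
  have e1 : r'.xs (-1) = r.xs 1 := funext fun j => by
    have := lk_eq (h j).1
    rw [Nat.cast_one, one_mul, one_mul] at this
    rw [Raw.xs, Raw.xs, this]
  have e2 : r'.As (-1) = r.As 1 * Matrix.diagonal fun j => (a j / b j : ℝ) := by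
    ext k j
    have := lk_eq ((h j).2.2.2.2 k)
    simp only [pl_sl] at this
    simp only [Matrix.mul_diagonal, Raw.As, Matrix.of_apply]
    have := (b0 j).ne'
    field_simp
    linarith
  have e3 : (Matrix.diagonal fun j => (a j / b j : ℝ))⁻¹
      = Matrix.diagonal fun j => (b j / a j : ℝ) := Matrix.inv_eq_left_inv (by
    rw [Matrix.diagonal_mul_diagonal, ← Matrix.diagonal_one]
    exact congrArg _ (funext fun j => by
      have := (b0 j).ne'; have := (a0 j).ne'; field_simp))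
  intro j
  refine ⟨b j / a j, div_pos (b0 j) (a0 j), fun z => ?_, ?_⟩
  · simp only [Raw.ss, Raw.yy, e1, e2, Matrix.mul_inv_rev, e3, ← Matrix.mulVec_mulVec,
      Matrix.mulVec_diagonal]
  have e4 : isU j = true ↔ (j = .i0 ∨ j = .i1) := by cases j <;> simp [isU]
  simp only [← e4]
  exact lkR_ok (a0 j) (h j).2.2.2.1

/-- The packed step `D` is the start of a chain that ends in escape. -/
def Good (w D : ℕ) : Prop := ∃ l, Chain (w / 2 ^ 60) (unpack w D).ss l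

theorem seg_ok {w D' : ℕ} (h' : Good w D') (D : ℕ) (l : List ℕ) (h : seg w D' D l = true) :
    Good w D := by
  induction l generalizing D with
  | nil =>
    simp only [seg, Bool.and_eq_true] at h
    obtain ⟨l, hl⟩ := h'
    exact ⟨_ :: l, Raw.ss_ok h.1, link_ok h.2, hl⟩
  | cons E l ih =>
    simp only [seg, Bool.and_eq_true] at h
    obtain ⟨l, hl⟩ := ih E h.2.2
    exact ⟨_ :: l, Raw.ss_ok h.1, link_ok h.2.1, hl⟩

/-- The end of a step lies in the box with centre `c / 1024` and radius `1 / 1024`. -/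
def finI (r : Raw) (c : I4 → ℤ) (i : I4) : Bool :=
  Nat.ble (Nat.add (Int.natAbs (((Nat.add (sP 0 (r.xp i)) (sP 1 (r.xp i)) : ℕ)
    - (Nat.add (sP 0 (r.xn i)) (sP 1 (r.xn i)) : ℕ)) * 2 ^ 32 - c i * 2 ^ 62)) (r.eb i))
    (Nat.pow 2 62)
def fin (r : Raw) (c : I4 → ℤ) : Bool := r.ok && all4 (finI r c)

theorem fin_ok {w D : ℕ} {c : I4 → ℤ} (h : fin (unpack w D) c = true)
    (ho : ∀ z, Safe z → (∀ i, |z i - c i / 1024| ≤ 1 / 1024) → Out (w / 2 ^ 60) z) : Good w D := by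
  simp only [fin, Bool.and_eq_true, all4_iff] at h
  refine ⟨[], Raw.ss_ok h.1, fun z hz => ho z hz.1 fun i => ?_⟩
  have a := hz.2 i
  have b := h.2 i
  generalize unpack w D = r at *
  simp only [finI, Nat.ble_eq, Nat.add_eq, Nat.pow_eq] at b
  have b2 := (Nat.cast_le (α := ℝ)).2 b
  rw [Nat.cast_add, Nat.cast_natAbs] at b2
  push_cast at b2
  have e : (r.xs 1 i - c i / 1024) * 2 ^ 72 = ((sP 0 (r.xp i) : ℝ) + sP 1 (r.xp i)
      - (sP 0 (r.xn i) + sP 1 (r.xn i))) * 2 ^ 32 - c i * 2 ^ 62 := by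
    rw [Raw.xs, pl_one]; ring
  norm_num at e b2
  rw [← e, abs_mul, abs_of_pos (a := (4722366482869645213696 : ℝ)) (by norm_num)] at b2
  have := abs_sub_le (z i) (r.xs 1 i) (c i / 1024)
  linarith

/-- The escape criterion on a box. -/
lemma out_box {a : ℝ} {X z : I4 → ℝ} {ρ ζ c G b lo hi : ℝ} (hs : Safe z)
    (hz : ∀ i, |z i - X i| ≤ ρ) (a2 : 0 < ζ) (a3 : 0 < c) (a4 : 2 ≤ (c * ζ) ^ 2) (a5 : 1 / 2 ≤ G)
    (a6 : 0 ≤ b) (a7 : 1 / G + 1 / 800 ≤ b ^ 2 / 2)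
    (b1 : lo ^ 2 ≤ (X .i0 + (a - 1 / 2)) ^ 2 + X .i1 ^ 2)
    (b2 : (X .i0 + (a - 1 / 2)) ^ 2 + X .i1 ^ 2 ≤ hi ^ 2) (b3 : 0 ≤ hi)
    (b4 : G + (ζ ^ 2 / 3 + 2 / (3 * ζ)) + 1 / 2 ^ 20 + 2 * ρ ≤ lo)
    (b5 : (b + c + 1 / 2 ^ 20) * (hi + 2 * ρ) + |X .i0 + (a - 1 / 2)| * ρ + |X .i1| * ρ
      + (|X .i2| + ρ) * ρ + (|X .i3 + (a - 1 / 2)| + ρ) * ρ
      ≤ (X .i0 + (a - 1 / 2)) * X .i2 + X .i1 * (X .i3 + (a - 1 / 2))) : Out a z := by
  have r0 : 0 ≤ ρ := (abs_nonneg _).trans (hz .i0)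
  have n1 : ‖(yc z + (a - 1 / 2 : ℝ)) - (yc X + (a - 1 / 2 : ℝ))‖ ≤ 2 * ρ := by
    refine (abs_le_of_sq_le_sq' ?_ (by positivity)).2
    have h2 := abs_le.1 (hz .i0)
    have h3 := abs_le.1 (hz .i1)
    rw [add_sub_add_right_eq_sub, sq_norm']
    simp only [yc, Complex.sub_re, Complex.sub_im]
    nlinarith [sq_le_sq' h2.1 h2.2, sq_le_sq' h3.1 h3.2]
  have e : ‖yc X + (a - 1 / 2 : ℝ)‖ ^ 2 = (X .i0 + (a - 1 / 2)) ^ 2 + X .i1 ^ 2 := by
    rw [sq_norm']; simp [yc]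
  have n2 : lo ≤ ‖yc X + (a - 1 / 2 : ℝ)‖ :=
    (abs_le_of_sq_le_sq' (by rw [e]; exact b1) (norm_nonneg _)).2
  have n3 : ‖yc X + (a - 1 / 2 : ℝ)‖ ≤ hi := (abs_le_of_sq_le_sq' (by rw [e]; exact b2) b3).2
  have n4 := abs_le.1 ((abs_norm_sub_norm_le _ _).trans n1)
  refine ⟨hs, _, _, _, _, a2, a3, a4, a5, a6, a7, by linarith, ?_⟩
  have am : ∀ k x : ℝ, |x| ≤ ρ → -(|k| * ρ) ≤ k * x := fun k x hx => by
    have := mul_le_mul_of_nonneg_left hx (abs_nonneg k)
    rw [← abs_mul] at this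
    exact (abs_le.1 this).1
  have c0 : |z .i2| ≤ |X .i2| + ρ := by
    linarith [abs_sub_abs_le_abs_sub (z .i2) (X .i2), hz .i2]
  have c0' : |z .i3 + (a - 1 / 2)| ≤ |X .i3 + (a - 1 / 2)| + ρ := by
    have := abs_sub_abs_le_abs_sub (z .i3 + (a - 1 / 2)) (X .i3 + (a - 1 / 2))
    rw [add_sub_add_right_eq_sub] at this
    linarith [hz .i3]
  have c1 := am (X .i0 + (a - 1 / 2)) _ (hz .i2)
  have c2 := am (X .i1) _ (hz .i3)
  have c3 := am (z .i2) _ (hz .i0)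
  have c4 := am (z .i3 + (a - 1 / 2)) _ (hz .i1)
  have c5 := mul_le_mul_of_nonneg_left
    (show ‖yc z + (a - 1 / 2 : ℝ)‖ ≤ hi + 2 * ρ by linarith)
    (show 0 ≤ b + c + 1 / 2 ^ 20 by positivity)
  have c6 := mul_le_mul_of_nonneg_right c0 r0
  have c7 := mul_le_mul_of_nonneg_right c0' r0
  linarith

end Pool.Agent.Lib.MP_6e7c44_mp.RS
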