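import Pool.Agent.Lib.MP_6e7c44_mp.RS.Esc

/-! Chains of steps. -/

set_option autoImplicit false

open Set Complex Filter Topology

noncomputable section

namespace Pool.Agent.Lib.MP_6e7c44_mp.RS

open LA

variable {a : ℝ} {μ : Fin 3 → ℝ}

theorem yc_co (z : Z3) : yc (co z) = z.2.1 := rfl

theorem co_cont : Continuous co := continuous_pi fun i => by
  cases i <;> simp only [co] <;> fun_prop

theorem safe_nc {z : Z3} (h : Safe (co z)) : NC z :=
  ⟨norm_pos_iff.1 (lt_of_lt_of_le (by norm_num) h.2.1),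
    norm_pos_iff.1 (lt_of_lt_of_le (by norm_num) h.2.2)⟩

theorem safe_nrm {z : Z3} (h : Safe (co z)) : ‖z.2.1‖ ≤ 128 ∧ ‖z.2.2‖ ≤ 128 := by
  have h0 := h.1 .i0
  have h1 := h.1 .i1
  have h2 := h.1 .i2
  have h3 := h.1 .i3
  simp only [co] at h0 h1 h2 h3
  exact ⟨by linarith [norm_le_abs_re_add_abs_im z.2.1],
    by linarith [norm_le_abs_re_add_abs_im z.2.2]⟩

theorem safe_cpt : IsCompact {z : Z3 | Safe (co z) ∧ ‖z.1‖ ≤ 2} := by
  refine Metric.isCompact_of_isClosed_isBounded ?_ (isBounded_iff_forall_norm_le.2 ⟨128, ?_⟩)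
  · simp only [Safe, ofPred_and, ofPred_forall, yc_co]
    exact ((isClosed_iInter fun i => isClosed_le ((continuous_apply i).comp co_cont).abs
      continuous_const).inter ((isClosed_le continuous_const (by fun_prop)).inter
      (isClosed_le continuous_const (by fun_prop)))).inter
      (isClosed_le (by fun_prop) continuous_const)
  · intro z hz
    simp only [Prod.norm_def, max_le_iff]
    exact ⟨by linarith [hz.2], safe_nrm hz.1⟩

theorem traj (hμ : Mass a μ) {γ : ℝ → Z3} (cγ : Continuous γ) (hI : ∀ t, Iv μ (γ t))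
    (h : ∀ t, Safe (co (γ t)) → HasDerivAt γ (GR μ (γ t)) t) : Traj a fun t => co (γ t) := by
  refine ⟨co_cont.comp cγ, fun τ hs i => ?_⟩
  have d := h τ hs
  have d' := (ContinuousLinearMap.snd ℝ ℂ (ℂ × ℂ)).hasFDerivAt.comp_hasDerivAt τ d
  have d2 := (ContinuousLinearMap.fst ℝ ℂ ℂ).hasFDerivAt.comp_hasDerivAt τ d'
  have d3 := (ContinuousLinearMap.snd ℝ ℂ ℂ).hasFDerivAt.comp_hasDerivAt τ d'
  have z1 := safe_zeta hμ hs (hI τ)
  obtain ⟨nY, nW⟩ := safe_nrm hs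
  have s1 : ‖-(((γ τ).1 - I) * (γ τ).2.1)‖ ≤ 1 / 2 ^ 44 := by
    rw [norm_neg, norm_mul]
    exact (mul_le_mul z1 nY (norm_nonneg _) (by positivity)).trans (by norm_num)
  have s2 : ‖(3 / 2 * ((γ τ).1.re : ℂ) - ((γ τ).1 - I)) * (γ τ).2.2
      + ((μ 0 - μ 1) / 2 - (a - 1 / 2) : ℝ) * Sg (γ τ).2.1‖ ≤ 1 / 2 ^ 44 := by
    have h1 : ‖ff ((γ τ).2.1 + 1 / 2)‖ ≤ 1024 := ff_le hs.2.1
    have h2 : ‖ff ((γ τ).2.1 - 1 / 2)‖ ≤ 1024 := ff_le hs.2.2
    have h3 : ‖Sg (γ τ).2.1‖ ≤ 2049 := by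
      refine (norm_sub_le _ _).trans ?_
      have := norm_add_le (1 : ℂ) (ff ((γ τ).2.1 - 1 / 2))
      rw [norm_one] at this
      linarith
    have h4 : ‖3 / 2 * ((γ τ).1.re : ℂ) - ((γ τ).1 - I)‖ ≤ 3 / 2 ^ 70 := by
      refine (norm_sub_le _ _).trans ?_
      have := (abs_re_le_norm _).trans z1
      rw [sub_re, I_re, sub_zero] at this
      rw [norm_mul, norm_real, Real.norm_eq_abs, show ‖(3 / 2 : ℂ)‖ = 3 / 2 by simp]
      linarith
    refine (norm_add_le _ _).trans ?_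
    rw [norm_mul, norm_mul, norm_real, Real.norm_eq_abs]
    have h5 := mul_le_mul h4 nW (norm_nonneg _) (by positivity)
    have h6 := mul_le_mul hμ.cl h3 (norm_nonneg _) (by positivity)
    linarith
  cases i
  · refine ⟨_, (abs_re_le_norm _).trans s1,
      (reCLM.hasFDerivAt.comp_hasDerivAt τ d2).congr_deriv ?_⟩
    simp [GR, f0, co]; ring
  · refine ⟨_, (abs_im_le_norm _).trans s1,
      (imCLM.hasFDerivAt.comp_hasDerivAt τ d2).congr_deriv ?_⟩
    simp [GR, f0, co]; ring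
  · refine ⟨_, (abs_re_le_norm _).trans s2,
      (reCLM.hasFDerivAt.comp_hasDerivAt τ d3).congr_deriv ?_⟩
    simp [GR, f0, co, Fa, Sg, yc_co]; ring
  · refine ⟨_, (abs_im_le_norm _).trans s2,
      (imCLM.hasFDerivAt.comp_hasDerivAt τ d3).congr_deriv ?_⟩
    simp [GR, f0, co, Fa, Sg, yc_co]; ring

theorem exists_step (hμ : Mass a μ) : ∃ Φ : ℝ → Z3 → Z3,
    (∀ t, Continuous (Φ t)) ∧ ∀ z, NC z → (∀ t, NC (Φ t z)) ∧ ∀ s : SS, s.OK a → s.Box (co z) →
      Iv μ z → (∀ j, |s.yE j (co (Φ s.h z)) - s.yS j (co z)| ≤ s.d j) ∧ s.out (co (Φ s.h z)) ∧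
      Iv μ (Φ s.h z) ∧ (EscR μ (Φ s.h z) → EscR μ z) := by
  obtain ⟨Φ, β, c1, f0, c2, -, b1, hf⟩ :=
    cutoff_flow isOpen_NC safe_cpt (fun _ h => safe_nc h.1) (cd_GR μ)
  refine ⟨Φ, fun t => c1.comp (Continuous.prodMk_right t), fun z hz =>
    ⟨fun t => (hf z hz t).1, fun s hs hb hI => ?_⟩⟩
  have cγ : Continuous fun t => Φ t z := c1.comp (Continuous.prodMk_left z)
  have iv := iv_flow hμ.ms (c2.comp cγ) (hf z hz) (by rwa [f0])
  have b2 : ∀ t, Safe (co (Φ t z)) → β (Φ t z) = 1 := fun t ht => b1 _ ⟨ht, by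
    have := norm_sub_norm_le (Φ t z).1 I
    rw [norm_I] at this
    linarith [safe_zeta hμ ht (iv t)]⟩
  have := hs.step _ (traj hμ cγ iv fun t ht => by simpa [b2 t ht] using (hf z hz t).2) 0
    (by rwa [f0])
  rw [zero_add, f0] at this
  refine ⟨this.2.1, this.2.2, iv _, fun h => ?_⟩
  have := back hμ.ms (c2.comp cγ) hs.h0 (hf z hz) (fun t ht => by simp [b2 _ (this.1 t ht)]) h
  rwa [f0] at this

theorem Chain.ok {s : SS} {l : List SS} (h : Chain a s l) : s.OK a := by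
  cases l <;> exact h.1

theorem SS.cg {s : SS} (h : ∀ j, Continuous (s.yS j)) : Continuous s.g := by
  have h0 := h .i0
  have h1 := h .i1
  have : s.g = fun x => ((s.yS .i0 x / s.R .i0 : ℝ) : ℂ) + ((s.yS .i1 x / s.R .i1 : ℝ) : ℂ) * I :=
    funext fun x => by rw [SS.g, mk_eq_add_mul_I]
  rw [this]
  fun_prop

theorem chain_main (hμ : Mass a μ) {X : ℂ → Z3} (cX : Continuous X)
    (nX : ∀ ξ, NC (X ξ)) {A : Set ℂ} (hA : IsClosed A) {s : SS} {l : List SS}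
    (hc : Chain a s l) (he : Ess nM A fun ξ => s.g (co (X ξ)))
    (hb : ∀ ξ ∈ A, nM (s.g (co (X ξ))) ≤ 1 → s.Box (co (X ξ)) ∧ Iv μ (X ξ)) :
    ∃ ξ ∈ A, EscR μ (X ξ) := by
  obtain ⟨Φ, cΦ, hΦ⟩ := exists_step hμ
  have cN : Continuous nM := continuous_re.abs.max continuous_im.abs
  induction l generalizing s X A with
  | nil =>
    obtain ⟨ξ, hξ, h0⟩ := he _ ((SS.cg hc.ok.cS).comp (co_cont.comp cX)).continuousOn
      fun _ _ _ => rfl
    have hb' := hb ξ hξ (by simp only [Function.comp] at h0; simp [h0, nM])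
    obtain ⟨-, h2, h3, h4⟩ := (hΦ _ (nX ξ)).2 s hc.1 hb'.1 hb'.2
    exact ⟨ξ, hξ, h4 (escape hμ h3 (hc.2 _ h2))⟩
  | cons s' l ih =>
    obtain ⟨ok, lk, hc'⟩ := hc
    have cg := (SS.cg ok.cS).comp (co_cont.comp cX)
    have cX' := (cΦ s.h).comp cX
    have ok' := hc'.ok
    obtain ⟨ξ, hξ, h⟩ := ih (X := fun ξ => Φ s.h (X ξ)) cX' (fun ξ => (hΦ _ (nX ξ)).1 _)
      (hA.inter (isClosed_le (cN.comp cg) continuous_const)) hc'
      (ess_step cN (by simp [nM]) hA cg ((SS.cg ok'.cS).comp (co_cont.comp cX')) he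
        fun ξ hξ h1 => by
        obtain ⟨h2, -⟩ := (hΦ _ (nX ξ)).2 s ok (hb ξ hξ h1.le).1 (hb ξ hξ h1.le).2
        obtain ⟨k, k0, k1, k2⟩ := lk .i0
        obtain ⟨m, m0, m1, m2⟩ := lk .i1
        rw [if_pos (by simp)] at k2 m2
        rcases max_choice |(s.g (co (X ξ))).re| |(s.g (co (X ξ))).im| with e | e
        · have := link_ge k0 (ok.R0 _) (ok'.R0 _) (e.symm.trans h1) (h2 .i0) k2
          rw [← k1] at this
          exact ⟨this.1.trans (le_max_left _ _), fun t ht h0 =>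
            this.2 t ht (by simpa [SS.g] using congrArg re h0)⟩
        · have := link_ge m0 (ok.R0 _) (ok'.R0 _) (e.symm.trans h1) (h2 .i1) m2
          rw [← m1] at this
          exact ⟨this.1.trans (le_max_right _ _), fun t ht h0 =>
            this.2 t ht (by simpa [SS.g] using congrArg im h0)⟩)
      fun ξ hξ h1 => by
        have hb' := hb ξ hξ.1 hξ.2
        obtain ⟨h2, -, h3, -⟩ := (hΦ _ (nX ξ)).2 s ok hb'.1 hb'.2
        refine ⟨fun j => ?_, h3⟩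
        by_cases hj : j = .i0 ∨ j = .i1
        · have R0 := ok'.R0 j
          rw [← div_le_one R0, ← abs_of_pos R0, ← abs_div]
          rcases hj with rfl | rfl
          exacts [(le_max_left _ _).trans h1, (le_max_right _ _).trans h1]
        · obtain ⟨k, k0, k1, k2⟩ := lk j
          rw [if_neg (by simp [hj])] at k2
          rw [k1]
          exact link_le k0 (hb'.1 j) (h2 j) k2
    exact ⟨ξ, hξ.1, ((hΦ _ (nX ξ)).2 s ok (hb ξ hξ.1 hξ.2).1 (hb ξ hξ.1 hξ.2).2).2.2.2 h⟩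

end Pool.Agent.Lib.MP_6e7c44_mp.RS
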