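import Pool.Agent.Lib.MP_6e7c44_mp.RS.Fam
import Pool.Agent.Lib.MP_6e7c44_mp.RS.StepC
import Pool.Agent.Lib.MP_6e7c44_mp.RS.Tube

/-! From the trap into the first window of the tube. -/

set_option autoImplicit false

open Set Complex Filter Topology

namespace Pool.Agent.Lib.MP_6e7c44_mp.RS

open LA CB

/-- The data of the passage. -/
structure Ini where
  d : Dt
  r : Raw
  k : List ℤ
  p : ℕ
  q : ℕ

def pn (P N : ℕ) : ℤ := Int.subNatNat (Nat.add (sP 0 P) (sP 1 N)) (Nat.add (sP 0 N) (sP 1 P))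
def pB (a b : CB) : I4 → CB
  | .i0 => a
  | .i1 => a.cj
  | .i2 => b
  | .i3 => b.cj
def sB (f : I4 → CB) : CB := ((f .i0).add (f .i1)).add ((f .i2).add (f .i3))
def sN (k : I4 → CB) (n : I4 → ℕ) : ℕ := dn (s4 fun i => Nat.mul (k i).bd (n i)) 64
def bTg : I4 → CB
  | .i0 => rq 19 20
  | _ => ⟨0, 0, 0⟩
def un1 (k : CB) : Bool := Nat.ble (Nat.add (Nat.mul k.p.natAbs k.p.natAbs)
  (Nat.mul k.q.natAbs k.q.natAbs)) (Nat.pow 2 128)

namespace Ini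
variable (c : Ini)
def el (j : Bool) (s p : CB) : CB := (c.d.bb j).mul (((((bNu j).add (rq 1 1)).mul s).mi.add p).sub
  ((c.d.bKa j).mul ((((bNu j).sub (rq 1 1)).mul s.cj).mi.add p.cj)))
def xi (i : I4) : ℤ := pn (c.r.xp i) (c.r.xn i)
def ai (l k : I4) : ℤ := pn (sl (c.r.ap k) l) (sl (c.r.an k) l)
def bu (j : Bool) : CB := c.el j ((rat (c.xi .i0) (c.xi .i1) (2 ^ 40)).sub bC)
  ((rat (c.xi .i2) (c.xi .i3) (2 ^ 40)).sub bC.mi)
def T (j : Bool) (l : I4) : CB := c.el j (rat (c.ai l .i0) (c.ai l .i1) (2 ^ 72))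
  (rat (c.ai l .i2) (c.ai l .i3) (2 ^ 72))
def x : I4 → CB := pB (c.bu true).c0 (c.bu false).c0
def L : I4 → List Tm
  | .i2 => c.d.JJ
  | .i3 => c.d.XX
  | _ => c.d.Z2
def m : I4 → CB
  | .i0 => rat c.d.wp c.d.wq (2 ^ 32)
  | .i1 => (rat c.d.wp c.d.wq (2 ^ 32)).mi.neg
  | _ => rq 1 1
def P (i l : I4) : CB := ((c.m i).mul (sB fun k =>
  (evB c.x (der k (c.L i))).mul (pB (c.T true l) (c.T false l) k))).re
def D (i : I4) : CB := ((c.m i).mul (evB c.x (c.L i))).re.sub (bTg i)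
def e1 : ℕ := Nat.add (Nat.add (c.bu true).r (c.bu false).r) 1
def w : I4 → ℕ
  | .i0 => c.p
  | .i1 => c.q
  | .i2 => 72000000000000
  | .i3 => 272000000000000
def V (n : ℕ) (i : I4) : ℕ := Nat.add (c.w i) (Nat.add (c.D i).bd (dn (Nat.mul (c.m i).bd (Nat.add
  (Nat.mul (n2 (c.L i)) (Nat.mul n n)) (Nat.mul (Nat.mul (n1 (c.L i)) c.e1) (Nat.pow 2 65)))) 193))
def Ki (l i : I4) : ℤ := c.k.getD (Nat.add (Nat.mul 4 (ix l)) (ix i)) 0
def K (l i : I4) : CB := ⟨c.Ki l i, 0, 0⟩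
def E (l n : I4) : CB := (rq (if l = n then 1 else 0) 1).sub (sB fun i => (c.K l i).mul (c.P i n))
def er (n : ℕ) : ℕ := dn (s4 fun l => sN (c.K l) (c.V n)) 23
def B (n : ℕ) (l : I4) : ℕ := Nat.add (sN (c.K l) (c.V n)) (c.er n)
def n1' (n : ℕ) (j : Bool) : ℕ := Nat.add (sN (fun i => sB fun l => (c.T j l).mul (c.K l i)) (c.V n))
  (sN (c.T j) fun _ => c.er n)
def nx (n : ℕ) : ℕ := Nat.add (mx (c.n1' n true) (c.n1' n false)) c.e1
def it : ℕ → ℕ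
  | 0 => 660000000000000000
  | n + 1 => nx c (it n)
def okL (l : I4) : Bool := cond (isU l)
  (Nat.ble (Nat.mul (Nat.add (Nat.mul (c.r.R l) (Nat.pow 2 40)) (c.B (c.it 7) l)) (Nat.pow 2 64))
    (Nat.mul 2 (Nat.mul (c.Ki l l).toNat (c.w l))))
  (Nat.ble (c.B (c.it 7) l) (Nat.mul (c.r.R l) (Nat.pow 2 40)))
def ok : Bool := alB [un1 (c.bu true), un1 (c.bu false), Nat.blt 0 c.p, Nat.blt 0 c.q,
  Nat.ble c.p (Nat.pow 2 52), Nat.ble c.q (Nat.pow 2 52), Nat.ble (c.D .i0).bd (Nat.pow 2 44),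
  Nat.ble (c.D .i1).bd (Nat.pow 2 44), Nat.ble (((evB c.x c.d.Z1).mul ((evB c.x c.d.Z2).mul
    (evB c.x c.d.Z2))).sub (rq 439 1000).mi).bd (Nat.pow 2 56),
  al4 fun l => al4 fun n => Nat.ble (c.E l n).bd (Nat.pow 2 40), al4 c.okL]
end Ini

end Pool.Agent.Lib.MP_6e7c44_mp.RS
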