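import Pool.Agent.Lib.MP_6e7c44_mp.RS.Init

/-! Soundness of the passage into the tube. -/

set_option autoImplicit false

open Set Complex Filter Topology

noncomputable section

namespace Pool.Agent.Lib.MP_6e7c44_mp.RS

open LA CB

lemma pn_eq (P N : ℕ) : (pn P N : ℝ) = pl P N 0 (-1) := by
  rw [pl_neg, pn, Int.subNatNat_eq_coe]; simp

lemma in_mk {x y : ℝ} {a b : ℤ} {n : ℕ} (hx : x = a / 2 ^ n) (hy : y = b / 2 ^ n) :
    (rat a b (2 ^ n)).In ⟨x, y⟩ :=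
  (in_rat a b (by positivity)).congr (by rw [mk_eq_add_mul_I, hx, hy]; push_cast; ring)

lemma in_pB {a b : CB} {u w : ℂ} (ha : a.In u) (hb : b.In w) (i : I4) :
    (pB a b i).In (pt4 u w i) := by
  cases i
  exacts [ha, ha.cj, hb, hb.cj]

lemma in_sB {f : I4 → CB} {g : I4 → ℂ} (h : ∀ i, (f i).In (g i)) : (sB f).In (∑ i, g i) :=
  (((h _).add (h _)).add ((h _).add (h _))).congr (by rw [I4.sumC]; ring)

lemma dn_ge {x : ℝ} {a s : ℕ} (h : x * 2 ^ s ≤ a) : x ≤ dn a s :=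
  ((le_div_iff₀ (by positivity)).2 h).trans (le_dn a s)

lemma sN_le {k : I4 → CB} {a b : I4 → ℂ} {n : I4 → ℕ} (h : ∀ i, (k i).In (a i))
    (hb : ∀ i, ‖b i‖ * 2 ^ 64 ≤ n i) : (∑ i, ‖a i * b i‖) * 2 ^ 64 ≤ sN k n := by
  refine dn_ge ?_
  rw [s4_cast, Finset.sum_mul, Finset.sum_mul]
  refine Finset.sum_le_sum fun i _ => ?_
  rw [Nat.mul_eq, Nat.cast_mul, norm_mul]
  exact le_of_eq_of_le (by ring) (mul_le_mul (h i).le (hb i) (by positivity) (Nat.cast_nonneg _))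

lemma un1_le {k : CB} (h : un1 k = true) : ‖k.ce‖ ≤ 1 := by
  have := bl h
  refine (abs_le_of_sq_le_sq' ?_ zero_le_one).2
  simp only [ce, norm_div, div_pow, sq_norm', Nat.add_eq, Nat.mul_eq, Nat.cast_add,
    Nat.cast_mul, Nat.cast_natAbs, Int.cast_abs, abs_mul_abs_self] at this ⊢
  norm_num at this ⊢
  linarith

lemma link2 {y k b R D R' : ℝ} (R0 : 0 < R) (R1 : 0 < R') (h1 : |b / R| = 1)
    (h2 : |y - k * b| ≤ D) (h3 : R' + D ≤ k * R) :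
    1 ≤ |y / R'| ∧ ∀ t ∈ Icc (0 : ℝ) 1, (1 - t) * (b / R) + t * (y / R') ≠ 0 := by
  have k0 : 0 < k := pos_of_mul_pos_right (by linarith [abs_nonneg (y - k * b)] : 0 < R * k) R0.le
  have := link_ge k0 R0 R1 h1 (a := y / k) (d := D / k) (by
    rw [show y / k - b = (y - k * b) / k by field_simp, abs_div, abs_of_pos k0]; gcongr)
    (by rw [mul_sub, mul_div_cancel₀ _ k0.ne']; linarith)
  rwa [mul_div_cancel₀ _ k0.ne'] at this

namespace Ini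
variable (c : Ini) (μ : Fin 3 → ℝ)

def cT (j : Bool) (l : I4) : ℂ := c.d.b j * ell μ j ⟨c.r.As (-1) .i0 l, c.r.As (-1) .i1 l⟩
  ⟨c.r.As (-1) .i2 l, c.r.As (-1) .i3 l⟩
def cx : I4 → ℂ := pt4 (c.bu true).ce (c.bu false).ce
def cm : I4 → ℂ
  | .i0 => c.d.w0
  | .i1 => -(I * c.d.w0)
  | _ => 1
def tg : I4 → ℝ
  | .i0 => 19 / 20
  | _ => 0
def W (i : I4) (x : I4 → ℂ) : ℝ := (c.cm i * ev (c.L i) x).re - tg i
def cP (i l : I4) : ℝ := (c.cm i * dv4 (c.L i) c.cx (pt4 (c.cT μ true l) (c.cT μ false l))).re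
def cK (l i : I4) : ℝ := c.Ki l i / 2 ^ 64
def y (z : Z3) : I4 → ℝ := c.r.yy (-1) (co z)
def v (z : Z3) (i : I4) : ℝ := ∑ l, c.cP μ i l * c.y z l

variable {c μ} {z : Z3} (hμ : Mass (c.d.w / 2 ^ 60) μ)

lemma in_x (i : I4) : (c.x i).In (c.cx i) := in_pB (in_ce _) (in_ce _) i

lemma in_m (i : I4) : (c.m i).In (c.cm i) := by
  have a : (rat c.d.wp c.d.wq (2 ^ 32)).In c.d.w0 :=
    (in_rat _ _ (by norm_num)).congr (by norm_num [Dt.w0])
  have o : (rq 1 1).In 1 := (in_rq 1 1).congr (by simp)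
  cases i
  exacts [a, a.mi.neg, o, o]

lemma in_D (i : I4) : (c.D i).In (c.W i c.cx) := by
  have : (bTg i).In (tg i) := by
    cases i
    exacts [(in_rq 19 20).congr (by simp [tg]), by simp [bTg, In, tg], by simp [bTg, In, tg],
      by simp [bTg, In, tg]]
  exact (((in_m i).mul (evB_in in_x _)).re.sub this).congr (by simp only [W, ofReal_sub])

lemma in_K (l i : I4) : (c.K l i).In (c.cK l i) := by simp [In, K, cK]

include hμ

lemma in_el (j : Bool) {s p : CB} {a b : ℂ} (hs : s.In a) (hp : p.In b) :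
    (c.el j s p).In (c.d.b j * ell μ j a b) :=
  have o : (rq 1 1).In 1 := (in_rq 1 1).congr (by simp)
  (Dt.in_b j).mul (((((in_nu j).add o).mul hs).mi.add hp).sub ((Dt.in_ka hμ j).mul
    ((((in_nu j).sub o).mul hs.cj).mi.add hp.cj)))

lemma in_T (j : Bool) (l : I4) : (c.T j l).In (c.cT μ j l) :=
  have e : ∀ k, c.r.As (-1) k l = c.ai l k / 2 ^ 72 := fun k => by rw [ai, pn_eq, pl_sl]; rfl
  in_el hμ j (in_mk (e _) (e _)) (in_mk (e _) (e _))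

lemma in_P (i l : I4) : (c.P i l).In (c.cP μ i l) :=
  ((in_m i).mul (in_sB fun k => (evB_in in_x _).mul (in_pB (in_T hμ _ l) (in_T hμ _ l) k))).re

lemma e_le (hd : c.d.Fc) (hr : c.r.ok = true) (hζ : ‖z.1 - I‖ ≤ 1 / 2 ^ 80) (j : Bool) :
    ‖c.d.uu μ j z - (c.bu j).ce - ∑ l, c.cT μ j l * c.y z l‖ * 2 ^ 64 ≤ c.e1 := by
  have e : ∀ k, c.r.xs (-1) k = c.xi k / 2 ^ 40 := fun k => by rw [xi, pn_eq]; rfl
  have a1 : ‖_ - (c.bu j).ce‖ * _ ≤ ((c.bu j).r : ℝ) := (in_el hμ j ((in_mk (e .i0) (e .i1)).sub in_C)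
    ((in_mk (e .i2) (e .i3)).sub in_C.mi)).ce
  have hB := hd.hB j
  simp only [Dt.okB, Bool.and_eq_true] at hB
  have a2 := (Dt.in_b j).le' hB.1
  have a3 := ell_le j (by linarith [(Dt.in_ka hμ j).le' hB.2.1]) 0 (-(cL * (z.1 - I)))
  have a4 := mul_le_mul (show ‖cL‖ ≤ 1 by linarith [in_C.le' (n := 64) rfl]) hζ (norm_nonneg _)
    zero_le_one
  rw [norm_zero, norm_neg, norm_mul] at a3
  have a5 := mul_le_mul (show ‖c.d.b j‖ ≤ 2 ^ 11 by linarith) a3 (norm_nonneg _) (by positivity)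
  rw [← norm_mul] at a5
  have a6 := norm_add_le_of_le (le_refl ‖c.d.b j * ell μ j (⟨c.r.xs (-1) .i0, c.r.xs (-1) .i1⟩ - cL)
    (⟨c.r.xs (-1) .i2, c.r.xs (-1) .i3⟩ - I * cL) - (c.bu j).ce‖) a5
  have a7 : ((c.bu j).r : ℝ) + 1 ≤ c.e1 := by
    cases j <;> simp [e1]
  have s := fun k => congrFun (Raw.yy_spec (Raw.det_ne hr (x := -1) (by simp)) (co z)) k
  simp only [Pi.add_apply, Matrix.mulVec, dotProduct, I4.sum] at s
  have s1 : z.2.1 = ⟨co z .i0, co z .i1⟩ := rfl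
  have s2 : z.2.2 = ⟨co z .i2, co z .i3⟩ := rfl
  refine le_trans (mul_le_mul_of_nonneg_right (le_of_eq_of_le (congrArg _ ?_) a6) (by positivity))
    (by linarith)
  simp only [Dt.uu, sz, pz, s1, s2, ← s, cT, I4.sumC, y, ell, mk_eq_add_mul_I, map_add, map_mul,
    map_sub, map_neg, conj_ofReal, conj_I, ofReal_add, ofReal_mul, map_zero]
  ring

lemma v_le (hd : c.d.Fc) (hr : c.r.ok = true) (hz : c.d.Ex μ z) (u1 : un1 (c.bu true) = true)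
    (u2 : un1 (c.bu false) = true) (hw : ∀ i, |c.W i (c.d.xx μ z)| * 2 ^ 64 ≤ c.w i) {n : ℕ}
    (hn : ∀ j, ‖c.d.uu μ j z - (c.bu j).ce‖ * 2 ^ 64 ≤ n) (i : I4) :
    |c.v μ z i - c.W i (c.d.xx μ z)| * 2 ^ 64 + c.w i ≤ c.V n i ∧
      ‖(c.v μ z i : ℂ)‖ * 2 ^ 64 ≤ c.V n i := by
  have hx : ∀ i, ‖c.cx i‖ ≤ 1 := fun i => by
    cases i <;> simp [cx, pt4, un1_le u1, un1_le u2]
  have p : ∀ {a b : ℂ} {t : ℝ}, ‖a‖ * 2 ^ 64 ≤ t → ‖b‖ * 2 ^ 64 ≤ t → ∀ i, ‖pt4 a b i‖ ≤ t / 2 ^ 64 :=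
    fun h1 h2 i => by cases i <;> simp only [pt4, norm_conj] <;> linarith
  have e : (fun k => c.cx k + pt4 (c.d.uu μ true z - (c.bu true).ce)
      (c.d.uu μ false z - (c.bu false).ce) k) = c.d.xx μ z := funext fun k => by
    cases k <;> simp [cx, pt4, Dt.xx]
  have a1 := ev_sec (c.L i) hx (fun k => by
    rw [congrFun e k]; exact (hz.1.p.hx k).trans hz.1.p.t1) (p (hn true) (hn false))
  have a2 := dv4_le (c.L i) hx (p (e_le hμ hd hr hz.2.2.1 true) (e_le hμ hd hr hz.2.2.1 false))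
  rw [e] at a1
  have a3 := mul_le_mul (in_m (c := c) i).le (norm_add_le_of_le a1 a2) (norm_nonneg _) (Nat.cast_nonneg _)
  have a4 := (in_D (c := c) i).le
  rw [mul_right_comm, ← norm_mul] at a3
  rw [norm_real, Real.norm_eq_abs] at a4
  have a5 := (mul_le_mul_of_nonneg_right (abs_re_le_norm _) (by positivity)).trans a3
  have a6 := dn_ge (a := Nat.mul (c.m i).bd (Nat.add (Nat.mul (n2 (c.L i)) (Nat.mul n n))
    (Nat.mul (Nat.mul (n1 (c.L i)) c.e1) (Nat.pow 2 65)))) (s := 193)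
    ((mul_le_mul_of_nonneg_right a5 (by positivity)).trans_eq (by norm_num; ring))
  have a7 := abs_add_le (c.W i c.cx) (c.W i (c.d.xx μ z) - c.W i c.cx - c.v μ z i)
  have a8 : c.v μ z i = (c.cm i * ∑ l, dv4 (c.L i) c.cx (pt4 (c.cT μ true l) (c.cT μ false l))
      * c.y z l).re := by
    simp only [v, cP, I4.sum, I4.sumC, mul_add, add_re, ← mul_assoc, re_mul_ofReal]
  have b : |c.v μ z i - c.W i (c.d.xx μ z)| * 2 ^ 64 + c.w i ≤ c.V n i := by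
    rw [← add_sub_assoc, add_sub_cancel, abs_sub_comm] at a7
    replace a6 := le_of_eq_of_le (a := |c.W i (c.d.xx μ z) - c.W i c.cx - c.v μ z i| * 2 ^ 64) (by
      rw [a8, W, W, sub_sub_sub_cancel_right, ← sub_re, ← sub_re]
      simp only [dv4, I4.sumC, pt4, map_sub, map_add, map_mul, conj_ofReal]
      congr 3; ring) a6
    rw [V, Nat.add_eq, Nat.add_eq (x := (c.D i).bd), Nat.cast_add, Nat.cast_add]
    linarith
  refine ⟨b, ?_⟩
  rw [norm_real, Real.norm_eq_abs]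
  linarith [abs_sub_abs_le_abs_sub (c.v μ z i) (c.W i (c.d.xx μ z)), hw i]

lemma y_le (hE : ∀ l n, Nat.ble (c.E l n).bd (Nat.pow 2 40) = true) {n : ℕ}
    (hv : ∀ i, ‖(c.v μ z i : ℂ)‖ * 2 ^ 64 ≤ c.V n i) (l : I4) :
    ‖(c.y z l : ℂ) - ∑ i, (c.cK l i : ℂ) * c.v μ z i‖ * 2 ^ 64 ≤ c.er n := by
  have a : ∀ l, ‖(c.y z l : ℂ) - ∑ i, (c.cK l i : ℂ) * c.v μ z i‖
      ≤ (∑ m, ‖(c.y z m : ℂ)‖) / 2 ^ 24 := fun l => by
    have b := fun m => ((in_rq (if l = m then 1 else 0) 1).sub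
      (in_sB fun i => (in_K l i).mul (in_P hμ i m))).le' (hE l m)
    rw [Finset.sum_div]
    refine le_of_eq_of_le (congrArg _ ?_) (norm_sum_le_of_le _ (f := fun m =>
      (((if l = m then 1 else 0 : ℤ) : ℂ) / (1 : ℕ) - ∑ i, (c.cK l i : ℂ) * c.cP μ i m) * c.y z m)
      fun m _ => ?_)
    · cases l <;> simp [v, I4.sum, I4.sumC] <;> ring
    · rw [norm_mul]; nlinarith [b m, norm_nonneg (c.y z m : ℂ)]
  have b := fun l => sN_le (in_K (c := c) l) hv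
  have e := fun l => (norm_sub_norm_le _ _).trans (a l)
  have f := fun l => norm_sum_le Finset.univ fun i => (c.cK l i : ℂ) * c.v μ z i
  refine dn_ge ?_
  rw [s4_cast, I4.sum]
  rw [I4.sum] at a e
  linarith [a l, b .i0, b .i1, b .i2, b .i3, e .i0, e .i1, e .i2, e .i3, f .i0, f .i1, f .i2, f .i3,
    norm_nonneg (c.y z .i0 : ℂ), norm_nonneg (c.y z .i1 : ℂ), norm_nonneg (c.y z .i2 : ℂ),
    norm_nonneg (c.y z .i3 : ℂ)]

lemma nx_le (hd : c.d.Fc) (hr : c.r.ok = true) (hζ : ‖z.1 - I‖ ≤ 1 / 2 ^ 80)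
    (hE : ∀ l n, Nat.ble (c.E l n).bd (Nat.pow 2 40) = true) {n : ℕ}
    (hv : ∀ i, ‖(c.v μ z i : ℂ)‖ * 2 ^ 64 ≤ c.V n i) (j : Bool) :
    ‖c.d.uu μ j z - (c.bu j).ce‖ * 2 ^ 64 ≤ c.nx n := by
  have a1 := e_le hμ hd hr hζ j
  have a2 := sN_le (fun i => in_sB fun l => (in_T hμ j l).mul (in_K (c := c) l i)) hv
  have a3 := sN_le (in_T hμ j) (y_le hμ hE hv)
  have a4 := norm_add_le_of_le (norm_add_le_of_le (norm_sum_le Finset.univ fun i =>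
    (∑ l, c.cT μ j l * c.cK l i) * c.v μ z i) (norm_sum_le Finset.univ fun l => c.cT μ j l
    * (c.y z l - ∑ i, (c.cK l i : ℂ) * c.v μ z i)))
    (le_refl ‖c.d.uu μ j z - (c.bu j).ce - ∑ l, c.cT μ j l * c.y z l‖)
  have a5 : (c.n1' n j : ℝ) ≤ mx (c.n1' n true) (c.n1' n false) := by
    cases j
    exacts [Nat.cast_le.2 (le_mx _ _).2, Nat.cast_le.2 (le_mx _ _).1]
  rw [show ∀ a b e : ℂ, a + b + (e - ∑ l, c.cT μ j l * c.y z l) = e + (a + b - ∑ l, c.cT μ j l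
    * c.y z l) from fun _ _ _ => by ring, show _ - ∑ l, c.cT μ j l * c.y z l = 0 by
      simp only [I4.sumC]; ring, add_zero] at a4
  rw [n1', Nat.add_eq, Nat.cast_add] at a5
  rw [nx, Nat.add_eq, Nat.cast_add]
  linarith

omit hμ in
lemma sh_le {x : I4 → ℂ} {t : ℝ} (h0 : |c.W .i0 x| ≤ t) (h1 : |c.W .i1 x| ≤ t) :
    ‖c.d.w0 * ev c.d.Z2 x - 19 / 20‖ ≤ 2 * t := by
  have := norm_le_abs_re_add_abs_im (c.d.w0 * ev c.d.Z2 x - 19 / 20)
  rw [show (c.d.w0 * ev c.d.Z2 x - 19 / 20).re = c.W .i0 x by simp [W, cm, L, tg],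
    show (c.d.w0 * ev c.d.Z2 x - 19 / 20).im = c.W .i1 x by simp [W, cm, L, tg]] at this
  linarith

omit hμ in
lemma loc (hd : c.d.Fc) (hz : c.d.Ex μ z) (u1 : un1 (c.bu true) = true)
    (u2 : un1 (c.bu false) = true) (h0 : |c.W .i0 (c.d.xx μ z)| ≤ 1 / 2 ^ 12)
    (h1 : |c.W .i1 (c.d.xx μ z)| ≤ 1 / 2 ^ 12) (d0 : |c.W .i0 c.cx| ≤ 1 / 2 ^ 20)
    (d1 : |c.W .i1 c.cx| ≤ 1 / 2 ^ 20) (hA : ‖ev c.d.Z1 c.cx * (ev c.d.Z2 c.cx * ev c.d.Z2 c.cx)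
      - I * (439 / 1000)‖ ≤ 1 / 2 ^ 8) :
    c.d.rr μ z ≤ 1521 / 2000 ∧ ∀ j, ‖c.d.uu μ j z - (c.bu j).ce‖ ≤ 35 / 1000 := by
  have a1 := sh_le h0 h1
  have a2 := sh_le d0 d1
  have a3 := norm_sub_le_of_le a1 a2
  have a4 := abs_le.1 ((abs_norm_sub_norm_le _ _).trans a1)
  rw [sub_sub_sub_cancel_right, ← mul_sub, norm_mul] at a3
  rw [norm_mul, ← Dt.rr, show ‖(19 / 20 : ℂ)‖ = 19 / 20 by simp] at a4
  have w1 := hd.w1
  have w2 := hd.w2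
  have r0 : 0 ≤ c.d.rr μ z := norm_nonneg _
  have b1 : ‖ev c.d.Z2 (c.d.xx μ z) - ev c.d.Z2 c.cx‖ ≤ 1 / 2500 := by
    nlinarith [norm_nonneg (ev c.d.Z2 (c.d.xx μ z) - ev c.d.Z2 c.cx)]
  have b2 : c.d.rr μ z ≤ 1521 / 2000 := by nlinarith
  have b3 : 1519 / 2000 ≤ c.d.rr μ z := by nlinarith
  have b4 := pow_le_pow_left₀ r0 b2 3
  have b5 := pow_le_pow_left₀ (by norm_num) b3 3
  have b6 := pow_le_pow_left₀ (by norm_num) b3 2
  obtain ⟨-, -, c1, c2⟩ := hz.1.st hd hz.2.1.two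
  have c3 := norm_le_abs_re_add_abs_im (ev c.d.Z1 (c.d.xx μ z) * ev c.d.Z2 (c.d.xx μ z) ^ 2
    - I * (439 / 1000 : ℝ))
  rw [sub_re, sub_im, I_mul_re, I_mul_im, ofReal_re, ofReal_im, neg_zero, sub_zero] at c3
  have c4 := abs_sub_le (ev c.d.Z1 (c.d.xx μ z) * ev c.d.Z2 (c.d.xx μ z) ^ 2).im (c.d.rr μ z ^ 3)
    (439 / 1000)
  have c5 : |c.d.rr μ z ^ 3 - 439 / 1000| ≤ 9 / 10000 := abs_le.2 ⟨by linarith, by linarith⟩
  have e1 : ‖ev c.d.Z1 c.cx‖ ≤ 9 / 8 := by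
    have := (norm_sub_norm_le _ _).trans (hd.st (P4.of _ _ (un1_le u1) (un1_le u2)) _ _ rfl).1
    have := pow_le_one₀ (n := 2) (P4.of _ _ (un1_le u1) (un1_le u2)).t0 (P4.t1 _)
    linarith! [un1_le u1]
  have e2 : ‖ev c.d.Z2 (c.d.xx μ z) + ev c.d.Z2 c.cx‖ ≤ 153 / 100 := by
    have := norm_sub_norm_le (ev c.d.Z2 c.cx) (ev c.d.Z2 (c.d.xx μ z))
    rw [norm_sub_rev, ← Dt.rr] at this
    exact (norm_add_le _ _).trans (by rw [← Dt.rr]; linarith)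
  have e3 := mul_le_mul e1 (mul_le_mul b1 e2 (norm_nonneg _) (by norm_num)) (by positivity)
    (by norm_num)
  rw [← norm_mul, ← norm_mul] at e3
  have e4 := norm_sub_le_of_le (norm_sub_le_of_le c3 hA) e3
  rw [show ∀ a b a' b' : ℂ, a * b ^ 2 - I * (439 / 1000 : ℝ) - (a' * (b' * b') - I * (439 / 1000))
    - a' * ((b - b') * (b + b')) = (a - a') * b ^ 2 from fun _ _ _ _ => by push_cast; ring,
    norm_mul, norm_pow, ← Dt.rr] at e4
  have e5 : ‖ev c.d.Z1 (c.d.xx μ z) - ev c.d.Z1 c.cx‖ ≤ 26 / 1000 := by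
    nlinarith [norm_nonneg (ev c.d.Z1 (c.d.xx μ z) - ev c.d.Z1 c.cx)]
  have e : ∀ k, c.cx k + pt4 (c.d.uu μ true z - (c.bu true).ce)
      (c.d.uu μ false z - (c.bu false).ce) k = c.d.xx μ z k := fun k => by
    cases k <;> simp [cx, pt4, Dt.xx]
  obtain ⟨τ, hτ⟩ : ∃ τ, τ = max ‖c.d.uu μ true z - (c.bu true).ce‖
    ‖c.d.uu μ false z - (c.bu false).ce‖ := ⟨_, rfl⟩
  have t1 := hτ ▸ le_max_left _ _
  have t2 := hτ ▸ le_max_right _ _
  have lp : ∀ F, Nat.ble (n1 F) (Nat.pow 2 62) = true →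
      ‖ev F (c.d.xx μ z) - ev F c.cx‖ ≤ τ / 4 := fun F hF => by
    have := ev_lip F (x := c.cx) (fun i => by cases i <;> simp [cx, pt4, un1_le u1, un1_le u2])
      (fun k => by rw [e k]; exact (hz.1.p.hx k).trans hz.1.p.t1) (τ := τ)
      (fun i => by cases i <;> simp only [pt4, norm_conj] <;> assumption) ⟨zero_le_one, le_rfl⟩
    simp only [ofReal_one, one_mul, e] at this
    have h := mul_le_mul_of_nonneg_right (bl hF) ((norm_nonneg _).trans t1)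
    norm_num at h
    linarith
  have f1 := norm_sub_le_of_le e5 (lp _ hd.l1)
  have f2 := norm_sub_le_of_le b1 (lp _ hd.l2)
  rw [show _ - (ev c.d.F1 (c.d.xx μ z) - _) = c.d.uu μ true z - (c.bu true).ce by
    simp only [Dt.Z1, ev_cons, Tm.val, Dt.xx, cx, pt4]; push_cast; ring] at f1
  rw [show _ - (ev c.d.F2 (c.d.xx μ z) - _) = c.d.uu μ false z - (c.bu false).ce by
    simp only [Dt.Z2, ev_cons, Tm.val, Dt.xx, cx, pt4]; push_cast; ring] at f2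
  have f3 : τ ≤ 26 / 1000 + τ / 4 := hτ.trans_le (max_le f1 (by linarith))
  exact ⟨b2, fun j => by cases j <;> linarith⟩

end Ini

end Pool.Agent.Lib.MP_6e7c44_mp.RS
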