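import Pool.Agent.Lib.MP_6e7c44_mp.RS.InitB

/-! Escaping states near the Lagrange point. -/

set_option autoImplicit false

open Set Complex Filter Topology

noncomputable section

namespace Pool.Agent.Lib.MP_6e7c44_mp.RS

open LA CB

lemma cond_t {c a b : Bool} (h : cond c a b = true) :
    (c = true → a = true) ∧ (c = false → b = true) := by cases c <;> simp_all

lemma abs_div_le {a b : ℝ} (h : 0 < b) : (|a / b| ≤ 1 ↔ |a| ≤ b) ∧ (|a / b| < 1 ↔ |a| < b) := by
  rw [abs_div, abs_of_pos h]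
  exact ⟨div_le_one h, div_lt_one h⟩

namespace Ini
variable {c : Ini} {μ : Fin 3 → ℝ} {z : Z3} (hμ : Mass (c.d.w / 2 ^ 60) μ)
include hμ

lemma key (hd : c.d.Fc) (hr : c.r.ok = true) (hc : c.ok = true) (hz : c.d.Ex μ z)
    (h0 : |c.W .i0 (c.d.xx μ z)| * 2 ^ 64 ≤ c.p) (h1 : |c.W .i1 (c.d.xx μ z)| * 2 ^ 64 ≤ c.q)
    (l : I4) : if isU l then ∃ D, |c.y z l - c.cK l l * c.W l (c.d.xx μ z)| ≤ D ∧
      c.r.ss.R l + D ≤ c.cK l l * (c.w l / 2 ^ 64) else |c.y z l| ≤ c.r.ss.R l := by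
  simp only [ok, alB_cons, al4_iff] at hc
  obtain ⟨u1, u2, -, -, p1, q1, d0, d1, hA, hE, hL, -⟩ := hc
  have p2 : (c.p : ℝ) ≤ 2 ^ 52 := (bl p1).trans_eq (by norm_num)
  have q2 : (c.q : ℝ) ≤ 2 ^ 52 := (bl q1).trans_eq (by norm_num)
  have d2 := (in_D .i0).le' d0
  have d3 := (in_D .i1).le' d1
  have d4 := (((evB_in in_x _).mul ((evB_in in_x _).mul (evB_in in_x _))).sub
    (in_rq 439 1000).mi).le' hA
  rw [norm_real, Real.norm_eq_abs] at d2 d3
  norm_num at d4
  obtain ⟨a1, a2⟩ := loc hd hz u1 u2 (by linarith) (by linarith) (by linarith) (by linarith)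
    (by linarith)
  have hw : ∀ i, |c.W i (c.d.xx μ z)| * 2 ^ 64 ≤ c.w i := fun i => by
    have b1 := pow_le_pow_left₀ (norm_nonneg _) a1 2
    have b2 := pow_le_pow_left₀ (norm_nonneg _) a1 3
    have b3 := hz.2.1.1
    have b4 := hz.2.1.2.1
    cases i
    exacts [h0, h1, by simp only [W, cm, L, tg, w, one_mul, sub_zero]; push_cast; linarith,
      by simp only [W, cm, L, tg, w, one_mul, sub_zero]; push_cast; linarith]
  have hn : ∀ n j, ‖c.d.uu μ j z - (c.bu j).ce‖ * 2 ^ 64 ≤ c.it n := fun n => by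
    induction n with
    | zero => exact fun j => by rw [it]; push_cast; linarith [a2 j]
    | succ n ih => rw [it]; exact nx_le hμ hd hr hz.2.2.1 hE fun i => (v_le hμ hd hr hz u1 u2 hw ih i).2
  have hv := v_le hμ hd hr hz u1 u2 hw (hn 7)
  have b1 := y_le hμ hE (fun i => (hv i).2) l
  have b2 := cond_t (hL l)
  have R : c.r.ss.R l = c.r.R l / 2 ^ 24 := rfl
  generalize c.it 7 = n at *
  cases hU : isU l <;> [replace b2 := bl (b2.2 hU); replace b2 := bl (b2.1 hU)] <;>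
    simp only [B, Nat.mul_eq, Nat.add_eq, Nat.pow_eq, Nat.cast_add, Nat.cast_mul, Nat.cast_pow,
      Nat.cast_ofNat] at b2
  · have b3 := sN_le (in_K (c := c) l) fun i => (hv i).2
    have b4 := (norm_sub_norm_le _ _).trans' (le_refl (‖(c.y z l : ℂ)‖
      - ‖∑ i, (c.cK l i : ℂ) * c.v μ z i‖))
    have b5 := norm_sum_le Finset.univ fun i => (c.cK l i : ℂ) * c.v μ z i
    rw [norm_real, Real.norm_eq_abs] at b4
    rw [if_neg (by simp), R]
    linarith
  · rw [if_pos rfl]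
    have k0 : (c.Ki l l).toNat = c.cK l l * 2 ^ 64 := by
      have : 0 < (c.Ki l l).toNat := Nat.pos_of_ne_zero fun h => by
        have : (0 : ℝ) < c.r.R l := Nat.cast_pos.2 ((Raw.ok_iff hr).2.2.2.2 l).2.1
        rw [h, Nat.cast_zero, zero_mul, mul_zero] at b2
        exact b2.not_gt (by positivity)
      rw [cK, div_mul_cancel₀ _ (by positivity), ← Int.cast_natCast, Int.toNat_of_nonneg (by omega)]
    have k1 : 0 ≤ c.cK l l := by linarith [Nat.cast_nonneg (α := ℝ) (c.Ki l l).toNat]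
    have b3 := sN_le (in_K (c := c) l) (n := c.V n) (b := fun i => if i = l then
      (|c.v μ z l - c.W l (c.d.xx μ z)| + c.w l / 2 ^ 64 : ℝ) else c.v μ z i) fun i => by
        split_ifs with h
        · rw [norm_real, Real.norm_of_nonneg (by positivity), h]; linarith [(hv l).1]
        · exact (hv i).2
    have b4 : |∑ i, c.cK l i * c.v μ z i - c.cK l l * c.W l (c.d.xx μ z)|
        + c.cK l l * (c.w l / 2 ^ 64) ≤ sN (c.K l) (c.V n) / 2 ^ 64 := by
      rw [← Finset.add_sum_erase _ _ (Finset.mem_univ l)] at b3 ⊢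
      have := (Finset.abs_sum_le_sum_abs (fun i => c.cK l i * c.v μ z i) (Finset.univ.erase l)).trans_eq
        (Finset.sum_congr rfl fun i hi => show _ = ‖(c.cK l i : ℂ) * if i = l then
          ((|c.v μ z l - c.W l (c.d.xx μ z)| + c.w l / 2 ^ 64 : ℝ) : ℂ) else c.v μ z i‖ by
          rw [if_neg (Finset.ne_of_mem_erase hi), ← ofReal_mul, norm_real, Real.norm_eq_abs])
      rw [if_pos rfl, ← ofReal_mul, norm_real, Real.norm_of_nonneg (by positivity), mul_add,
        ← abs_of_nonneg k1, ← abs_mul, abs_of_nonneg k1, mul_sub] at b3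
      rw [add_sub_right_comm]
      linarith [abs_add_le (c.cK l l * c.v μ z l - c.cK l l * c.W l (c.d.xx μ z))
        (∑ i ∈ Finset.univ.erase l, c.cK l i * c.v μ z i)]
    refine ⟨_, abs_sub_le _ (∑ i, c.cK l i * c.v μ z i) _, ?_⟩
    rw [← Real.norm_eq_abs (c.y z l - _), ← norm_real, R]
    rw [k0] at b2
    push_cast
    linarith

theorem init (hd : c.d.ok = true) (hc : c.ok = true) {l : List SS} (hr : c.r.ok = true)
    (ch : Chain (c.d.w / 2 ^ 60) c.r.ss l) {U : Set Z3} (hU : U ∈ 𝓝 (lag I)) :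
    ∃ z ∈ U, EscR μ z := by
  have hd := Dt.fc hd
  obtain ⟨X, cX, nX, he, hX⟩ := Dt.fam hd hμ hU
  have hc' := hc
  simp only [ok, alB_cons, Nat.blt_eq] at hc'
  obtain ⟨-, -, p0, q0, p1, q1, -⟩ := hc'
  have p2 : (c.p : ℝ) ≤ 2 ^ 52 := (bl p1).trans_eq (by norm_num)
  have q2 : (c.q : ℝ) ≤ 2 ^ 52 := (bl q1).trans_eq (by norm_num)
  have p3 : (0 : ℝ) < c.p / 2 ^ 64 := by positivity
  have q3 : (0 : ℝ) < c.q / 2 ^ 64 := by positivity
  have cN : Continuous nM := continuous_re.abs.max continuous_im.abs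
  have cL := fun L => (ev_cont L).comp ((Dt.xx_cont (d := c.d) (μ := μ)).comp cX)
  have cW : ∀ i, Continuous fun ξ => c.W i (c.d.xx μ (X ξ)) := fun i =>
    (continuous_re.comp (continuous_const.mul (cL _))).sub continuous_const
  have cs : Continuous fun ξ => c.d.sh μ (X ξ) := continuous_const.mul (cL _)
  obtain ⟨g, g0, g1, cg⟩ : ∃ g : ℂ → ℂ, (∀ ξ, (g ξ).re = c.W .i0 (c.d.xx μ (X ξ)) / (c.p / 2 ^ 64)) ∧
      (∀ ξ, (g ξ).im = c.W .i1 (c.d.xx μ (X ξ)) / (c.q / 2 ^ 64)) ∧ Continuous g :=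
    ⟨fun ξ => (c.W .i0 (c.d.xx μ (X ξ)) / (c.p / 2 ^ 64) : ℝ)
      + (c.W .i1 (c.d.xx μ (X ξ)) / (c.q / 2 ^ 64) : ℝ) * I, fun ξ => by
        simp only [add_re, ofReal_re, mul_I_re, ofReal_im, neg_zero, add_zero], fun ξ => by
        simp only [add_im, ofReal_re, mul_I_im, ofReal_im, zero_add], by fun_prop⟩
  have e0 : ∀ z, c.W .i0 (c.d.xx μ z) = (c.d.sh μ z).re - 19 / 20 := fun z => rfl
  have e1 : ∀ z, c.W .i1 (c.d.xx μ z) = (c.d.sh μ z).im := fun z => by
    simp [W, cm, L, tg, Dt.sh]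
  have s1 := ess_step (N' := nM) continuous_norm (by simp) isClosed_univ cs cg he fun ξ _ h => by
    have n := sq_norm' (c.d.sh μ (X ξ))
    rw [h] at n
    refine ⟨?_, fun t ht h0 => ?_⟩
    · by_contra hh
      rw [nM, not_le, max_lt_iff, g0, g1, e0, e1, (abs_div_le p3).2, (abs_div_le q3).2, abs_lt,
        abs_lt] at hh
      nlinarith
    · have a := congrArg Complex.re h0
      have b := congrArg Complex.im h0
      simp only [add_re, add_im, smul_re, smul_im, smul_eq_mul, g0, g1, e0, e1, zero_re,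
        zero_im, div_eq_mul_inv _ (c.p / 2 ^ 64 : ℝ), div_eq_mul_inv _ (c.q / 2 ^ 64 : ℝ)] at a b
      have i1 := inv_pos.2 p3
      have i2 := inv_pos.2 q3
      have po : ∀ {k : ℝ}, 0 < k → 0 < 1 - t + t * k := fun h => by
        rcases ht.2.eq_or_lt with e | e
        · simpa [e] using h
        · nlinarith [mul_nonneg ht.1 h.le]
      have b' : (c.d.sh μ (X ξ)).im = 0 := (mul_eq_zero.1 (by linarith : _ * (1 - t + t
        * (c.q / 2 ^ 64 : ℝ)⁻¹) = 0)).resolve_right (po i2).ne'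
      rw [b'] at n
      rcases sq_eq_sq_iff_eq_or_eq_neg.1 (show (c.d.sh μ (X ξ)).re ^ 2 = 1 ^ 2 by linarith)
        with e | e <;> rw [e] at a
      · linarith [po (mul_pos i1 (show (0 : ℝ) < 1 / 20 by norm_num))]
      · linarith [po (mul_pos i1 (show (0 : ℝ) < 39 / 20 by norm_num))]
  have hA := isClosed_univ.inter (isClosed_le (continuous_norm.comp cs) (continuous_const (y := 1)))
  have fa : ∀ ξ, ‖c.d.sh μ (X ξ)‖ ≤ 1 → nM (g ξ) ≤ 1 → _ ∧ ∀ l, _ := fun ξ h1 h2 => by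
    rw [nM, max_le_iff, g0, g1, (abs_div_le p3).1, (abs_div_le q3).1] at h2
    have := hX ξ (fun h => by
      have := (abs_le.1 h2.1).1
      rw [e0, h, zero_re] at this
      linarith) h1
    exact ⟨this, key hμ hd hr hc this.1 (by linarith [h2.1]) (by linarith [h2.2])⟩
  have R0 := ch.ok.R0
  obtain ⟨ξ, hξ, h⟩ := chain_main hμ cX nX (hA.inter (isClosed_le (cN.comp cg) continuous_const)) ch
    (ess_step cN (by simp [nM]) hA cg ((SS.cg ch.ok.cS).comp (co_cont.comp cX)) s1 fun ξ hξ h => by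
      have k := (fa ξ hξ.2 h.le).2
      rcases max_choice |(g ξ).re| |(g ξ).im| with e | e
      · obtain ⟨D, k1, k2⟩ := k .i0
        have := link2 p3 (R0 _) (g0 ξ ▸ e.symm.trans h) k1 k2
        exact ⟨this.1.trans (le_max_left _ _), fun t ht h0 =>
          this.2 t ht (by simpa [SS.g, g0, y, Raw.ss] using congrArg Complex.re h0)⟩
      · obtain ⟨D, k1, k2⟩ := k .i1
        have := link2 q3 (R0 _) (g1 ξ ▸ e.symm.trans h) k1 k2
        exact ⟨this.1.trans (le_max_right _ _), fun t ht h0 =>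
          this.2 t ht (by simpa [SS.g, g1, y, Raw.ss] using congrArg Complex.im h0)⟩)
    fun ξ hξ h => by
      obtain ⟨k1, k2⟩ := fa ξ hξ.1.2 hξ.2
      refine ⟨fun j => ?_, k1.1.2.2.2⟩
      cases j
      exacts [(abs_div_le (R0 _)).1.1 ((le_max_left _ _).trans h),
        (abs_div_le (R0 _)).1.1 ((le_max_right _ _).trans h), k2 .i2, k2 .i3]
  exact (fa ξ hξ.1.2 hξ.2).1.2 h

end Ini

end Pool.Agent.Lib.MP_6e7c44_mp.RS
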