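import Pool.Agent.Lib.MP_6e7c44_mp.RS.Base

/-! The linear normal form at the Lagrange point and the expansion of the attraction. -/

set_option autoImplicit false

open Set Complex

noncomputable section

namespace Pool.Agent.Lib.MP_6e7c44_mp.RS

open LA

variable {a : ℝ} {μ : Fin 3 → ℝ}

def om : ℝ := √5 / 5
def kp (μ : Fin 3 → ℝ) : ℂ := (μ 0 - μ 1) / 2 - cL * μ 2
def Bc (μ : Fin 3 → ℝ) : ℂ := -(3 / 4) + 3 * (cL * kp μ)
def nu : Bool → ℂ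
  | true => 2 * om
  | false => -om
def mp : Bool → ℂ
  | true => 230 / 209 + 400 / 209 * om
  | false => 170 / 209 - 200 / 209 * om
def al : Bool → ℂ
  | true => -(I * (115 / 24 * om - 5 / 3))
  | false => -(I * (85 / 12 * om + 5 / 3))
def ka (μ : Fin 3 → ℝ) (j : Bool) : ℂ := Bc μ * mp j
/-- The left eigenvectors. -/
def ell (μ : Fin 3 → ℝ) (j : Bool) (s p : ℂ) : ℂ := I * ((nu j + 1) * s) + p
  - ka μ j * (I * ((nu j - 1) * (starRingEnd ℂ) s) + (starRingEnd ℂ) p)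
def sI (μ : Fin 3 → ℝ) (x y : ℂ) : ℂ := al true * x - ka μ true * (starRingEnd ℂ) (al true * x)
  + (al false * y - ka μ false * (starRingEnd ℂ) (al false * y))
def pI (μ : Fin 3 → ℝ) (x y : ℂ) : ℂ :=
  I * ((nu true + 1) * (al true * x) + (nu true - 1) * (ka μ true * (starRingEnd ℂ) (al true * x)))
  + I * ((nu false + 1) * (al false * y)
    + (nu false - 1) * (ka μ false * (starRingEnd ℂ) (al false * y)))

lemma om_sq : (om : ℂ) ^ 2 = 1 / 5 := by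
  have : ((√5 : ℝ) : ℂ) ^ 2 = 5 := by exact_mod_cast Real.sq_sqrt (by norm_num : (0 : ℝ) ≤ 5)
  rw [om]; push_cast; linear_combination this / 25

lemma Bc_sq (hμ : Mass a μ) : Bc μ * (starRingEnd ℂ) (Bc μ) = 209 / 100 := by
  have h1 : ((μ 0 : ℂ) * μ 1 + μ 1 * μ 2 + μ 2 * μ 0) = 16 / 675 := by
    have := congrArg (fun x : ℝ => (x : ℂ)) hμ.res
    simpa [I0] using this
  have h2 : (μ 0 : ℂ) + μ 1 + μ 2 = 1 := by exact_mod_cast congrArg (fun x : ℝ => (x : ℂ)) hμ.ms.2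
  have h3 := bk_cL.1
  simp only [Bc, kp, map_add, map_mul, map_sub, map_neg, map_div₀, map_ofNat, conj_ofReal, bk_cL.2]
  grind

lemma ell_sI (hμ : Mass a μ) (x y : ℂ) :
    ell μ true (sI μ x y) (pI μ x y) = x ∧ ell μ false (sI μ x y) (pI μ x y) = y := by
  have h1 := Bc_sq hμ
  have h2 := om_sq
  have h3 := I_sq
  simp only [ell, sI, pI, ka, nu, mp, al, map_add, map_mul, map_sub, map_neg, map_div₀, map_ofNat,
    conj_ofReal, conj_I, conj_conj, map_one]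
  generalize (starRingEnd ℂ) (Bc μ) = B', Bc μ = B, (starRingEnd ℂ) x = x', (starRingEnd ℂ) y = y',
    (om : ℂ) = w, I = J at *
  constructor <;> grind

lemma sI_ell (hμ : Mass a μ) (s p : ℂ) :
    sI μ (ell μ true s p) (ell μ false s p) = s ∧ pI μ (ell μ true s p) (ell μ false s p) = p := by
  have h1 := Bc_sq hμ
  have h2 := om_sq
  have h3 := I_sq
  simp only [ell, sI, pI, ka, nu, mp, al, map_add, map_mul, map_sub, map_neg, map_div₀, map_ofNat,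
    conj_ofReal, conj_I, conj_conj, map_one]
  generalize (starRingEnd ℂ) (Bc μ) = B', Bc μ = B, (starRingEnd ℂ) s = x', (starRingEnd ℂ) p = y',
    (om : ℂ) = w, I = J at *
  constructor <;> grind

lemma ell_lin (hμ : Mass a μ) (j : Bool) (s p N s' p' : ℂ) :
    ell μ j (p - I * s + s') (-(I * p) + s / 2 + Bc μ * (starRingEnd ℂ) s + N + p')
      = I * nu j * ell μ j s p + (N - ka μ j * (starRingEnd ℂ) N) + ell μ j s' p' := by
  have h1 := Bc_sq hμ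
  have h2 := om_sq
  have h3 := I_sq
  cases j <;> simp only [ell, ka, nu, mp, map_add, map_mul, map_sub, map_neg, map_div₀, map_ofNat,
    conj_I, conj_conj] <;>
  generalize (starRingEnd ℂ) (Bc μ) = B', Bc μ = B, (starRingEnd ℂ) s = x', (starRingEnd ℂ) p = y',
    (starRingEnd ℂ) N = N', (starRingEnd ℂ) s' = x2, (starRingEnd ℂ) p' = y2, (om : ℂ) = w,
    I = J at * <;> grind

lemma ell_add (j : Bool) (s p s' p' : ℂ) :
    ell μ j (s + s') (p + p') = ell μ j s p + ell μ j s' p' := by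
  simp only [ell, map_add]; ring

lemma ell_smul (j : Bool) (c : ℝ) (s p : ℂ) : ell μ j (c * s) (c * p) = c * ell μ j s p := by
  simp only [ell, map_mul, conj_ofReal]; ring

lemma om_le : 0 < om ∧ om ≤ 1 / 2 := by
  have h2 : om ^ 2 = 1 / 5 := by rw [om, div_pow, Real.sq_sqrt (by norm_num)]; norm_num
  have h0 : 0 < om := by unfold om; positivity
  exact ⟨h0, by nlinarith⟩

lemma ell_le (j : Bool) (hk : ‖ka μ j‖ ≤ 4) (s p : ℂ) : ‖ell μ j s p‖ ≤ 10 * ‖s‖ + 5 * ‖p‖ := by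
  have h0 : ‖nu j‖ ≤ 1 := by
    cases j <;> simp [nu, abs_of_pos om_le.1] <;> linarith [om_le.2]
  have h1 : ‖nu j + 1‖ ≤ 2 := (norm_add_le _ _).trans (by rw [norm_one]; linarith)
  have h2 : ‖nu j - 1‖ ≤ 2 := (norm_sub_le _ _).trans (by rw [norm_one]; linarith)
  have h3 : ∀ {c x y : ℂ}, ‖c‖ ≤ 2 → ‖I * (c * x) + y‖ ≤ 2 * ‖x‖ + ‖y‖ := fun h =>
    norm_add_le_of_le (by rw [norm_mul, norm_I, one_mul, norm_mul]; gcongr) le_rfl
  have h4 := h3 (x := (starRingEnd ℂ) s) (y := (starRingEnd ℂ) p) h2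
  rw [norm_conj, norm_conj] at h4
  have h5 := mul_le_mul hk h4 (norm_nonneg _) (by norm_num)
  rw [← norm_mul] at h5
  exact (norm_sub_le_of_le (h3 h1) h5).trans_eq (by ring)

lemma ell_der (j : Bool) {s p : ℝ → ℂ} {s' p' : ℂ} {t : ℝ} (hs : HasDerivAt s s' t)
    (hp : HasDerivAt p p' t) : HasDerivAt (fun τ => ell μ j (s τ) (p τ)) (ell μ j s' p') t :=
  (((hs.const_mul _).const_mul I).fun_add hp).fun_sub
    ((((hs.star.const_mul _).const_mul I).fun_add hp.star).const_mul _)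

/-! The expansion of the attraction. -/

def hor : List ℝ → ℝ → ℝ
  | [], _ => 0
  | c :: l, q => c + q * hor l q

lemma hor_le (l : List ℝ) {q r : ℝ} (h : |q| ≤ r) : |hor l q| ≤ hor (l.map abs) r := by
  induction l with
  | nil => simp [hor]
  | cons c l ih =>
    refine (abs_add_le _ _).trans (add_le_add le_rfl ?_)
    rw [abs_mul]
    exact mul_le_mul h ih (abs_nonneg _) ((abs_nonneg _).trans h)

def psi (q : ℝ) : ℝ :=
  hor [15 / 8, -35 / 16, 315 / 128, -693 / 256, 3003 / 1024, -6435 / 2048, 109395 / 32768] q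

lemma ser {n q : ℝ} (n0 : 0 < n) (h : n ^ 2 = 1 + q) (hq : |q| ≤ 1 / 32) :
    |(n ^ 3)⁻¹ - (1 - 3 / 2 * q + q ^ 2 * psi q)| ≤ 8 * |q| ^ 9 := by
  have e : (1 - 3 / 2 * q + q ^ 2 * psi q) ^ 2 * (1 + q) ^ 3 = 1 + q ^ 9 * hor [230945 / 32768,
      415701 / 131072, -188955 / 262144, 692835 / 2097152, -799425 / 4194304, 2078505 / 16777216,
      -2909907 / 33554432, 68590665 / 1073741824, -52451685 / 1073741824,
      13375179675 / 1073741824, 11967266025 / 1073741824] q := by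
    simp only [psi, hor]; ring
  generalize hE : hor _ q = E at e
  have e1 : |E| ≤ 8 := hE ▸ (hor_le _ hq).trans (by norm_num [hor, abs_div])
  have e2 : |psi q| ≤ 2 := (hor_le _ hq).trans (by norm_num [hor, abs_div])
  have q1 := abs_le.1 hq
  have e3 : 9 / 10 ≤ 1 - 3 / 2 * q + q ^ 2 * psi q := by
    nlinarith [abs_le.1 e2, sq_nonneg q]
  generalize 1 - 3 / 2 * q + q ^ 2 * psi q = T at *
  have n3 : 0 < n ^ 3 := by positivity
  have n6 : (n ^ 3) ^ 2 = (1 + q) ^ 3 := by rw [← h]; ring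
  have n7 : (9 / 10) ^ 2 ≤ (n ^ 3) ^ 2 := by
    rw [n6]; exact le_trans (by norm_num) (pow_le_pow_left₀ (by norm_num) (by linarith : 31 / 32 ≤ 1 + q) 3)
  have n8 := (abs_le_of_sq_le_sq' n7 n3.le).2
  rw [← n6] at e
  generalize n ^ 3 = m at *
  have e4 : (m⁻¹ - T) * (m * (1 + T * m)) = -(q ^ 9 * E) := by
    field_simp; linear_combination -e
  have e5 : 1 ≤ m * (1 + T * m) := by nlinarith [mul_le_mul e3 n8 (by norm_num) (by linarith)]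
  have e6 := congrArg abs e4
  rw [abs_mul, abs_neg, abs_mul (q ^ 9), abs_pow, abs_of_pos (by linarith : 0 < m * (1 + T * m))] at e6
  nlinarith [abs_nonneg (m⁻¹ - T), pow_nonneg (abs_nonneg q) 9]

def qq (e s : ℂ) : ℂ := (starRingEnd ℂ) e * s + e * (starRingEnd ℂ) s + s * (starRingEnd ℂ) s
/-- The remainder of the series. -/
def vth (e s : ℂ) : ℝ :=
  (‖e + s‖ ^ 3)⁻¹ - (1 - 3 / 2 * (qq e s).re + (qq e s).re ^ 2 * psi (qq e s).re)
/-- The nonlinear part of the attraction. -/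
def NN (e s : ℂ) : ℂ := (e + s) * (qq e s * qq e s * psi (qq e s).re + vth e s)
  - 3 / 2 * (e * (s * (starRingEnd ℂ) s) + qq e s * s)

lemma qq_re (e s : ℂ) : ((qq e s).re : ℂ) = qq e s :=
  conj_eq_iff_re.1 (by simp only [qq, map_add, map_mul, conj_conj]; ring)

lemma ff_exp {e : ℂ} (he : ‖e‖ = 1) (s : ℂ) :
    ff (e + s) = e - s / 2 - 3 / 2 * e ^ 2 * (starRingEnd ℂ) s + NN e s := by
  have h1 : e * (starRingEnd ℂ) e = 1 := by rw [mul_conj', he]; simp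
  have h2 := qq_re e s
  simp only [ff, NN, vth, real_smul, ofReal_sub, ofReal_add, ofReal_mul, ofReal_pow, h2]
  generalize (((‖e + s‖ ^ 3)⁻¹ : ℝ) : ℂ) = h, (psi (qq e s).re : ℂ) = ψ
  push_cast
  rw [qq]
  linear_combination (-3 / 2 * s) * h1

lemma vth_le {e s : ℂ} (he : ‖e‖ = 1) {t : ℝ} (ht : t ≤ 1) (h : ‖qq e s‖ ≤ t / 32) :
    |vth e s| ≤ t ^ 2 / 2 ^ 42 := by
  have h1 : ‖e + s‖ ^ 2 = 1 + (qq e s).re := by
    have := sq_norm' e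
    rw [he] at this
    simp only [sq_norm', qq, add_re, add_im, mul_re, conj_re, conj_im]
    linear_combination -this
  have h2 := (abs_re_le_norm _).trans h
  have t0 : 0 ≤ t := by linarith [norm_nonneg (qq e s)]
  have h3 : 0 < ‖e + s‖ := by
    by_contra h4
    rw [le_antisymm (not_lt.1 h4) (norm_nonneg _)] at h1
    linarith [(abs_le.1 h2).1]
  have h5 := pow_le_pow_left₀ (abs_nonneg _) h2 9
  have h6 : t ^ 9 ≤ t ^ 2 := pow_le_pow_of_le_one t0 ht (by norm_num)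
  refine (ser h3 h1 (by linarith)).trans ?_
  rw [div_pow] at h5
  linarith

def sz (z : Z3) : ℂ := z.2.1 - cL
def pz (z : Z3) : ℂ := z.2.2 - cL * z.1
def Nz (μ : Fin 3 → ℝ) (s : ℂ) : ℂ :=
  -((1 / 2 + kp μ) * NN (cL + 1 / 2) s + (1 / 2 - kp μ) * NN (cL - 1 / 2) s)

lemma ell_flow (hμ : Mass a μ) (j : Bool) {γ : ℝ → Z3} {g t : ℝ}
    (h : HasDerivAt γ (g • GR μ (γ t)) t) :
    HasDerivAt (fun τ => ell μ j (sz (γ τ)) (pz (γ τ))) (g * (I * nu j * ell μ j (sz (γ t)) (pz (γ t))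
      + (Nz μ (sz (γ t)) - ka μ j * (starRingEnd ℂ) (Nz μ (sz (γ t))))
      + ell μ j (-(((γ t).1 - I) * sz (γ t)))
        ((3 / 2 * ((γ t).1.re : ℂ) - ((γ t).1 - I)) * pz (γ t)))) t := by
  refine hd_congr (ell_der j ((hd_fst (hd_snd h)).sub_const cL)
    ((hd_snd (hd_snd h)).fun_sub ((hd_fst h).const_mul cL))) (fun _ => rfl) ?_
  rw [← ell_lin hμ, ← ell_smul]
  have e0 := ff_exp i_n1 (sz (γ t))
  have e1 := ff_exp i_n2 (sz (γ t))
  rw [show cL + 1 / 2 + sz (γ t) = (γ t).2.1 + 1 / 2 by rw [sz]; ring] at e0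
  rw [show cL - 1 / 2 + sz (γ t) = (γ t).2.1 - 1 / 2 by rw [sz]; ring] at e1
  congr 1
  · simp [GR, sz, pz]; left; ring
  · simp only [GR, Kp, Sg, Prod.smul_fst, Prod.smul_snd, real_smul, e0, e1, Nz, Bc, kp, pz]
    generalize NN (cL + 1 / 2) (sz (γ t)) = N0, NN (cL - 1 / 2) (sz (γ t)) = N1,
      (starRingEnd ℂ) (sz (γ t)) = s'
    simp only [sz]
    linear_combination (-3 / 2 * g * s') * bk_cL.1

/-! The invariant near the Lagrange point. -/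

lemma am {x y A B : ℝ} (h1 : |x| ≤ A) (h2 : |y| ≤ B) : |x * y| ≤ A * B := by
  rw [abs_mul]; exact mul_le_mul h1 h2 (abs_nonneg _) ((abs_nonneg _).trans h1)

lemma loc_one {e s p η : ℂ} {σ : ℝ} (he : ‖e‖ = 1) (hs : ‖s‖ ≤ σ) (hp : ‖p‖ ≤ σ) (hσ : σ ≤ 1 / 32)
    (hη : ‖η - I‖ ≤ 1 / 8) {A C : ℝ}
    (hA : A = ‖e * η + p‖ ^ 2 / 2 - ‖e + s‖⁻¹ - (‖η‖ ^ 2 / 2 - 1))
    (hC : C = cr (e + s) (e * η + p) - η.im) :
    e + s ≠ 0 ∧ |A| ≤ 3 * σ ∧ |C| ≤ 3 * σ ∧ |C - A| ≤ 4 * (‖η - I‖ * σ + σ ^ 2) := by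
  have σ0 := (norm_nonneg _).trans hs
  have n1 := (abs_norm_sub_norm_le (e + s) e).trans_eq (by rw [add_sub_cancel_left])
  rw [he] at n1
  have n2 := abs_le.1 (n1.trans hs)
  have n0 : 0 < ‖e + s‖ := by linarith
  have e2 : e.re ^ 2 + e.im ^ 2 = 1 := by rw [← sq_norm', he]; norm_num
  have n3 : ‖e + s‖ ^ 2 = 1 + 2 * dot e s + ‖s‖ ^ 2 := by
    simp only [sq_norm', dot, add_re, add_im]; linear_combination e2
  have s2 := pow_le_pow_left₀ (norm_nonneg _) hs 2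
  have p2 := pow_le_pow_left₀ (norm_nonneg _) hp 2
  obtain ⟨ρ, hρ⟩ : ∃ ρ, ρ = 1 - ‖e + s‖⁻¹ - dot e s := ⟨_, rfl⟩
  have r1 : |ρ| ≤ 2 * σ ^ 2 := by
    have r0 : ρ = ‖s‖ ^ 2 / 2 - (‖e + s‖ - 1) ^ 2 * ((‖e + s‖ + 2) / (2 * ‖e + s‖)) := by
      rw [hρ, show dot e s = (‖e + s‖ ^ 2 - 1 - ‖s‖ ^ 2) / 2 by linarith]; field_simp; ring
    have r2 : (‖e + s‖ + 2) / (2 * ‖e + s‖) ≤ 2 := by rw [div_le_iff₀ (by linarith)]; linarith
    have r3 : (‖e + s‖ - 1) ^ 2 ≤ σ ^ 2 := sq_le_sq' n2.1 n2.2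
    have r4 := mul_le_mul r3 r2 (by positivity) (by positivity)
    have r5 : 0 ≤ (‖e + s‖ - 1) ^ 2 * ((‖e + s‖ + 2) / (2 * ‖e + s‖)) := by positivity
    rw [r0, abs_le]; constructor <;> nlinarith [sq_nonneg ‖s‖]
  have hn : ‖η‖ ≤ 9 / 8 := by
    have := norm_sub_norm_le η I
    rw [norm_I] at this; linarith
  have b : ∀ {x y : ℂ} {X Y : ℝ}, ‖x‖ ≤ X → ‖y‖ ≤ Y → |dot x y| ≤ X * Y ∧ |cr x y| ≤ X * Y :=
    fun h1 h2 => have := mul_le_mul h1 h2 (norm_nonneg _) ((norm_nonneg _).trans h1)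
      ⟨(abs_dot_le _ _).trans this, (abs_cr_le _ _).trans this⟩
  have m1 : ‖e * η‖ ≤ 9 / 8 := by rw [norm_mul, he, one_mul]; exact hn
  have m2 : ‖e * (η - I)‖ ≤ ‖η - I‖ := by rw [norm_mul, he, one_mul]
  have eA : A = dot (e * η) p + ‖p‖ ^ 2 / 2 + dot e s + ρ := by
    rw [hA, hρ]
    simp only [sq_norm', dot, add_re, add_im, mul_re, mul_im]
    linear_combination (η.re ^ 2 + η.im ^ 2) / 2 * e2
  have eC : C = cr e p + cr s (e * η) + cr s p := by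
    rw [hC]
    simp only [cr, add_re, add_im, mul_re, mul_im]
    linear_combination η.im * e2
  have eD : C - A = cr s (e * (η - I)) - dot (e * (η - I)) p + cr s p - ‖p‖ ^ 2 / 2 - ρ := by
    rw [eA, eC]
    simp only [cr, dot, mul_re, mul_im, sub_re, sub_im, I_re, I_im]
    ring
  have c1 := abs_le.1 (b m1 hp).1
  have c2 := abs_le.1 (b he.le hs).1
  have c3 := abs_le.1 (b he.le hp).2
  have c4 := abs_le.1 (b hs m1).2
  have c5 := abs_le.1 (b hs hp).2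
  have c6 := abs_le.1 (b hs m2).2
  have c7 := abs_le.1 (b m2 hp).1
  have c8 := abs_le.1 r1
  have c9 : σ ^ 2 ≤ σ / 32 := by nlinarith
  have c0 := sq_nonneg ‖p‖
  have d0 := mul_nonneg (norm_nonneg (η - I)) σ0
  refine ⟨norm_pos_iff.1 n0, ?_, ?_, ?_⟩
  · rw [eA, abs_le]; constructor <;> linarith only [c1.1, c1.2, c2.1, c2.2, c8.1, c8.2, c9, c0, p2, σ0]
  · rw [eC, abs_le]; constructor <;> linarith only [c3.1, c3.2, c4.1, c4.2, c5.1, c5.2, c9, σ0]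
  · rw [eD, abs_le]
    constructor <;> linarith only [c6.1, c6.2, c7.1, c7.2, c5.1, c5.2, c8.1, c8.2, c0, p2, d0]

lemma loc_inv (hμ : Mass a μ) {z : Z3} {σ : ℝ} (hs : ‖sz z‖ ≤ σ) (hp : ‖pz z‖ ≤ σ)
    (hσ : σ ≤ 1 / 32) (hη : ‖z.1 - I‖ ≤ 1 / 8) : NC z ∧ 0 < En μ z ∧ 0 < Am μ z ∧
    |2 * (En μ z * Am μ z ^ 2) - (2 - ‖z.1‖ ^ 2) * z.1.im ^ 2|
      ≤ (‖z.1 - I‖ * σ + σ ^ 2) / 2 ^ 188 := by
  have σ0 := (norm_nonneg _).trans hs
  obtain ⟨a0, a1, a2, a3⟩ := loc_one i_n1 hs hp hσ hη rfl rfl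
  obtain ⟨b0, b1, b2, b3⟩ := loc_one i_n2 hs hp hσ hη rfl rfl
  rw [show cL + 1 / 2 + sz z = z.2.1 + 1 / 2 by rw [sz]; ring] at a0 a1 a2 a3
  rw [show cL - 1 / 2 + sz z = z.2.1 - 1 / 2 by rw [sz]; ring] at b0 b1 b2 b3
  rw [show (cL + 1 / 2) * z.1 + pz z = z.2.2 + z.1 / 2 by rw [pz]; ring] at a1 a2 a3
  rw [show (cL - 1 / 2) * z.1 + pz z = z.2.2 - z.1 / 2 by rw [pz]; ring] at b1 b2 b3
  have c1 := avg_le hμ b1 a1
  have c2 := avg_le hμ b2 a2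
  have c3 := avg_le hμ b3 a3
  rw [En, Am, neg_div, avg hμ, avg hμ]
  generalize ‖z.2.2 + z.1 / 2‖ ^ 2 / 2 - ‖z.2.1 + 1 / 2‖⁻¹ - (‖z.1‖ ^ 2 / 2 - 1) = A0,
    ‖z.2.2 - z.1 / 2‖ ^ 2 / 2 - ‖z.2.1 - 1 / 2‖⁻¹ - (‖z.1‖ ^ 2 / 2 - 1) = A1,
    cr (z.2.1 + 1 / 2) (z.2.2 + z.1 / 2) - z.1.im = C0,
    cr (z.2.1 - 1 / 2) (z.2.2 - z.1 / 2) - z.1.im = C1 at *
  rw [show 675 / 16 * μ 2 * (μ 1 * (C1 - A1) + μ 0 * (C0 - A0)) = 675 / 16 * μ 2 * (μ 1 * C1 + μ 0 * C0)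
    - 675 / 16 * μ 2 * (μ 1 * A1 + μ 0 * A0) by ring] at c3
  generalize 675 / 16 * μ 2 * (μ 1 * A1 + μ 0 * A0) = x,
    675 / 16 * μ 2 * (μ 1 * C1 + μ 0 * C0) = y at *
  have z0 := norm_nonneg (z.1 - I)
  have sm := hμ.sm
  have w0 : 0 ≤ ‖z.1 - I‖ * σ := by positivity
  have w1 := sq_nonneg σ
  have d1 : |x| ≤ σ / 2 ^ 192 := c1.trans (by nlinarith)
  have d2 : |y| ≤ σ / 2 ^ 192 := c2.trans (by nlinarith)
  have d3 : |y - x| ≤ (‖z.1 - I‖ * σ + σ ^ 2) / 2 ^ 192 := c3.trans (by nlinarith)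
  have v1 : |z.1.im - 1| ≤ ‖z.1 - I‖ := by simpa using abs_im_le_norm (z.1 - I)
  have v2 := abs_le.1 (v1.trans hη)
  have v3 : |z.1.im| ≤ 9 / 8 := abs_le.2 ⟨by linarith, by linarith⟩
  have n1 := abs_norm_sub_norm_le z.1 I
  rw [norm_I] at n1
  have n2 := abs_le.1 (n1.trans hη)
  have n3 : |1 - ‖z.1‖ ^ 2| ≤ ‖z.1 - I‖ * 3 := by
    rw [show 1 - ‖z.1‖ ^ 2 = (‖z.1‖ - 1) * -(‖z.1‖ + 1) by ring]
    exact am n1 (abs_le.2 ⟨by linarith, by linarith⟩)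
  have n4 : |2 - ‖z.1‖ ^ 2| ≤ 2 := abs_le.2 ⟨by nlinarith, by nlinarith⟩
  have x1 := abs_le.1 (d1.trans (by linarith : _ ≤ (1 : ℝ) / 16))
  have y1 := d2.trans (by linarith : _ ≤ (1 : ℝ) / 16)
  have y2 := abs_le.1 y1
  refine ⟨⟨a0, b0⟩, by nlinarith, by linarith, ?_⟩
  have f1 := abs_le.1 (am v3 d3)
  have f2 := abs_le.1 (am v3 (am n3 d2))
  have f3 := abs_le.1 (am v3 (am v1 d1))
  have f4 := abs_le.1 (am n4 (am d2 d2))
  have f5 := abs_le.1 (am v3 (am d1 d2))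
  have f6 := abs_le.1 (am y1 (am d1 d2))
  rw [show 2 * (-(‖z.1‖ ^ 2 / 2 - 1 + x) * (z.1.im + y) ^ 2) - (2 - ‖z.1‖ ^ 2) * z.1.im ^ 2
    = 2 * (z.1.im * (y - x)) + 2 * (z.1.im * ((1 - ‖z.1‖ ^ 2) * y))
      - 2 * (z.1.im * ((z.1.im - 1) * x)) + (2 - ‖z.1‖ ^ 2) * (y * y) - 4 * (z.1.im * (x * y))
      - 2 * (y * (x * y)) by ring, abs_le]
  constructor <;> linarith

/-- The binary deviates from the circular motion by at most a tiny multiple of the size. -/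
lemma loc_zeta (hμ : Mass a μ) {z : Z3} {t : ℝ} (hs : ‖sz z‖ ≤ t / 32) (hp : ‖pz z‖ ≤ t / 32)
    (ht : t ≤ 1) (hη : ‖z.1 - I‖ ≤ 1 / 8)
    (h : 1 - t ^ 2 / 2 ^ 180 ≤ 2 * (En μ z * Am μ z ^ 2)) : ‖z.1 - I‖ ≤ t / 2 ^ 80 := by
  have t0 : 0 ≤ t := by linarith [norm_nonneg (sz z)]
  have h1 := (abs_le.1 (loc_inv hμ hs hp (by linarith) hη).2.2.2).2
  have v1 : |z.1.im - 1| ≤ 1 / 8 := by simpa using (abs_im_le_norm (z.1 - I)).trans hη
  have z0 := norm_nonneg (z.1 - I)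
  have h2 := zeta_le (η := z.1)
    (ε := t ^ 2 / 2 ^ 180 + (‖z.1 - I‖ * (t / 32) + (t / 32) ^ 2) / 2 ^ 188)
    (by linarith [(abs_le.1 v1).1]) (by nlinarith) (by linarith)
  refine (abs_le_of_sq_le_sq' ?_ (by positivity)).2
  nlinarith [sq_nonneg (‖z.1 - I‖ - t / 2 ^ 100), sq_nonneg t]

end Pool.Agent.Lib.MP_6e7c44_mp.RS
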