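import Pool.Agent.Lib.MP_6e7c44_mp.RS.HP
import Pool.Agent.Lib.MP_6e7c44_mp.LA.Inv

/-! Polynomials in four complex variables as lists of terms; complex balls; complex models. -/

set_option autoImplicit false

open Finset Complex

namespace Pool.Agent.Lib.MP_6e7c44_mp.RS

open LA

lemma I4.sumC (f : I4 → ℂ) : ∑ i, f i = f .i0 + f .i1 + f .i2 + f .i3 := by
  show ∑ i ∈ ({.i0, .i1, .i2, .i3} : Finset I4), f i = _
  simp [add_assoc]

/-- A term: four exponents and a Gaussian integer. -/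
structure Tm where
  a : ℕ
  b : ℕ
  c : ℕ
  d : ℕ
  p : ℤ
  q : ℤ

namespace Tm
variable (t : Tm)
def dg : ℕ := Nat.add (Nat.add (Nat.add t.a t.b) t.c) t.d
def nm : ℕ := Nat.add t.p.natAbs t.q.natAbs
def e : I4 → ℕ
  | .i0 => t.a
  | .i1 => t.b
  | .i2 => t.c
  | .i3 => t.d
def dec : I4 → Tm
  | .i0 => ⟨Nat.sub t.a 1, t.b, t.c, t.d, Int.mul t.a t.p, Int.mul t.a t.q⟩
  | .i1 => ⟨t.a, Nat.sub t.b 1, t.c, t.d, Int.mul t.b t.p, Int.mul t.b t.q⟩
  | .i2 => ⟨t.a, t.b, Nat.sub t.c 1, t.d, Int.mul t.c t.p, Int.mul t.c t.q⟩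
  | .i3 => ⟨t.a, t.b, t.c, Nat.sub t.d 1, Int.mul t.d t.p, Int.mul t.d t.q⟩
def fr (σ : ℕ) : ℤ :=
  Int.subNatNat (Nat.add (Nat.add (Nat.mul 2 t.a) t.d) σ) (Nat.add (Nat.mul 2 t.b) t.c)
def sm (k : ℤ) : Tm := ⟨t.a, t.b, t.c, t.d, Int.mul k t.p, Int.mul k t.q⟩
def cj : Tm := ⟨t.b, t.a, t.d, t.c, t.p, Int.neg t.q⟩
noncomputable def val (x : I4 → ℂ) : ℂ :=
  (t.p + t.q * I) * (x .i0 ^ t.a * x .i1 ^ t.b * x .i2 ^ t.c * x .i3 ^ t.d)
/-- Unpacking of a term. -/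
def up (n : ℕ) : Tm := ⟨Nat.land n 15, Nat.land (Nat.shiftRight n 4) 15,
  Nat.land (Nat.shiftRight n 8) 15, Nat.land (Nat.shiftRight n 12) 15,
  Int.subNatNat (Nat.land (Nat.shiftRight n 16) (Nat.sub (Nat.pow 2 68) 1)) (Nat.pow 2 67),
  Int.subNatNat (Nat.shiftRight n 84) (Nat.pow 2 67)⟩
end Tm

noncomputable def ev (L : List Tm) (x : I4 → ℂ) : ℂ := (L.map fun t => t.val x).sum / 2 ^ 64

@[simp] lemma ev_nil (x : I4 → ℂ) : ev [] x = 0 := by simp [ev]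
lemma ev_cons (t : Tm) (L : List Tm) (x : I4 → ℂ) : ev (t :: L) x = t.val x / 2 ^ 64 + ev L x := by
  simp [ev, add_div]

def der (i : I4) : List Tm → List Tm
  | [] => []
  | t :: L => cond (Nat.beq (t.e i) 0) (der i L) (t.dec i :: der i L)
def lam (σ : ℕ) : List Tm → List Tm
  | [] => []
  | t :: L => cond (Nat.beq (t.fr σ).natAbs 0) (lam σ L) (t.sm (t.fr σ) :: lam σ L)
def cj (L : List Tm) : List Tm := L.map Tm.cj
def n0 : List Tm → ℕ
  | [] => 0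
  | t :: L => Nat.add t.nm (n0 L)
def s4 (f : I4 → ℕ) : ℕ := Nat.add (Nat.add (f .i0) (f .i1)) (Nat.add (f .i2) (f .i3))
def n1 (L : List Tm) : ℕ := s4 fun i => n0 (der i L)
def n2 (L : List Tm) : ℕ := s4 fun i => n1 (der i L)
def wf (l : ℕ) : List Tm → Bool
  | [] => true
  | t :: L => Nat.ble l t.dg && (Nat.ble t.dg 11 && wf l L)

lemma s4_cast (f : I4 → ℕ) : (s4 f : ℝ) = ∑ i, (f i : ℝ) := by
  simp only [s4, Nat.add_eq, I4.sum]; push_cast; ring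

lemma der_cons (i : I4) (t : Tm) (L : List Tm) (x : I4 → ℂ) :
    ev (der i (t :: L)) x = (t.dec i).val x / 2 ^ 64 + ev (der i L) x := by
  rw [der]
  cases h : Nat.beq (t.e i) 0
  · exact ev_cons ..
  · have := Nat.eq_of_beq_eq_true h
    cases i <;> simp only [Tm.e] at this <;> simp [Tm.dec, Tm.val, this]

/-- The differential of a polynomial. -/
noncomputable def dv4 (L : List Tm) (x v : I4 → ℂ) : ℂ := ∑ i, ev (der i L) x * v i

lemma ev_der (L : List Tm) {x : ℝ → I4 → ℂ} {v : I4 → ℂ} {τ : ℝ}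
    (h : ∀ i, HasDerivAt (fun s => x s i) (v i) τ) :
    HasDerivAt (fun s => ev L (x s)) (dv4 L (x τ) v) τ := by
  induction L with
  | nil => simpa [dv4, der] using hasDerivAt_const τ (0 : ℂ)
  | cons t L ih =>
    simp only [ev_cons]
    refine hd_congr ((((((((h .i0).fun_pow t.a).fun_mul ((h .i1).fun_pow t.b)).fun_mul
      ((h .i2).fun_pow t.c)).fun_mul ((h .i3).fun_pow t.d)).const_mul (t.p + t.q * I)).div_const
      (2 ^ 64)).fun_add ih) (fun _ => rfl) ?_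
    simp only [dv4, I4.sumC, der_cons, Tm.dec, Tm.val, Nat.sub_eq, Int.mul_def]
    push_cast
    ring

lemma ev_lam (σ : ℕ) (L : List Tm) (x : I4 → ℂ) : ev (lam σ L) x = 2 * (ev (der .i0 L) x * x .i0)
    - 2 * (ev (der .i1 L) x * x .i1) - ev (der .i2 L) x * x .i2 + ev (der .i3 L) x * x .i3
    + σ * ev L x := by
  induction L with
  | nil => simp [lam, der]
  | cons t L ih =>
    have e : ∀ (y : ℂ) (n : ℕ), n * y ^ (n - 1) * y = n * y ^ n := fun y n => by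
      cases n <;> simp [pow_succ, mul_assoc]
    have h : ev (lam σ (t :: L)) x = (t.sm (t.fr σ)).val x / 2 ^ 64 + ev (lam σ L) x := by
      rw [lam]
      cases h : Nat.beq (t.fr σ).natAbs 0
      · exact ev_cons ..
      · simp [Tm.sm, Tm.val, Int.natAbs_eq_zero.1 (Nat.eq_of_beq_eq_true h)]
    simp only [h, ih, der_cons, ev_cons, Tm.dec, Tm.val, Tm.sm, Tm.fr, Nat.sub_eq, Int.mul_def,
      Int.subNatNat_eq_coe, Nat.add_eq, Nat.mul_eq]
    push_cast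
    linear_combination (-(t.p + t.q * I) / 2 ^ 64) * (
      2 * x .i1 ^ t.b * x .i2 ^ t.c * x .i3 ^ t.d * e (x .i0) t.a
      - 2 * x .i0 ^ t.a * x .i2 ^ t.c * x .i3 ^ t.d * e (x .i1) t.b
      - x .i0 ^ t.a * x .i1 ^ t.b * x .i3 ^ t.d * e (x .i2) t.c
      + x .i0 ^ t.a * x .i1 ^ t.b * x .i2 ^ t.c * e (x .i3) t.d)

/-- The point with coordinates `u, conj u, w, conj w`. -/
def pt4 (u w : ℂ) : I4 → ℂ
  | .i0 => u
  | .i1 => (starRingEnd ℂ) u
  | .i2 => w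
  | .i3 => (starRingEnd ℂ) w

lemma ev_cj (L : List Tm) (u w : ℂ) : ev (cj L) (pt4 u w) = (starRingEnd ℂ) (ev L (pt4 u w)) := by
  induction L with
  | nil => simp [cj]
  | cons t L ih =>
    rw [cj, List.map_cons, ← cj, ev_cons, ev_cons, ih]
    simp only [Tm.val, Tm.cj, pt4, map_ofNat, show ∀ a, Int.neg a = -a from fun _ => rfl, map_add,
      map_mul, map_div₀, map_pow, conj_conj, conj_I, map_intCast]
    push_cast
    ring

lemma nm_le (p q : ℤ) : ‖(p + q * I : ℂ)‖ ≤ (Nat.add p.natAbs q.natAbs : ℕ) := by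
  refine (norm_add_le _ _).trans_eq ?_
  simp [Nat.cast_natAbs]

lemma ev_le (π : P4) {l : ℕ} {L : List Tm} (h : ∀ t ∈ L, l ≤ t.dg) :
    ‖ev L π.x‖ * 2 ^ 64 ≤ n0 L * π.t ^ l := by
  induction L with
  | nil => simp [n0]
  | cons t L ih =>
    have a1 := ih fun u hu => h u (List.mem_cons_of_mem _ hu)
    have a2 : ‖t.val π.x‖ ≤ t.nm * π.t ^ l := by
      rw [Tm.val, norm_mul]
      exact mul_le_mul (nm_le _ _) ((π.mon_le ..).trans (pow_le_pow_of_le_one π.t0 π.t1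
        (h t List.mem_cons_self))) (norm_nonneg _) (Nat.cast_nonneg _)
    have a3 := norm_add_le (t.val π.x / 2 ^ 64) (ev L π.x)
    rw [norm_div, norm_pow, Complex.norm_two] at a3
    rw [ev_cons, n0, Nat.add_eq, Nat.cast_add]
    linarith

lemma wf_iff {l : ℕ} {L : List Tm} (h : wf l L = true) : ∀ t ∈ L, l ≤ t.dg ∧ t.dg ≤ 11 := by
  induction L with
  | nil => simp
  | cons t L ih =>
    simp only [wf, Bool.and_eq_true, Nat.ble_eq] at h
    intro u hu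
    rcases List.mem_cons.1 hu with rfl | hu
    exacts [⟨h.1, h.2.1⟩, ih h.2.2 u hu]

lemma dv4_le (L : List Tm) {x v : I4 → ℂ} {τ : ℝ} (hx : ∀ i, ‖x i‖ ≤ 1) (hv : ∀ i, ‖v i‖ ≤ τ) :
    ‖dv4 L x v‖ ≤ n1 L / 2 ^ 64 * τ := by
  rw [n1, s4_cast, sum_div, sum_mul]
  refine norm_sum_le_of_le _ fun i _ => ?_
  have := ev_le ⟨x, 1, zero_le_one, le_rfl, hx⟩ (l := 0) (L := der i L) fun _ _ => Nat.zero_le _
  rw [norm_mul]
  refine mul_le_mul ?_ (hv i) (norm_nonneg _) (by positivity)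
  rw [le_div_iff₀ (by positivity)]
  simpa using this

lemma seg4 {x v : I4 → ℂ} (hx : ∀ i, ‖x i‖ ≤ 1) (hy : ∀ i, ‖x i + v i‖ ≤ 1) {s : ℝ}
    (hs : s ∈ Set.Icc (0 : ℝ) 1) (i : I4) :
    ‖x i + s * v i‖ ≤ 1 ∧ HasDerivAt (fun s : ℝ => x i + s * v i) (v i) s := by
  refine ⟨?_, by simpa using ((hasDerivAt_id s).ofReal_comp.mul_const (v i)).const_add (x i)⟩
  have := norm_add_le (((1 - s : ℝ) : ℂ) * x i) (s * (x i + v i))
  rw [norm_mul, norm_mul, norm_real, norm_real, Real.norm_of_nonneg hs.1,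
    Real.norm_of_nonneg (sub_nonneg.2 hs.2), show ((1 - s : ℝ) : ℂ) * x i + s * (x i + v i)
      = x i + s * v i by push_cast; ring] at this
  nlinarith [hx i, hy i, hs.1, hs.2]

lemma ev_lip (L : List Tm) {x v : I4 → ℂ} {τ : ℝ} (hx : ∀ i, ‖x i‖ ≤ 1)
    (hy : ∀ i, ‖x i + v i‖ ≤ 1) (hv : ∀ i, ‖v i‖ ≤ τ) {s : ℝ} (hs : s ∈ Set.Icc (0 : ℝ) 1) :
    ‖ev L (fun i => x i + s * v i) - ev L x‖ ≤ n1 L / 2 ^ 64 * τ * s := by
  simpa using i_tay (f := fun s : ℝ => ev L (fun i => x i + s * v i) - ev L x)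
    (K := n1 L / 2 ^ 64 * τ) 0 (by simp) (fun s hs => ⟨(ev_der L fun i =>
      (seg4 hx hy hs i).2).sub_const _, by
      simpa using dv4_le L (fun i => (seg4 hx hy hs i).1) hv⟩) s hs

lemma ev_sec (L : List Tm) {x v : I4 → ℂ} {τ : ℝ} (hx : ∀ i, ‖x i‖ ≤ 1)
    (hy : ∀ i, ‖x i + v i‖ ≤ 1) (hv : ∀ i, ‖v i‖ ≤ τ) :
    ‖ev L (fun i => x i + v i) - ev L x - dv4 L x v‖ ≤ n2 L / 2 ^ 65 * τ ^ 2 := by
  have τ0 := (norm_nonneg _).trans (hv .i0)
  simpa using i_tay (f := fun s : ℝ => ev L (fun i => x i + s * v i) - ev L x - s * dv4 L x v)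
    (K := n2 L / 2 ^ 65 * τ ^ 2) 1 (by simp) (fun s hs => ⟨((ev_der L fun i =>
      (seg4 hx hy hs i).2).sub_const _).fun_sub
        ((hasDerivAt_id s).ofReal_comp.mul_const (dv4 L x v)), by
      rw [ofReal_one, one_mul, dv4, dv4, ← sum_sub_distrib]
      refine (norm_sum_le_of_le _ fun i _ => ?_ : _ ≤ ∑ i, n1 (der i L) / 2 ^ 64 * τ * s * τ).trans_eq ?_
      · rw [← sub_mul, norm_mul]
        exact mul_le_mul (ev_lip _ hx hy hv hs) (hv i) (norm_nonneg _)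
          (by have := hs.1; positivity)
      · rw [n2, s4_cast, I4.sum, I4.sum]; push_cast; ring⟩) 1 ⟨zero_le_one, le_rfl⟩

/-! Conversion into a model. -/

def kb (g : Tm → ℕ) (m : ℕ) : List Tm → ℕ
  | [] => 0
  | t :: L => cond (Nat.beq t.dg m) (Nat.add (Nat.shiftLeft (g t) (Nat.mul 160
      (Nat.add (Nat.add t.a (Nat.mul 12 t.b)) (Nat.mul 144 t.c)))) (kb g m L)) (kb g m L)
def kr (g : Tm → ℕ) (L : List Tm) : ℕ := mkN (Nat.mul 160 1728) (fun m => kb g m L) 12 0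
def nb (g : Tm → ℤ) : List Tm → ℕ
  | [] => 0
  | t :: L => Nat.add (g t).natAbs (nb g L)
def nw (g : Tm → ℤ) : List Tm → ℕ
  | [] => 0
  | t :: L => Nat.add (Nat.shiftLeft (g t).natAbs (Nat.mul 5 t.dg)) (nw g L)
def ofR (g : Tm → ℤ) (L : List Tm) : RT :=
  RT.add ⟨kr (fun t => (g t).toNat) L, nb g L, nw g L, 0⟩
    (RT.neg ⟨kr (fun t => (Int.neg (g t)).toNat) L, 0, 0, 0⟩)

lemma mkN_sum (B : ℕ) (f : ℕ → ℕ) (k i : ℕ) :
    mkN B f k i = ∑ j ∈ range k, f (i + j) * (2 ^ B) ^ j := by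
  induction k generalizing i with
  | zero => rfl
  | succ k ih =>
    rw [mkN_succ, ih, sum_range_succ', mul_sum, add_comm]
    simp only [add_zero, pow_zero, mul_one, add_left_inj]
    exact sum_congr rfl fun j _ => by rw [show i + 1 + j = i + (j + 1) by ring]; ring

lemma kr_gen (B : ℕ) (g : Tm → ℕ) (t : Tm) (L : List Tm) (h : t.dg ≤ 11) :
    mkN B (fun m => kb g m (t :: L)) 12 0 = g t * (2 ^ 160) ^ (t.a + 12 * t.b + 144 * t.c)
      * (2 ^ B) ^ t.dg + mkN B (fun m => kb g m L) 12 0 := by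
  have e : ∀ m, kb g m (t :: L) = (if t.dg = m then g t * (2 ^ 160) ^ (t.a + 12 * t.b + 144 * t.c)
      else 0) + kb g m L := fun m => by
    rw [kb]
    cases h : Nat.beq t.dg m
    · rw [if_neg (Nat.ne_of_beq_eq_false h), zero_add]; rfl
    · rw [if_pos (Nat.eq_of_beq_eq_true h), ← pow_mul]
      simp [Nat.shiftLeft_eq]
  simp only [mkN_sum, e, zero_add, add_mul, sum_add_distrib, ite_mul, zero_mul, sum_ite_eq,
    mem_range, Nat.lt_succ_iff, h, if_true]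

lemma kr_cons (g : Tm → ℕ) (t : Tm) (L : List Tm) (h : t.dg ≤ 11) :
    (kr g (t :: L) : ℤ) = g t * ((2 ^ 160 : ℕ) : ℤ) ^ idx t.a t.b t.c t.d + kr g L := by
  rw [kr, kr_gen _ _ _ _ h, ← kr, Nat.mul_eq, pow_mul, ← pow_mul (2 ^ 160), mul_assoc, ← pow_add]
  simp only [Nat.cast_add, Nat.cast_mul, Nat.cast_pow (2 ^ 160)]
  rfl

lemma ofR_ok (π : P4) {l : ℕ} (g : Tm → ℤ) {L : List Tm} (h : ∀ t ∈ L, l ≤ t.dg ∧ t.dg ≤ 11) :
    RR π 0 l (ofR g L) (L.map fun t => (g t : ℂ)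
      * (π.x .i0 ^ t.a * π.x .i1 ^ t.b * π.x .i2 ^ t.c * π.x .i3 ^ t.d)).sum := by
  have key : evX (2 ^ 160 : ℕ) (L.map fun t => (g t, idx t.a t.b t.c t.d))
      = kr (fun t => (g t).toNat) L - kr (fun t => (Int.neg (g t)).toNat) L ∧
      nrm (L.map fun t => (g t, idx t.a t.b t.c t.d)) = nb g L ∧
      nrw (L.map fun t => (g t, idx t.a t.b t.c t.d)) = nw g L ∧
      sc π.φ (L.map fun t => (g t, idx t.a t.b t.c t.d)) = (L.map fun t => (g t : ℂ)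
      * (π.x .i0 ^ t.a * π.x .i1 ^ t.b * π.x .i2 ^ t.c * π.x .i3 ^ t.d)).sum := by
    induction L with
    | nil => simp [kr, kb, mkN_sum, nb, nw]
    | cons t L ih =>
      obtain ⟨a1, a2, a3, a4⟩ := ih fun u hu => h u (List.mem_cons_of_mem _ hu)
      have b := (h t List.mem_cons_self).2
      obtain ⟨b1, b2⟩ := φ_idx (π := π) (a := t.a) (b := t.b) (c := t.c) (d := t.d) b
      simp only [List.map_cons, evX_cons, nrm_cons, nrw_cons, sc_cons, a1, a2, a3, a4, b1, b2,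
        kr_cons _ _ _ b, nb, nw, List.sum_cons, Nat.add_eq, Nat.mul_eq, Nat.shiftLeft_eq',
        Nat.shiftLeft_eq, pow_mul, Tm.dg, and_true, true_and]
      refine ⟨?_, rfl⟩
      have := Int.toNat_sub_toNat_neg (g t)
      rw [show Int.neg (g t) = -g t from rfl]
      linear_combination (-((2 ^ 160 : ℕ) : ℤ) ^ idx t.a t.b t.c t.d) * this
  have h2 : ∀ a, Nat.land a hMk ≤ hMd := fun a => by
    rw [land_mk]; exact (Nat.mod_lt _ md_pos).le
  refine ⟨_, ?_, fun u hu => ?_, key.2.1.le, key.2.2.1.le, by simp [key.2.2.2, ofR, RT.add, RT.neg]⟩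
  · refine dv ((land_eq (kr (fun t => (Int.neg (g t)).toNat) L)).sub (dvd_refl _)) ?_
    simp only [key.1, ofR, RT.add, RT.neg, Nat.add_eq, Nat.sub_eq, Nat.cast_add, Nat.cast_sub (h2 _)]
    ring
  · obtain ⟨t, ht, rfl⟩ := List.mem_map.1 hu
    exact ⟨_, _, _, _, rfl, h t ht⟩

/-! Complex balls with 64 binary places. -/

structure CB where
  p : ℤ
  q : ℤ
  r : ℕ

namespace CB
def nm (k : CB) : ℕ := Nat.add k.p.natAbs k.q.natAbs
def bd (k : CB) : ℕ := Nat.add k.nm k.r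
def add (k m : CB) : CB := ⟨Int.add k.p m.p, Int.add k.q m.q, Nat.add k.r m.r⟩
def neg (k : CB) : CB := ⟨Int.neg k.p, Int.neg k.q, k.r⟩
def sub (k m : CB) : CB := k.add m.neg
def cj (k : CB) : CB := ⟨k.p, Int.neg k.q, k.r⟩
def mi (k : CB) : CB := ⟨Int.neg k.q, k.p, k.r⟩
def re (k : CB) : CB := ⟨k.p, 0, k.r⟩
def im (k : CB) : CB := ⟨k.q, 0, k.r⟩
def mul (k m : CB) : CB :=
  ⟨Int.shiftRight (Int.sub (Int.mul k.p m.p) (Int.mul k.q m.q)) 64,
    Int.shiftRight (Int.add (Int.mul k.p m.q) (Int.mul k.q m.p)) 64,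
    Nat.add (Nat.shiftRight (Nat.add (Nat.mul k.nm m.r) (Nat.mul k.r m.bd)) 64) 3⟩
/-- The ball of a Gaussian rational. -/
def rat (a b : ℤ) (n : ℕ) : CB := ⟨a * 2 ^ 64 / n, b * 2 ^ 64 / n, 2⟩
/-- The centre. -/
noncomputable def ce (k : CB) : ℂ := (k.p + k.q * I) / 2 ^ 64
def c0 (k : CB) : CB := ⟨k.p, k.q, 0⟩

def In (k : CB) (z : ℂ) : Prop := ‖z * 2 ^ 64 - (k.p + k.q * I)‖ ≤ k.r

variable {k m : CB} {z w : ℂ}

lemma In.congr (h : k.In z) (e : z = w) : k.In w := e ▸ h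

lemma in_ce (k : CB) : k.c0.In k.ce := by simp [In, ce, c0]

lemma In.ce (h : k.In z) : ‖z - k.ce‖ * 2 ^ 64 ≤ k.r := by
  refine le_of_eq_of_le ?_ h
  rw [← Complex.norm_two, ← norm_pow, ← norm_mul, CB.ce, sub_mul, div_mul_cancel₀ _ (by norm_num)]

lemma In.le (h : k.In z) : ‖z‖ * 2 ^ 64 ≤ k.bd := by
  have := norm_add_le_of_le h (nm_le k.p k.q)
  rw [sub_add_cancel, norm_mul, norm_pow, Complex.norm_two] at this
  rw [bd, nm, Nat.add_eq (x := Nat.add _ _), Nat.cast_add]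
  linarith

lemma In.add (h : k.In z) (h' : m.In w) : (k.add m).In (z + w) :=
  le_of_eq_of_le (congrArg _ (by simp [CB.add]; ring))
    ((norm_add_le_of_le h h').trans_eq (by simp [CB.add]))

lemma In.neg (h : k.In z) : k.neg.In (-z) :=
  le_of_eq_of_le ((norm_neg _).symm.trans (congrArg _ (by
    simp only [CB.neg, show ∀ a, Int.neg a = -a from fun _ => rfl]; push_cast; ring))) h

lemma In.sub (h : k.In z) (h' : m.In w) : (k.sub m).In (z - w) :=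
  (h.add h'.neg).congr (by ring)

lemma In.cj (h : k.In z) : k.cj.In ((starRingEnd ℂ) z) :=
  le_of_eq_of_le ((norm_conj _).symm.trans (congrArg _ (by
    simp [CB.cj, show ∀ a, Int.neg a = -a from fun _ => rfl, map_ofNat]))) h

lemma In.mi (h : k.In z) : k.mi.In (I * z) := by
  refine le_of_eq_of_le ?_ h
  rw [← one_mul ‖_ - (k.p + k.q * I)‖, ← norm_I, ← norm_mul]
  simp only [CB.mi, show ∀ a, Int.neg a = -a from fun _ => rfl]
  congr 1
  push_cast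
  linear_combination (k.q : ℂ) * I_sq

lemma In.re (h : k.In z) : k.re.In z.re := by
  refine le_trans ?_ ((abs_re_le_norm _).trans h)
  rw [← Real.norm_eq_abs, ← norm_real]
  norm_num [CB.re]

lemma In.im (h : k.In z) : k.im.In z.im := by
  refine le_trans ?_ ((abs_im_le_norm _).trans h)
  rw [← Real.norm_eq_abs, ← norm_real]
  norm_num [CB.im]

lemma flo (a : ℤ) {n : ℤ} (h : 0 < n) : |(a : ℝ) / n - (a / n : ℤ)| ≤ 1 := by
  have h1 : ((a / n * n : ℤ) : ℝ) ≤ a := by exact_mod_cast Int.ediv_mul_le a h.ne'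
  have h2 : (a : ℝ) < ((a / n + 1) * n : ℤ) := by exact_mod_cast Int.lt_ediv_add_one_mul_self a h
  have h3 : (0 : ℝ) < n := by exact_mod_cast h
  push_cast at h1 h2
  rw [abs_le, le_sub_iff_add_le, sub_le_iff_le_add, le_div_iff₀ h3, div_le_iff₀ h3]
  constructor <;> nlinarith

lemma flo2 (a b : ℤ) {n : ℤ} (h : 0 < n) :
    ‖((a + b * I) / n - ((a / n : ℤ) + (b / n : ℤ) * I) : ℂ)‖ ≤ 2 := by
  have := norm_add_le ((((a : ℝ) / n - (a / n : ℤ) : ℝ)) : ℂ)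
    ((((b : ℝ) / n - (b / n : ℤ) : ℝ) : ℂ) * I)
  rw [norm_mul, norm_I, norm_real, norm_real, Real.norm_eq_abs, Real.norm_eq_abs] at this
  refine le_of_eq_of_le (congrArg _ ?_) (this.trans (by linarith [flo a h, flo b h]))
  simp only [ofReal_sub, ofReal_div, ofReal_intCast]
  ring

lemma in_rat (a b : ℤ) {n : ℕ} (h : 0 < n) : (rat a b n).In ((a + b * I) / n) :=
  le_of_eq_of_le (congrArg _ (by simp only [rat]; push_cast; ring))
    ((flo2 (a * 2 ^ 64) (b * 2 ^ 64) (n := n) (by exact_mod_cast h)).trans_eq (by simp [rat]))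

lemma In.mul (h : k.In z) (h' : m.In w) : (k.mul m).In (z * w) := by
  have a1 := flo2 (k.p * m.p - k.q * m.q) (k.p * m.q + k.q * m.p) (n := 2 ^ 64) (by norm_num)
  have a2 : ‖(k.p + k.q * I) * (w * 2 ^ 64 - (m.p + m.q * I))‖ ≤ k.nm * m.r := by
    rw [norm_mul]; exact mul_le_mul (nm_le _ _) h' (norm_nonneg _) (Nat.cast_nonneg _)
  have a3 : ‖(z * 2 ^ 64 - (k.p + k.q * I)) * (w * 2 ^ 64)‖ ≤ k.r * m.bd := by
    rw [norm_mul, norm_mul, norm_pow, Complex.norm_two]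
    exact mul_le_mul h h'.le (by positivity) (Nat.cast_nonneg _)
  have a4 := le_sh (Nat.add (Nat.mul k.nm m.r) (Nat.mul k.r m.bd)) 64
  have a5 : ‖((k.p + k.q * I) * (w * 2 ^ 64 - (m.p + m.q * I))
      + (z * 2 ^ 64 - (k.p + k.q * I)) * (w * 2 ^ 64)) / 2 ^ 64‖
      ≤ (k.nm * m.r + k.r * m.bd) / 2 ^ 64 := by
    rw [norm_div, norm_pow, Complex.norm_two]
    gcongr
    exact norm_add_le_of_le a2 a3
  have a6 := norm_add_le_of_le a5 a1
  have e : ∀ a : ℤ, Int.shiftRight a 64 = a / 2 ^ 64 := fun a => Int.shiftRight_eq_div_pow a 64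
  simp only [In, CB.mul, e, Int.mul_def, Int.add_def, show ∀ a b, Int.sub a b = a - b from
    fun _ _ => rfl, Nat.add_eq, Nat.mul_eq] at a4 ⊢
  refine le_of_eq_of_le (congrArg _ ?_) (a6.trans ?_)
  · generalize ((k.p * m.p - k.q * m.q) / 2 ^ 64 : ℤ) = A, ((k.p * m.q + k.q * m.p) / 2 ^ 64 : ℤ) = B
    push_cast
    linear_combination (k.q * m.q / 2 ^ 64 : ℂ) * I_sq
  · push_cast at a4 ⊢
    linarith

end CB

def pw (x : CB) : ℕ → CB
  | 0 => ⟨2 ^ 64, 0, 0⟩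
  | n + 1 => (pw x n).mul x
/-- Evaluation in ball arithmetic. -/
def evB (x : I4 → CB) : List Tm → CB
  | [] => ⟨0, 0, 0⟩
  | t :: L => ((CB.mk t.p t.q 0).mul (((pw (x .i0) t.a).mul (pw (x .i1) t.b)).mul
      ((pw (x .i2) t.c).mul (pw (x .i3) t.d)))).add (evB x L)

lemma pw_in {x : CB} {z : ℂ} (h : x.In z) (n : ℕ) : (pw x n).In (z ^ n) := by
  induction n with
  | zero => norm_num [pw, CB.In]
  | succ n ih => exact (ih.mul h).congr (pow_succ _ _).symm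

lemma evB_in {x : I4 → CB} {z : I4 → ℂ} (h : ∀ i, (x i).In (z i)) (L : List Tm) :
    (evB x L).In (ev L z) := by
  induction L with
  | nil => simp [evB, CB.In]
  | cons t L ih =>
    exact (((CB.in_ce ⟨t.p, t.q, 0⟩).mul (((pw_in (h _) _).mul (pw_in (h _) _)).mul
      ((pw_in (h _) _).mul (pw_in (h _) _)))).add ih).congr (by
        rw [ev_cons, Tm.val, CB.ce]; ring)

/-! Complex models. -/

structure CT where
  x : RT
  y : RT

def zsm (a : ℤ) (p : RT) : RT :=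
  match a with
  | .ofNat n => p.smul n
  | .negSucc n => (p.smul (Nat.succ n)).neg

namespace CT
def ofL (L : List Tm) : CT := ⟨ofR Tm.p L, ofR Tm.q L⟩
def add (p q : CT) : CT := ⟨p.x.add q.x, p.y.add q.y⟩
def neg (p : CT) : CT := ⟨p.x.neg, p.y.neg⟩
def sub (p q : CT) : CT := p.add q.neg
def smul (n : ℕ) (p : CT) : CT := ⟨p.x.smul n, p.y.smul n⟩
def err (n : ℕ) (p : CT) : CT := ⟨p.x.err n, p.y⟩
def bd (p : CT) : ℕ := Nat.add p.x.bd p.y.bd
def tr (p : CT) : CT := ⟨p.x.tr, p.y.tr⟩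
def mul (p q : CT) : CT := ⟨(p.x.mul q.x).add (p.y.mul q.y).neg, (p.x.mul q.y).add (p.y.mul q.x)⟩
def cm (k : CB) (p : CT) : CT :=
  err (Nat.mul k.r p.bd) ⟨(zsm k.p p.x).add (zsm k.q p.y).neg, (zsm k.p p.y).add (zsm k.q p.x)⟩
def cst (k : CB) : CT := (ofL [⟨0, 0, 0, 0, k.p, k.q⟩]).err k.r
end CT

/-- The complex model `k` represents `z`. -/
def RC (π : P4) (e l : ℕ) (k : CT) (z : ℂ) : Prop :=
  ∃ a b, RR π e l k.x a ∧ RR π e l k.y b ∧ z = a + b * I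

lemma RR.zsm {π : P4} {e l : ℕ} {p : RT} {a : ℂ} (n : ℤ) (h : RR π e l p a) :
    RR π e l (zsm n p) (n * a) := by
  cases n
  · exact (h.smul _).congr (by simp)
  · exact (h.smul _).neg.congr (by simp [Int.negSucc_eq]; ring)

namespace RC
variable {π : P4} {e f l l' : ℕ} {p q : CT} {z w : ℂ}

lemma congr (h : RC π e l p z) (h1 : z = w) : RC π e l p w := h1 ▸ h

lemma mono (h : RC π e l p z) (h1 : l' ≤ l) : RC π e l' p z :=
  let ⟨a, b, h2, h3, h4⟩ := h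
  ⟨a, b, h2.mono h1, h3.mono h1, h4⟩

lemma scale (h : RC π e l p z) (h1 : w * 2 ^ f = z * 2 ^ e) : RC π f l p w := by
  obtain ⟨a, b, h2, h3, h4⟩ := h
  refine ⟨a * 2 ^ e / 2 ^ f, b * 2 ^ e / 2 ^ f, h2.scale (by field_simp), h3.scale (by field_simp), ?_⟩
  field_simp
  rw [h1, h4, mul_comm]

lemma ofL (π : P4) {L : List Tm} (h : wf l L = true) : RC π 64 l (CT.ofL L) (ev L π.x) := by
  refine scale (e := 0) ⟨_, _, ofR_ok π Tm.p (wf_iff h), ofR_ok π Tm.q (wf_iff h), rfl⟩ ?_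
  rw [ev, div_mul_cancel₀ _ (by norm_num), pow_zero, mul_one]
  clear h
  induction L with
  | nil => simp
  | cons t L ih => simp only [List.map_cons, List.sum_cons, ih]; rw [Tm.val]; ring

lemma add (hp : RC π e l p z) (hq : RC π e l q w) : RC π e l (p.add q) (z + w) :=
  let ⟨_, _, h2, h3, h4⟩ := hp
  let ⟨_, _, k2, k3, k4⟩ := hq
  ⟨_, _, h2.add k2, h3.add k3, by rw [h4, k4]; ring⟩

lemma neg (hp : RC π e l p z) : RC π e l p.neg (-z) :=
  let ⟨_, _, h2, h3, h4⟩ := hp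
  ⟨_, _, h2.neg, h3.neg, by rw [h4]; ring⟩

lemma sub (hp : RC π e l p z) (hq : RC π e l q w) : RC π e l (p.sub q) (z - w) :=
  (hp.add hq.neg).congr (by ring)

lemma smul (n : ℕ) (hp : RC π e l p z) : RC π e l (p.smul n) (n * z) :=
  let ⟨_, _, h2, h3, h4⟩ := hp
  ⟨_, _, h2.smul n, h3.smul n, by rw [h4]; ring⟩

lemma err {n : ℕ} (hp : RC π e l p z) (h : ‖w - z‖ * 2 ^ e ≤ n * π.t ^ l) :
    RC π e l (p.err n) w :=
  let ⟨a, b, h2, h3, h4⟩ := hp
  ⟨a + (w - z), b, h2.err (by rwa [add_sub_cancel_left]), h3, by rw [h4]; ring⟩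

lemma le (hp : RC π e l p z) : ‖z‖ * 2 ^ e ≤ p.bd * π.t ^ l := by
  obtain ⟨a, b, h2, h3, rfl⟩ := hp
  have := norm_add_le a (b * I)
  rw [norm_mul, norm_I, mul_one] at this
  have h4 := mul_le_mul_of_nonneg_right this (show (0 : ℝ) ≤ 2 ^ e by positivity)
  rw [CT.bd, Nat.add_eq, Nat.cast_add]
  linarith [h2.le, h3.le]

lemma tr (hp : RC π (e + 64) l p z) : RC π e l p.tr z :=
  let ⟨a, b, h2, h3, h4⟩ := hp
  ⟨a, b, h2.tr, h3.tr, h4⟩

lemma mul (hp : RC π e l p z) (hq : RC π f l' q w) : RC π (e + f) (l + l') (p.mul q) (z * w) :=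
  let ⟨a, b, h2, h3, h4⟩ := hp
  let ⟨c, d, k2, k3, k4⟩ := hq
  ⟨_, _, (h2.mul k2).add (h3.mul k3).neg, (h2.mul k3).add (h3.mul k2), by
    rw [h4, k4]; linear_combination b * d * I_sq⟩

lemma cm {k : CB} (hk : k.In w) (hp : RC π e l p z) : RC π (e + 64) l (p.cm k) (w * z) := by
  have h1 := hp.le
  obtain ⟨a, b, h2, h3, h4⟩ := hp
  refine err (z := k.ce * z) (scale (e := e) ⟨_, _, (h2.zsm k.p).add (h3.zsm k.q).neg,
    (h3.zsm k.p).add (h2.zsm k.q), rfl⟩ ?_) ?_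
  · rw [h4, CB.ce, pow_add]
    linear_combination (k.q * b * 2 ^ e) * I_sq
  · rw [← sub_mul, norm_mul, Nat.mul_eq, Nat.cast_mul, mul_assoc (k.r : ℝ)]
    refine le_of_eq_of_le (by ring) (mul_le_mul hk.ce h1 (by positivity) (Nat.cast_nonneg _))

lemma cst (π : P4) {k : CB} (hk : k.In w) : RC π 64 0 (CT.cst k) w :=
  (ofL π rfl).err (by simpa [ev_cons, Tm.val, CB.ce] using hk.ce)

end RC

end Pool.Agent.Lib.MP_6e7c44_mp.RS
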