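import Pool.Agent.Lib.MP_6e7c44_mp.RS.Lin
import Pool.Agent.Lib.MP_6e7c44_mp.RS.Poly

/-! The nonlinear normal form: data, checker and soundness. -/

set_option autoImplicit false

open Set Complex

namespace Pool.Agent.Lib.MP_6e7c44_mp.RS

open LA

/-- The data of the normal form. -/
structure Dt where
  w : ℕ
  bp : ℤ
  bq : ℤ
  wp : ℤ
  wq : ℤ
  F1 : List Tm
  F2 : List Tm
  Jh : List Tm
  Xh : List Tm

def rq (a : ℤ) (n : ℕ) : CB := CB.rat a 0 n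
def bC : CB := ⟨0, 15975348984942515101, 1⟩
def bW : CB := ⟨8249634742471189717, 0, 1⟩
def bNu (j : Bool) : CB := cond j (bW.add bW) bW.neg
def bMp (j : Bool) : CB :=
  cond j ((rq 230 209).add ((rq 400 209).mul bW)) ((rq 170 209).sub ((rq 200 209).mul bW))
def bAl (j : Bool) : CB :=
  cond j (((rq 115 24).mul bW).sub (rq 5 3)).mi.neg (((rq 85 12).mul bW).add (rq 5 3)).mi.neg
def bE (j : Bool) : CB := cond j (bC.add (rq 1 2)) (bC.sub (rq 1 2))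
def sw : I4 → I4
  | .i0 => .i1
  | .i1 => .i0
  | .i2 => .i3
  | .i3 => .i2
def lin (k : I4 → CB) : CT := (CT.ofL [⟨1, 0, 0, 0, (k .i0).p, (k .i0).q⟩,
  ⟨0, 1, 0, 0, (k .i1).p, (k .i1).q⟩, ⟨0, 0, 1, 0, (k .i2).p, (k .i2).q⟩,
  ⟨0, 0, 0, 1, (k .i3).p, (k .i3).q⟩]).err (s4 fun i => (k i).r)
def hz (Q : CT) : List (ℤ × ℕ) → CT
  | [] => .cst ⟨0, 0, 0⟩
  | c :: l => (CT.cst (rq c.1 c.2)).add (Q.mul (hz Q l)).tr
def al4 (f : I4 → Bool) : Bool := f .i0 && (f .i1 && (f .i2 && f .i3))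

def alB : List Bool → Bool
  | [] => true
  | a :: l => a && alB l
lemma alB_cons {a : Bool} {l : List Bool} : alB (a :: l) = true ↔ a = true ∧ alB l = true :=
  Bool.and_eq_true_iff

namespace Dt
variable (d : Dt)
def bK : CB := ⟨Int.subNatNat (Nat.mul 16 d.w) (Nat.pow 2 63), 0, 128⟩
def bKa (j : Bool) : CB := ((rq 3 4).neg.add ((rq 3 1).mul (bC.mul d.bK))).mul (bMp j)
def n2 : ℕ := (d.bp * d.bp + d.bq * d.bq).toNat
def bb (j : Bool) : CB := cond j (.rat d.bp d.bq (2 ^ 32)) (rq 1536 1)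
def bA (j : Bool) : CB :=
  (bAl j).mul (cond j (.rat (d.bp * 2 ^ 32) (-d.bq * 2 ^ 32) d.n2) (rq 1 1536))
def bT (j : Bool) : CB := (d.bKa j).mul (d.bA j).cj
def bS : I4 → CB
  | .i0 => d.bA true
  | .i1 => (d.bT true).neg
  | .i2 => d.bA false
  | .i3 => (d.bT false).neg
def bP : I4 → CB
  | .i0 => (((bNu true).add (rq 1 1)).mul (d.bA true)).mi
  | .i1 => (((bNu true).sub (rq 1 1)).mul (d.bT true)).mi
  | .i2 => (((bNu false).add (rq 1 1)).mul (d.bA false)).mi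
  | .i3 => (((bNu false).sub (rq 1 1)).mul (d.bT false)).mi
def S : CT := lin d.bS
def Sb : CT := lin fun i => (d.bS (sw i)).cj
def SS : CT := (d.S.mul d.Sb).tr
def Q (j : Bool) : CT := ((d.S.cm (bE j).cj).add (d.Sb.cm (bE j))).tr.add d.SS
def H (j : Bool) : CT := ((((d.Q j).mul (d.Q j)).tr.mul (hz (d.Q j) [(15, 8), (-35, 16), (315, 128),
  (-693, 256), (3003, 1024), (-6435, 2048), (109395, 32768)])).tr).err (Nat.pow 2 22)
def Nn (j : Bool) (e : CB) (S : CT) : CT := (((((CT.cst e).add S).mul (d.H j)).smul 2).sub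
  (((d.SS.cm e).add ((d.Q j).mul S)).smul 3)).tr
def wt (j : Bool) : CB :=
  (cond j ((rq 1 2).add d.bK) ((rq 1 2).sub d.bK)).mul (rq 1 2).neg
def M : CT := (((d.Nn true (bE true) d.S).cm (d.wt true)).add
  ((d.Nn false (bE false) d.S).cm (d.wt false))).tr
def Mb : CT := (((d.Nn true (bE true).cj d.Sb).cm (d.wt true).cj).add
  ((d.Nn false (bE false).cj d.Sb).cm (d.wt false).cj)).tr
def G1 (j : Bool) : CT := ((d.M.cm (d.bb j)).sub (d.Mb.cm ((d.bb j).mul (d.bKa j)))).tr.err 1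
def G2 (j : Bool) : CT := ((d.Mb.cm (d.bb j).cj).sub (d.M.cm ((d.bb j).mul (d.bKa j)).cj)).tr.err 1
def G : I4 → CT
  | .i0 => d.G1 true
  | .i1 => d.G2 true
  | .i2 => d.G1 false
  | .i3 => d.G2 false
def L1 (L : List Tm) (i : I4) : CT := (CT.ofL (der i L)).mul (d.G i)
/-- The derivative along the vector field. -/
def LD (σ : ℕ) (L : List Tm) : CT := ((CT.ofL (lam σ L)).cm bW.mi).add
  (((d.L1 L .i0).add (d.L1 L .i1)).add ((d.L1 L .i2).add (d.L1 L .i3)))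
def wD (l σ : ℕ) (L : List Tm) : Bool := wf (l + 2) (lam σ L) && al4 fun i => wf l (der i L)
def Z1 : List Tm := ⟨1, 0, 0, 0, 2 ^ 64, 0⟩ :: d.F1
def Z2 : List Tm := ⟨0, 0, 1, 0, 2 ^ 64, 0⟩ :: d.F2
def JJ : List Tm := ⟨0, 0, 1, 1, 2 ^ 64, 0⟩ :: ⟨1, 1, 0, 0, -2 ^ 64, 0⟩ :: d.Jh
def XX : List Tm := ⟨1, 0, 2, 0, 2 ^ 63, 0⟩ :: ⟨0, 1, 0, 2, 2 ^ 63, 0⟩ :: d.Xh
def y1 : CT := .ofL d.Z1
def y2 : CT := .ofL d.Z2
def z1 : CT := .ofL (cj d.Z1)
def z2 : CT := .ofL (cj d.Z2)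
def c3 : CT := (d.LD 1 d.Z2).sub ((d.z1.mul d.z2).tr.cm (rq 97 100000).mi)
def c4 : CT := (((CT.ofL d.JJ).smul (Nat.pow 2 64)).sub (d.y2.mul d.z2)).add (d.y1.mul d.z1)
def c5 : CT := (((CT.ofL d.XX).smul (Nat.pow 2 65)).sub (d.y1.mul (d.y2.mul d.y2).tr)).sub
  (d.z1.mul (d.z2.mul d.z2).tr)
def lc (c a : ℕ) (k : CT) : Bool := Nat.ble (Nat.mul a k.tr.bd) (Nat.mul c (Nat.pow 2 64))
def wn : ℕ := Nat.add (Nat.mul d.wp.natAbs d.wp.natAbs) (Nat.mul d.wq.natAbs d.wq.natAbs)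
def okB (j : Bool) : Bool := Nat.ble (d.bb j).bd (Nat.pow 2 75) &&
  (Nat.ble (d.bKa j).bd (Nat.pow 2 66) && Nat.ble (d.Q j).bd (Nat.pow 2 59))
def okF (L : List Tm) : Bool := wf 2 L && (Nat.ble (n0 L) (Nat.pow 2 61) &&
  Nat.ble (n1 L) (Nat.pow 2 62))
def ok : Bool := alB [Nat.blt 0 d.n2, d.okB true, d.okB false, okF d.F1, okF d.F2,
  al4 fun i => Nat.ble (d.bS i).bd (Nat.pow 2 57) && Nat.ble (d.bP i).bd (Nat.pow 2 57),
  wf 3 d.Jh, wf 4 d.Xh, Nat.ble (n0 d.Jh) (Nat.pow 2 64), Nat.ble (n0 d.Xh) (Nat.pow 2 64),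
  wf 1 d.Z1, wf 1 d.Z2, wf 1 (cj d.Z1), wf 1 (cj d.Z2), wf 2 d.JJ, wf 3 d.XX,
  wD 1 0 d.JJ, wD 2 0 d.XX, wD 0 1 d.Z2,
  lc 1 125000000 (d.LD 0 d.JJ), lc 1 20000000 (d.LD 0 d.XX), lc 13 1000000 d.c3, lc 1 250 d.c4,
  lc 3 125 d.c5,
  Nat.ble (Nat.mul 156225001 (Nat.pow 2 64)) (Nat.mul 100000000 d.wn),
  Nat.ble (Nat.mul 100000000 d.wn) (Nat.mul 156275001 (Nat.pow 2 64))]

noncomputable section
def b (j : Bool) : ℂ := cond j ((d.bp + d.bq * I) / 2 ^ 32) 1536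
def w0 : ℂ := (d.wp + d.wq * I) / 2 ^ 32
variable (μ : Fin 3 → ℝ)
/-- The scaled coordinates of the linear normal form. -/
def uu (j : Bool) (z : Z3) : ℂ := d.b j * ell μ j (sz z) (pz z)
def xx (z : Z3) : I4 → ℂ := pt4 (d.uu μ true z) (d.uu μ false z)
def cA (j : Bool) : ℂ := al j / d.b j
def cT (j : Bool) : ℂ := ka μ j * (starRingEnd ℂ) (d.cA j)
def cS : I4 → ℂ
  | .i0 => d.cA true
  | .i1 => -d.cT μ true
  | .i2 => d.cA false
  | .i3 => -d.cT μ false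
def cP : I4 → ℂ
  | .i0 => I * ((nu true + 1) * d.cA true)
  | .i1 => I * ((nu true - 1) * d.cT μ true)
  | .i2 => I * ((nu false + 1) * d.cA false)
  | .i3 => I * ((nu false - 1) * d.cT μ false)
/-- The nonlinear part of the vector field. -/
def gg (j : Bool) (z : Z3) : ℂ := d.b j * (Nz μ (sz z) - ka μ j * (starRingEnd ℂ) (Nz μ (sz z))
  + ell μ j (-((z.1 - I) * sz z)) ((3 / 2 * (z.1.re : ℂ) - (z.1 - I)) * pz z))
def vv (z : Z3) : I4 → ℂ := pt4 (I * nu true * d.uu μ true z + d.gg μ true z)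
  (I * nu false * d.uu μ false z + d.gg μ false z)
end
end Dt

open CB

lemma al4_iff {f : I4 → Bool} : al4 f = true ↔ ∀ i, f i = true := by
  simp only [al4, Bool.and_eq_true]
  exact ⟨fun h i => by cases i <;> tauto, fun h => ⟨h _, h _, h _, h _⟩⟩

lemma in_rq (a : ℤ) (n : ℕ) [NeZero n] : (rq a n).In (a / n) :=
  (in_rat a 0 (NeZero.pos n)).congr (by simp)

lemma sq_in {x N : ℝ} (hx : 0 ≤ x) (h0 : 0 ≤ N) (h1 : (N - 1) ^ 2 ≤ x ^ 2 * (2 ^ 64) ^ 2)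
    (h2 : x ^ 2 * (2 ^ 64) ^ 2 ≤ (N + 1) ^ 2) : ‖((x * 2 ^ 64 - N : ℝ) : ℂ)‖ ≤ 1 := by
  rw [← mul_pow] at h1 h2
  rw [norm_real, Real.norm_eq_abs, abs_le]
  constructor <;> linarith [(abs_le_of_sq_le_sq' h1 (by positivity)).2,
    (abs_le_of_sq_le_sq' h2 (by positivity)).2]

lemma in_W : bW.In om := by
  have h2 : om ^ 2 = 1 / 5 := by rw [om, div_pow, Real.sq_sqrt (by norm_num)]; norm_num
  simpa [In, bW] using sq_in (N := 8249634742471189717) om_le.1.le (by norm_num)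
    (by rw [h2]; norm_num) (by rw [h2]; norm_num)

lemma in_C : bC.In cL := by
  have h2 : (√3 / 2 : ℝ) ^ 2 = 3 / 4 := by rw [div_pow, Real.sq_sqrt (by norm_num)]; norm_num
  have : (CB.mk 15975348984942515101 0 1).In (√3 / 2 : ℝ) := by
    simpa [In] using sq_in (N := 15975348984942515101) (x := √3 / 2) (by positivity) (by norm_num)
      (by rw [h2]; norm_num) (by rw [h2]; norm_num)
  exact this.mi

lemma in_nu (j : Bool) : (bNu j).In (nu j) := by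
  cases j
  exacts [in_W.neg, (in_W.add in_W).congr (by rw [nu]; ring)]

lemma in_mp (j : Bool) : (bMp j).In (mp j) := by
  cases j
  exacts [((in_rq 170 209).sub ((in_rq 200 209).mul in_W)).congr (by simp [mp]),
    ((in_rq 230 209).add ((in_rq 400 209).mul in_W)).congr (by simp [mp])]

lemma in_al (j : Bool) : (bAl j).In (al j) := by
  cases j
  exacts [(((in_rq 85 12).mul in_W).add (in_rq 5 3)).mi.neg.congr (by simp [al]),
    (((in_rq 115 24).mul in_W).sub (in_rq 5 3)).mi.neg.congr (by simp [al])]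

/-- The two vertices seen from the apex. -/
noncomputable def ee (j : Bool) : ℂ := cond j (cL + 1 / 2) (cL - 1 / 2)

lemma in_e (j : Bool) : (bE j).In (ee j) := by
  cases j
  exacts [(in_C.sub (in_rq 1 2)).congr (by simp [ee]), (in_C.add (in_rq 1 2)).congr (by simp [ee])]

lemma ee_norm (j : Bool) : ‖ee j‖ = 1 := by
  cases j
  exacts [i_n2, i_n1]

lemma bl {m n : ℕ} (h : Nat.ble m n = true) : (m : ℝ) ≤ n := Nat.cast_le.2 (Nat.le_of_ble_eq_true h)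

lemma CB.In.le' {k : CB} {z : ℂ} {n : ℕ} (h : k.In z) (h1 : Nat.ble k.bd (Nat.pow 2 n) = true) :
    ‖z‖ * 2 ^ 64 ≤ 2 ^ n := h.le.trans (by simpa using bl h1)

lemma lin_ok (π : P4) {k : I4 → CB} {c : I4 → ℂ} (h : ∀ i, (k i).In (c i)) :
    RC π 64 1 (lin k) (∑ i, c i * π.x i) := by
  refine (RC.ofL π rfl).err (le_of_eq_of_le (b := ‖∑ i, (c i - (k i).ce) * π.x i‖ * 2 ^ 64) ?_ ?_)
  · simp only [I4.sumC, ev_cons, ev_nil, Tm.val, ce]
    congr 2; ring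
  · rw [s4_cast, Finset.sum_mul, pow_one]
    refine (mul_le_mul_of_nonneg_right (norm_sum_le _ _) (by positivity)).trans ?_
    rw [Finset.sum_mul]
    refine Finset.sum_le_sum fun i _ => ?_
    rw [norm_mul, mul_right_comm]
    exact mul_le_mul (h i).ce (π.hx i) (norm_nonneg _) (Nat.cast_nonneg _)

lemma hz_ok {π : P4} {Q : CT} {q : ℝ} (h : RC π 64 1 Q q) (l : List (ℤ × ℕ))
    (hl : ∀ c ∈ l, 0 < c.2) : RC π 64 0 (hz Q l) (hor (l.map fun c => c.1 / c.2) q) := by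
  induction l with
  | nil => exact RC.cst π (by simp [In, hor])
  | cons c l ih =>
    exact ((RC.cst π (in_rat c.1 0 (hl c List.mem_cons_self))).add ((h.mul (ih fun e he =>
      hl e (List.mem_cons_of_mem _ he))).tr.mono (Nat.zero_le _))).congr (by simp [hor])

namespace Dt
variable {d : Dt} {μ : Fin 3 → ℝ} {z : Z3} {π : P4}

lemma in_K (hμ : Mass (d.w / 2 ^ 60) μ) : d.bK.In (kp μ) := by
  have h1 : ‖cL * μ 2‖ ≤ 1 / 2 ^ 64 := by
    have := in_C.le' (n := 64) rfl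
    rw [norm_mul, norm_real, Real.norm_of_nonneg (hμ.ms.1 2).le]
    nlinarith [hμ.sm, hμ.ms.1 2]
  have h2 := hμ.cl
  rw [← Real.norm_eq_abs, ← norm_real] at h2
  have := mul_le_mul_of_nonneg_right (norm_sub_le_of_le h2 h1) (norm_nonneg (2 ^ 64 : ℂ))
  rw [← norm_mul] at this
  refine le_of_eq_of_le (congrArg _ ?_) (this.trans (by norm_num [bK]))
  simp only [bK, kp, Int.subNatNat_eq_coe, Nat.mul_eq, Nat.pow_eq]
  push_cast; ring

lemma in_ka (hμ : Mass (d.w / 2 ^ 60) μ) (j : Bool) : (d.bKa j).In (ka μ j) :=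
  (((in_rq 3 4).neg.add ((in_rq 3 1).mul (in_C.mul (in_K hμ)))).mul (in_mp j)).congr
    (by simp [ka, Bc])

lemma in_b (j : Bool) : (d.bb j).In (d.b j) := by
  cases j
  exacts [(in_rq 1536 1).congr (by simp [b]), (in_rat _ _ (by norm_num)).congr (by norm_num [b])]

lemma b_inv (h : Nat.blt 0 d.n2 = true) :
    d.b true * ((((d.bp * 2 ^ 32 : ℤ) : ℂ) + ((-d.bq * 2 ^ 32 : ℤ) : ℂ) * I) / d.n2) = 1 := by
  have h1 : (d.n2 : ℂ) ≠ 0 := Nat.cast_ne_zero.2 (Nat.blt_eq.mp h).ne'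
  have h2 : ((d.n2 : ℤ) : ℂ) = ((d.bp * d.bp + d.bq * d.bq : ℤ) : ℂ) :=
    congrArg _ (Int.toNat_of_nonneg (by nlinarith [mul_self_nonneg d.bp, mul_self_nonneg d.bq]))
  rw [b, cond_true, ← mul_div_assoc, div_eq_one_iff_eq h1]
  push_cast at h2 ⊢
  linear_combination -h2 - d.bq ^ 2 * I_sq

lemma b_ne (h : Nat.blt 0 d.n2 = true) (j : Bool) : d.b j ≠ 0 := by
  cases j
  exacts [by simp [b], left_ne_zero_of_mul_eq_one (b_inv h)]

lemma in_A (h : Nat.blt 0 d.n2 = true) (j : Bool) : (d.bA j).In (d.cA j) := by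
  cases j
  · exact ((in_al _).mul (in_rq 1 1536)).congr (by simp [cA, b, div_eq_mul_inv])
  · exact ((in_al _).mul (in_rat _ _ (Nat.blt_eq.mp h))).congr (by
      rw [cA, div_eq_mul_inv (al _), inv_eq_of_mul_eq_one_right (b_inv h)])

lemma in_S (hμ : Mass (d.w / 2 ^ 60) μ) (h : Nat.blt 0 d.n2 = true) (i : I4) :
    (d.bS i).In (d.cS μ i) ∧ (d.bP i).In (d.cP μ i) := by
  have a := fun j => (in_ka hμ j).mul (in_A h j).cj
  have o : (rq 1 1).In 1 := (in_rq 1 1).congr (by simp)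
  cases i
  exacts [⟨in_A h _, (((in_nu _).add o).mul (in_A h _)).mi⟩,
    ⟨(a _).neg, (((in_nu _).sub o).mul (a _)).mi⟩,
    ⟨in_A h _, (((in_nu _).add o).mul (in_A h _)).mi⟩,
    ⟨(a _).neg, (((in_nu _).sub o).mul (a _)).mi⟩]

lemma sum_S (h : Nat.blt 0 d.n2 = true) (x y : ℂ) :
    ∑ i, d.cS μ i * pt4 (d.b true * x) (d.b false * y) i = sI μ x y ∧
    ∑ i, d.cP μ i * pt4 (d.b true * x) (d.b false * y) i = pI μ x y := by
  have e : ∀ j, al j = d.cA j * d.b j := fun j => by rw [cA, div_mul_cancel₀ _ (b_ne h j)]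
  simp only [I4.sumC, cS, cP, cT, pt4, sI, pI, e, map_mul]
  constructor <;> ring

end Dt

end Pool.Agent.Lib.MP_6e7c44_mp.RS
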