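import Pool.Agent.Lib.MP_6e7c44_mp.RS.Loc

/-! Soundness of the check of the normal form. -/

set_option autoImplicit false

open Set Complex

namespace Pool.Agent.Lib.MP_6e7c44_mp.RS

open LA CB

namespace Dt
variable {d : Dt} {μ : Fin 3 → ℝ} {z : Z3} {π : P4}

lemma sum_z (hμ : Mass (d.w / 2 ^ 60) μ) (h : Nat.blt 0 d.n2 = true) (z : Z3) :
    ∑ i, d.cS μ i * d.xx μ z i = sz z ∧ ∑ i, d.cP μ i * d.xx μ z i = pz z :=
  ⟨(sum_S h _ _).1.trans (sI_ell hμ _ _).1, (sum_S h _ _).2.trans (sI_ell hμ _ _).2⟩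

lemma sum_le {c : I4 → ℂ} (h : ∀ i, ‖c i‖ * 2 ^ 64 ≤ 2 ^ 57) : ‖∑ i, c i * π.x i‖ ≤ π.t / 32 := by
  refine (norm_sum_le_of_le _ (n := fun _ => 1 / 128 * π.t) fun i _ => ?_).trans_eq
    (by rw [I4.sum]; ring)
  rw [norm_mul]
  exact mul_le_mul (by linarith [h i]) (π.hx i) (norm_nonneg _) (by norm_num)

/-- The model of the nonlinear terms. -/
lemma G_ok (hμ : Mass (d.w / 2 ^ 60) μ) (h : Nat.blt 0 d.n2 = true) (hB : ∀ j, d.okB j = true)
    (hx : π.x = d.xx μ z) (hs : ‖sz z‖ ≤ π.t / 32) (hp : ‖pz z‖ ≤ π.t / 32)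
    (hζ : ‖z.1 - I‖ ≤ π.t / 2 ^ 80) (i : I4) :
    RC π 64 2 (d.G i) (pt4 (d.gg μ true z) (d.gg μ false z) i) := by
  simp only [okB, Bool.and_eq_true] at hB
  have e := (sum_z hμ h z).1
  have rS : RC π 64 1 d.S (sz z) := (lin_ok π fun i => (in_S hμ h i).1).congr (by rw [hx, e])
  have rb : RC π 64 1 d.Sb ((starRingEnd ℂ) (sz z)) :=
    (lin_ok π fun i => (in_S hμ h (sw i)).1.cj).congr (by
      rw [hx, ← e]
      simp only [I4.sumC, xx, pt4, sw, map_add, map_mul, conj_conj]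
      ring)
  have rss : RC π 64 2 d.SS (sz z * (starRingEnd ℂ) (sz z)) := (rS.mul rb).tr
  have rQ : ∀ j, RC π 64 1 (d.Q j) (qq (ee j) (sz z)) := fun j =>
    ((rS.cm (in_e j).cj).add (rb.cm (in_e j))).tr.add (rss.mono one_le_two)
  have rH : ∀ j, RC π 64 2 (d.H j) (qq (ee j) (sz z) * qq (ee j) (sz z) * psi (qq (ee j) (sz z)).re
      + vth (ee j) (sz z)) := fun j => by
    have a1 := (rQ j).le
    have a2 := mul_le_mul_of_nonneg_right (bl (hB j).2.2) π.t0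
    have a3 := vth_le (s := sz z) (ee_norm j) π.t1 (by norm_num at a1 a2; linarith)
    refine (((rQ j).mul (rQ j)).tr.mul (hz_ok ((rQ j).congr (qq_re _ _).symm) _
      (by decide))).tr.err ?_
    rw [show hor _ _ = psi (qq (ee j) (sz z)).re by norm_num [psi, hor], add_sub_cancel_left,
      norm_real, Real.norm_eq_abs]
    norm_num at a3 ⊢
    linarith
  have rN := fun j {k S ε σ} (hk : CB.In k ε) (hS : RC π 64 1 S σ) =>
    (((((RC.cst π hk).add (hS.mono zero_le_one)).mul (rH j)).smul 2).sub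
      (((rss.cm hk).add ((rQ j).mul hS)).smul 3)).tr
  have w1 := ((in_rq 1 2).add (in_K hμ)).mul (in_rq 1 2).neg
  have w2 := ((in_rq 1 2).sub (in_K hμ)).mul (in_rq 1 2).neg
  have rM : RC π 64 2 d.M (Nz μ (sz z)) :=
    (((rN true (in_e true) rS).cm w1).add ((rN false (in_e false) rS).cm w2)).tr.congr (by
      simp only [Nz, NN, ee, cond_true, cond_false]; push_cast; ring)
  have cq : ∀ e s, (starRingEnd ℂ) (qq e s) = qq e s := fun e s => by rw [← qq_re, conj_ofReal]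
  have rMb : RC π 64 2 d.Mb ((starRingEnd ℂ) (Nz μ (sz z))) :=
    (((rN true (in_e true).cj rb).cm w1.cj).add ((rN false (in_e false).cj rb).cm w2.cj)).tr.congr (by
      simp only [Nz, NN, ee, cond_true, cond_false, map_add, map_mul, map_sub, map_neg, map_div₀,
        cq, conj_ofReal, conj_conj, map_ofNat, map_one, map_intCast, map_natCast]
      push_cast; ring)
  have t0 := π.t0
  have eb : ∀ j, ‖d.b j * ell μ j (-((z.1 - I) * sz z))
      ((3 / 2 * (z.1.re : ℂ) - (z.1 - I)) * pz z)‖ * 2 ^ 64 ≤ (1 : ℕ) * π.t ^ 2 := fun j => by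
    have a1 := (in_b j).le' (hB j).1
    have a2 := ell_le j (by linarith [(in_ka hμ j).le' (hB j).2.1]) (-((z.1 - I) * sz z))
      ((3 / 2 * (z.1.re : ℂ) - (z.1 - I)) * pz z)
    have a3 : ‖3 / 2 * (z.1.re : ℂ) - (z.1 - I)‖ ≤ 3 * π.t / 2 ^ 80 := by
      have := (abs_re_le_norm _).trans hζ
      rw [sub_re, I_re, sub_zero] at this
      refine (norm_sub_le _ _).trans ?_
      rw [norm_mul, norm_real, Real.norm_eq_abs, show ‖(3 / 2 : ℂ)‖ = 3 / 2 by simp]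
      linarith
    have a4 := mul_le_mul hζ hs (norm_nonneg _) (by positivity)
    have a5 := mul_le_mul a3 hp (norm_nonneg _) (by positivity)
    rw [norm_neg, norm_mul, norm_mul] at a2
    have a6 := mul_le_mul (show ‖d.b j‖ ≤ 2 ^ 11 by linarith) a2 (norm_nonneg _) (by positivity)
    rw [norm_mul]
    push_cast
    nlinarith
  have g1 := fun j => ((rM.cm (in_b j)).sub (rMb.cm ((in_b j).mul (in_ka hμ j)))).tr.err
    (w := d.gg μ j z) (n := 1) (le_of_eq_of_le (by rw [gg]; congr 2; ring) (eb j))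
  have g2 := fun j => ((rMb.cm (in_b j).cj).sub (rM.cm ((in_b j).mul (in_ka hμ j)).cj)).tr.err
    (w := (starRingEnd ℂ) (d.gg μ j z)) (n := 1) (le_of_eq_of_le (by
      rw [← norm_conj (d.b j * _), gg]
      simp only [map_add, map_mul, map_sub (starRingEnd ℂ) (Nz _ _), conj_conj]
      congr 2; ring) (eb j))
  cases i
  exacts [g1 _, g2 _, g1 _, g2 _]

lemma LD_ok {g : I4 → ℂ} (hG : ∀ i, RC π 64 2 (d.G i) (g i)) {l σ : ℕ} {L : List Tm}
    (h : wD l σ L = true) : RC π 128 (l + 2) (d.LD σ L)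
      (I * om * ev (lam σ L) π.x + dv4 L π.x g) := by
  simp only [wD, Bool.and_eq_true, al4_iff] at h
  have a := fun i => (RC.ofL π (h.2 i)).mul (hG i)
  exact (((RC.ofL π h.1).cm in_W.mi).add (((a .i0).add (a .i1)).add ((a .i2).add (a .i3)))).congr
    (by rw [dv4, I4.sumC]; ring)

lemma dv_vv (L : List Tm) (σ : ℕ) : I * om * ev (lam σ L) (d.xx μ z)
    + dv4 L (d.xx μ z) (pt4 (d.gg μ true z) (d.gg μ false z))
    = dv4 L (d.xx μ z) (d.vv μ z) + σ * (I * om * ev L (d.xx μ z)) := by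
  simp only [ev_lam, dv4, I4.sumC, vv, nu, pt4, map_add, map_mul, conj_I, map_neg, map_ofNat,
    conj_ofReal]
  simp only [xx, pt4]
  ring

lemma le_c {k : CT} {w : ℂ} {l a c : ℕ} [NeZero a] (h1 : lc c a k = true)
    (h : RC π (64 + 64) l k w) : ‖w‖ ≤ c / a * π.t ^ l := by
  have a0 : (0 : ℝ) < a := Nat.cast_pos.2 (NeZero.pos a)
  have a1 := mul_le_mul_of_nonneg_left h.tr.le a0.le
  have a2 := mul_le_mul_of_nonneg_right (bl h1) (pow_nonneg π.t0 l)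
  rw [div_mul_eq_mul_div, le_div_iff₀ a0]
  norm_num at a1 a2
  linarith

lemma ev_bd {L : List Tm} {l n : ℕ} (h : wf l L = true) (h1 : Nat.ble (n0 L) (Nat.pow 2 n) = true) :
    ‖ev L π.x‖ * 2 ^ 64 ≤ 2 ^ n * π.t ^ l :=
  (ev_le π fun t ht => (wf_iff h t ht).1).trans
    (mul_le_mul_of_nonneg_right (by simpa using bl h1) (pow_nonneg π.t0 l))

/-- The consequences of the check. -/
structure Fc (d : Dt) : Prop where
  n2 : Nat.blt 0 d.n2 = true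
  hB : ∀ j, d.okB j = true
  l1 : Nat.ble (n1 d.F1) (Nat.pow 2 62) = true
  l2 : Nat.ble (n1 d.F2) (Nat.pow 2 62) = true
  w1 : 12499 / 10000 ≤ ‖d.w0‖
  w2 : ‖d.w0‖ ≤ 12501 / 10000
  st : ∀ (π : P4) (u w : ℂ), π.x = pt4 u w → ‖ev d.Z1 π.x - u‖ ≤ π.t ^ 2 / 8 ∧
    ‖ev d.Z2 π.x - w‖ ≤ π.t ^ 2 / 8 ∧
    ‖ev d.JJ π.x - (w * (starRingEnd ℂ) w - u * (starRingEnd ℂ) u)‖ ≤ π.t ^ 3 ∧
    ‖ev d.XX π.x - (u * w ^ 2 + (starRingEnd ℂ) (u * w ^ 2)) / 2‖ ≤ π.t ^ 4 ∧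
    |(ev d.JJ π.x).re - ‖ev d.Z2 π.x‖ ^ 2 + ‖ev d.Z1 π.x‖ ^ 2| ≤ π.t ^ 2 / 250 ∧
    |(ev d.XX π.x).re - (ev d.Z1 π.x * ev d.Z2 π.x ^ 2).re| ≤ 3 / 250 * π.t ^ 3
  sp : ∀ μ z (π : P4), Mass (d.w / 2 ^ 60) μ → π.x = d.xx μ z →
    ‖sz z‖ ≤ π.t / 32 ∧ ‖pz z‖ ≤ π.t / 32
  dy : ∀ μ z (π : P4), Mass (d.w / 2 ^ 60) μ → π.x = d.xx μ z → ‖z.1 - I‖ ≤ π.t / 2 ^ 80 →
    ‖dv4 d.JJ π.x (d.vv μ z)‖ ≤ π.t ^ 3 / 125000000 ∧
    ‖dv4 d.XX π.x (d.vv μ z)‖ ≤ π.t ^ 4 / 20000000 ∧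
    ‖dv4 d.Z2 π.x (d.vv μ z) + I * om * ev d.Z2 π.x - I * (97 / 100000)
      * (starRingEnd ℂ) (ev d.Z1 π.x * ev d.Z2 π.x)‖ ≤ 13 / 1000000 * π.t ^ 2

theorem fc (h : d.ok = true) : d.Fc := by
  simp only [ok, alB_cons, Bool.and_eq_true, okF, al4_iff] at h
  obtain ⟨h1, h2, h3, h4, h5, h6, h7, h8, h9, h10, k1, k2, k3, k4, k5, k6, k7, k8, k9, m1, m2, m3,
    m4, m5, m6, m7, -⟩ := h
  have hB : ∀ j, d.okB j = true := fun j => by cases j; exacts [h3, h2]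
  have wn : ‖d.w0‖ ^ 2 * 2 ^ 64 = d.wn := by
    simp only [w0, norm_div, div_pow, sq_norm', wn, Nat.add_eq, Nat.mul_eq, Nat.cast_add,
      Nat.cast_mul, Nat.cast_natAbs, Int.cast_abs, abs_mul_abs_self]
    norm_num
    ring
  have m8 := bl m6
  have m9 := bl m7
  norm_num [← wn] at m8 m9
  have sp : ∀ μ z (π : P4), Mass (d.w / 2 ^ 60) μ → π.x = d.xx μ z →
      ‖sz z‖ ≤ π.t / 32 ∧ ‖pz z‖ ≤ π.t / 32 := fun μ z π hμ hx => by
    rw [← (sum_z hμ h1 z).1, ← (sum_z hμ h1 z).2, ← hx]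
    exact ⟨sum_le fun i => (in_S hμ h1 i).1.le' (h6 i).1,
      sum_le fun i => (in_S hμ h1 i).2.le' (h6 i).2⟩
  have cz : ∀ (π : P4) (u w : ℂ), π.x = pt4 u w → RC π 64 1 d.z1 ((starRingEnd ℂ) (ev d.Z1 π.x)) ∧
      RC π 64 1 d.z2 ((starRingEnd ℂ) (ev d.Z2 π.x)) := fun π u w hx =>
    ⟨(RC.ofL π k3).congr (by rw [hx, ev_cj]), (RC.ofL π k4).congr (by rw [hx, ev_cj])⟩
  refine ⟨h1, hB, h4.2.2, h5.2.2, (abs_le_of_sq_le_sq' (by linarith) (norm_nonneg _)).2,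
    (abs_le_of_sq_le_sq' (by linarith) (by norm_num)).2, fun π u w hx => ?_, sp,
    fun μ z π hμ hx hζ => ?_⟩
  · have a1 := ev_bd (π := π) h4.1 h4.2.1
    have a2 := ev_bd (π := π) h5.1 h5.2.1
    have a3 := ev_bd (π := π) h7 h9
    have a4 := ev_bd (π := π) h8 h10
    obtain ⟨c1, c2⟩ := cz π u w hx
    have y1 := RC.ofL π k1
    have y2 := RC.ofL π k2
    have a5 := (abs_re_le_norm _).trans (le_c m4 (((((RC.ofL π k5).smul _).scale
      (w := ev d.JJ π.x) (by norm_num; ring)).sub (y2.mul c2)).add (y1.mul c1)))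
    have a6 := (abs_re_le_norm _).trans (le_c m5 (((((RC.ofL π k6).smul _).scale
      (w := 2 * ev d.XX π.x) (by norm_num; ring)).sub (y1.mul (y2.mul y2).tr)).sub
      (c1.mul (c2.mul c2).tr)))
    rw [mul_conj', mul_conj'] at a5
    rw [← map_mul, ← map_mul, ← sq, abs_le] at a6
    refine ⟨le_of_eq_of_le (b := ‖ev d.F1 π.x‖) ?_ (by linarith),
      le_of_eq_of_le (b := ‖ev d.F2 π.x‖) ?_ (by linarith),
      le_of_eq_of_le (b := ‖ev d.Jh π.x‖) ?_ (by linarith),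
      le_of_eq_of_le (b := ‖ev d.Xh π.x‖) ?_ (by linarith), ?_, ?_⟩
    · simp only [Z1, ev_cons, Tm.val, hx, pt4]
      congr 1; push_cast; ring
    · simp only [Z2, ev_cons, Tm.val, hx, pt4]
      congr 1; push_cast; ring
    · simp only [JJ, ev_cons, Tm.val, hx, pt4]
      congr 1; push_cast; ring
    · simp only [XX, ev_cons, Tm.val, hx, pt4, map_mul, map_pow]
      congr 1; push_cast; ring
    · simp only [add_re, sub_re, ← ofReal_pow, ofReal_re] at a5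
      linarith
    · simp only [sub_re, conj_re, re_ofNat, mul_re 2, im_ofNat] at a6
      rw [abs_le]
      constructor <;> linarith
  · obtain ⟨s1, s2⟩ := sp μ z π hμ hx
    obtain ⟨c1, c2⟩ := cz π _ _ hx
    have G := G_ok hμ h1 hB hx s1 s2 hζ
    have a1 := le_c m1 (LD_ok G k7)
    have a2 := le_c m2 (LD_ok G k8)
    have a3 := le_c m3 ((LD_ok G k9).sub ((c1.mul c2).tr.cm (in_rq 97 100000).mi))
    rw [hx, dv_vv] at a1 a2 a3
    rw [hx, map_mul]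
    norm_num at a1 a2 a3 ⊢
    exact ⟨by linarith, by linarith, a3⟩

end Dt

end Pool.Agent.Lib.MP_6e7c44_mp.RS
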