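import Pool.Agent.Lib.MP_6e7c44_mp.RS.InitC
import Pool.Agent.Lib.MP_6e7c44_mp.RS.PolP
import Pool.Agent.Lib.MP_6e7c44_mp.RS.PolM
import Pool.Agent.Lib.MP_6e7c44_mp.RS.DatP0
import Pool.Agent.Lib.MP_6e7c44_mp.RS.DatP1
import Pool.Agent.Lib.MP_6e7c44_mp.RS.DatP2
import Pool.Agent.Lib.MP_6e7c44_mp.RS.DatP3
import Pool.Agent.Lib.MP_6e7c44_mp.RS.DatM0
import Pool.Agent.Lib.MP_6e7c44_mp.RS.DatM1
import Pool.Agent.Lib.MP_6e7c44_mp.RS.DatM2
import Pool.Agent.Lib.MP_6e7c44_mp.RS.DatM3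

/-! The Lagrange state is a limit of escaping states, for both signs of the mass difference. -/

set_option autoImplicit false
set_option maxRecDepth 100000

open Set Complex Filter Topology

namespace Pool.Agent.Lib.MP_6e7c44_mp.RS

open LA

def c4 (a b c d : ℤ) : I4 → ℤ
  | .i0 => a
  | .i1 => b
  | .i2 => c
  | .i3 => d

theorem near_of {c : Ini} {D : ℕ} (hd : c.d.ok = true) (hc : c.ok = true)
    (e : c.r = unpack c.d.w D) (hr : c.r.ok = true) (h : Good c.d.w D) {μ : Fin 3 → ℝ}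
    (hμ : Mass (c.d.w / 2 ^ 60) μ) : phys (lag I) ∈ closure (Esc μ) := by
  obtain ⟨l, hl⟩ := h
  have cp : Continuous phys := by
    unfold phys
    refine Continuous.prodMk (continuous_pi fun i => ?_) (continuous_pi fun i => ?_) <;>
      fin_cases i <;> simp <;> fun_prop
  refine mem_closure_iff_nhds.2 fun U hU => ?_
  obtain ⟨z, h1, h2⟩ := Ini.init hμ hd hc hr (e ▸ hl) (cp.continuousAt.preimage_mem_nhds hU)
  exact ⟨_, h1, h2⟩

theorem endP : Good wP sP4 := fin_ok (c := c4 (-6814) 25092 (-247) 208) (by decide +kernel) fun z hs hz =>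
  out_box (X := fun i => c4 (-6814) 25092 (-247) 208 i / 1024) (ζ := 28 / 5) (c := 32 / 125) (G := 73 / 5)
    (b := 19 / 50) (lo := 126 / 5) (hi := 253 / 10) hs hz (by norm_num) (by norm_num) (by norm_num)
    (by norm_num) (by norm_num) (by norm_num) (by norm_num [c4, wP]) (by norm_num [c4, wP])
    (by norm_num) (by norm_num) (by norm_num [c4, wP, abs_of_pos, abs_of_neg])

theorem nearP {μ : Fin 3 → ℝ} (hμ : Mass (wP / 2 ^ 60) μ) : phys (lag I) ∈ closure (Esc μ) :=
  near_of (c := iP) dP_ok iP_ok rfl (by decide +kernel) (pP0 (pP1 (pP2 (pP3 endP)))) hμ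

theorem endM : Good wM sM4 := fin_ok (c := c4 22799 (-12617) 686 180) (by decide +kernel) fun z hs hz =>
  out_box (X := fun i => c4 22799 (-12617) 686 180 i / 1024) (ζ := 28 / 5) (c := 32 / 125) (G := 72 / 5)
    (b := 19 / 50) (lo := 25) (hi := 251 / 10) hs hz (by norm_num) (by norm_num) (by norm_num)
    (by norm_num) (by norm_num) (by norm_num) (by norm_num [c4, wM]) (by norm_num [c4, wM])
    (by norm_num) (by norm_num) (by norm_num [c4, wM, abs_of_pos, abs_of_neg])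

theorem nearM {μ : Fin 3 → ℝ} (hμ : Mass (wM / 2 ^ 60) μ) : phys (lag I) ∈ closure (Esc μ) :=
  near_of (c := iM) dM_ok iM_ok rfl (by decide +kernel) (pM0 (pM1 (pM2 (pM3 endM)))) hμ

end Pool.Agent.Lib.MP_6e7c44_mp.RS
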