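import Pool.Agent.Lib.MP_6e7c44_mp.RS.Chk
import Pool.Agent.Lib.MP_6e7c44_mp.LA.StepA

/-! The numbers represented by the models of a step. -/

set_option autoImplicit false

open Finset

noncomputable section

namespace Pool.Agent.Lib.MP_6e7c44_mp.RS

open LA

/-- A time `x` and coordinates `y` in the unit cube. -/
structure Pt where
  x : ℝ
  y : I4 → ℝ
  hx : |x| ≤ 1
  hy : ∀ j, |y j| ≤ 1

def Pt.z (π : Pt) : ℕ → ℝ
  | 0 => 1
  | 1 => π.y .i0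
  | 2 => π.y .i1
  | 3 => π.y .i2
  | 4 => π.y .i3
  | _ => 0

def Pt.g (π : Pt) : Cx where
  c := cV
  x := π.x
  ζ := π.z
  hx := π.hx
  hy k := by unfold Pt.z; split <;> simp [π.hy]
  z0 := rfl
  hB := by decide
  hn := by decide
  hw := by decide

lemma Pt.zn (π : Pt) (j : I4) : π.z j.n = π.y j := by cases j <;> rfl

def cf' (P N i : ℕ) : ℝ := dg 192 63 P i - dg 192 63 N i
def pl (P N j : ℕ) (x : ℝ) : ℝ := ∑ k ∈ range 12, cf' P N (30 * j + k) * x ^ k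
def dpl (P N j : ℕ) (x : ℝ) : ℝ := ∑ k ∈ range 11, (k + 1) * cf' P N (30 * j + k + 1) * x ^ k

lemma pl_der (P N j : ℕ) (x : ℝ) : HasDerivAt (pl P N j) (dpl P N j x) x := by
  have := HasDerivAt.fun_sum (u := range 12) fun k _ =>
    (hasDerivAt_pow k x).const_mul (cf' P N (30 * j + k))
  refine HasDerivAt.congr_deriv this ?_
  rw [sum_range_succ', dpl]
  simp only [Nat.cast_zero, zero_mul, mul_zero, add_zero, Nat.add_sub_cancel, Nat.cast_add,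
    Nat.cast_one, add_assoc]
  exact sum_congr rfl fun k _ => by ring

lemma mv0 (b : ℕ) (t : ℕ → Bool) (P : ℕ) (x : ℝ) {ζ : ℕ → ℝ} (h : ζ 0 = 1) :
    mv cV 5 b r0 t P x ζ = ∑ k ∈ range 30, if t k then dg 192 b P (30 * 0 + k) * x ^ k else 0 := by
  simp [mv, r0, h, cV]

lemma mv1 (π : Pt) (b : ℕ) (t : ℕ → Bool) (P : ℕ) : mv cV 5 b r1 t P π.x π.z
    = ∑ j : I4, (∑ k ∈ range 30, if t k then dg 192 b P (30 * j.n + k) * π.x ^ k else 0) * π.y j := by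
  simp only [mv, I4.sum, sum_range_succ (n := 4),
    sum_range_succ (n := 3), sum_range_succ (n := 2), sum_range_succ (n := 1), sum_range_one]
  simp [r1, cV, Pt.z, I4.n, mul_comm]

lemma sum_cut {t : ℕ → Bool} (F : ℕ → ℝ) (h : ∀ k, t k → k ≤ 11) :
    (∑ k ∈ range 30, if t k then F k else 0) = ∑ k ∈ range 12, if t k then F k else 0 :=
  (sum_subset (range_mono (by decide)) fun k _ hk =>
    if_neg fun e => hk (mem_range.2 (Nat.lt_succ_of_le (h k e)))).symm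

lemma h_cb (b k : ℕ) (h : cb b k) : k ≤ 11 := by simp [cb] at h; omega

lemma sum_cl (P N j : ℕ) (x : ℝ) :
    (∑ k ∈ range 30, if cl 11 k then dg 192 63 P (30 * j + k) * x ^ k else 0)
      - (∑ k ∈ range 30, if cl 11 k then dg 192 63 N (30 * j + k) * x ^ k else 0) = pl P N j x := by
  rw [sum_cut _ (h_cl 11), sum_cut _ (h_cl 11), ← sum_sub_distrib]
  refine sum_congr rfl fun k hk => ?_
  have : cl 11 k = true := by simpa [cl, Nat.lt_succ_iff] using hk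
  simp only [this, if_true, cf']
  ring

def sb' (b P j : ℕ) (x : ℝ) : ℝ :=
  ∑ k ∈ range 30, if cb b k then dg 192 63 (Nat.shiftRight P 192) (30 * j + k) * x ^ k else 0

lemma sum_cb (P N j : ℕ) (x : ℝ) : (sb' 0 P j x - sb' 0 N j x) + 2 * (sb' 1 P j x - sb' 1 N j x)
    + (4 * (sb' 2 P j x - sb' 2 N j x) + 8 * (sb' 3 P j x - sb' 3 N j x)) = dpl P N j x := by
  have e : ∀ Q i, dg 192 63 (Nat.shiftRight Q 192) i = dg 192 63 Q (i + 1) := fun Q i => by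
    rw [add_comm]; exact dg_shift 192 63 Q i 1
  simp only [sb', e, dpl, cf', sum_cut _ (h_cb _)]
  simp [sum_range_succ, cb, Nat.testBit]; ring

variable {π : Pt} {e f : ℕ} {p q : TM} {a b : ℝ}

lemma lw {k : ℕ} (h : k ≤ 182) : k ≤ π.g.c.B - 10 := h
lemma lx {k : ℕ} (h : k < 30) : k < π.g.c.w := h
lemma ln {k : ℕ} (h : k < 150) : k < π.g.c.n := h
lemma h_r1 (j : ℕ) (h : r1 j) : j ≤ 4 := by simp [r1] at h; exact h.2

lemma rep0 (e P N : ℕ) : LA.Rep π.g e 11 11 (TM.ex cV mX P N) (pl P N 0 π.x / 2 ^ e) :=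
  (LA.Rep.ex π.g (m := 5) (b := 63) rfl (lw (by decide)) h_r0 (h_cl 11) e P N).congr (by
    rw [← sum_cl]; exact congrArg (· / _) (congrArg₂ _ (mv0 _ _ _ _ rfl) (mv0 _ _ _ _ rfl)))

lemma rep1 (e P N : ℕ) :
    LA.Rep π.g e 11 131 (TM.ex cV mA P N) ((∑ j : I4, pl P N j.n π.x * π.y j) / 2 ^ e) :=
  (LA.Rep.ex π.g (m := 5) (b := 63) rfl (lw (by decide)) h_r1 (h_cl 11) e P N).congr (by
    refine congrArg (· / _) ((congrArg₂ _ (mv1 π _ _ _) (mv1 π _ _ _)).trans ?_)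
    rw [← sum_sub_distrib]
    exact sum_congr rfl fun j _ => by rw [← sub_mul, sum_cl])

lemma rep_dr {s : ℕ → Bool} {dy : ℕ} (hs : ∀ j, s j → j ≤ dy) (P N : ℕ) {F : ℕ → ℕ → ℝ}
    (h : ∀ b Q, mv cV 5 63 s (cb b) (Nat.shiftRight Q 192) π.x π.z = F b Q) :
    LA.Rep π.g 0 11 (30 * dy + 11) (dr s P N)
      ((F 0 P - F 0 N) + 2 * (F 1 P - F 1 N) + (4 * (F 2 P - F 2 N) + 8 * (F 3 P - F 3 N))) := by
  have H := fun b => LA.Rep.ex π.g (m := 5) (b := 63) rfl (lw (by decide)) hs (h_cb b) 0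
    (Nat.shiftRight P 192) (Nat.shiftRight N 192)
  refine ((H 0).add (((H 1).up 1).scale ?_)).add ((((H 2).up 2).scale ?_).add
    (((H 3).up 3).scale ?_)) |>.congr (congrArg₂ _ (congrArg₂ _ ?_ rfl) rfl)
  all_goals simp only [← h]; simp [Pt.g]; try ring

lemma repd0 (P N : ℕ) : LA.Rep π.g 0 11 11 (dr r0 P N) (dpl P N 0 π.x) :=
  (rep_dr h_r0 P N (F := fun b Q => sb' b Q 0 π.x) fun _ _ => mv0 _ _ _ _ rfl).congr (sum_cb ..)

lemma repd1 (P N : ℕ) : LA.Rep π.g 0 11 131 (dr r1 P N) (∑ j : I4, dpl P N j.n π.x * π.y j) :=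
  (rep_dr h_r1 P N (F := fun b Q => ∑ j : I4, sb' b Q j.n π.x * π.y j)
    fun _ _ => mv1 π _ _ _).congr (by
      simp only [← sum_cb, add_mul, sub_mul, mul_assoc, sum_add_distrib, sum_sub_distrib, ← mul_sum])

lemma m2 (hp : LA.Rep π.g e 11 11 p a) (hq : LA.Rep π.g f 11 11 q b) :
    LA.Rep π.g (e + f) 22 22 (mu p q) (a * b) := hp.mul hq (lx (by decide)) (lx (by decide))
lemma mw (hp : LA.Rep π.g e 11 11 p a) (hq : LA.Rep π.g f 11 131 q b) :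
    LA.Rep π.g (e + f) 22 142 (mu p q) (a * b) := hp.mul hq (lx (by decide)) (lx (by decide))
lemma rsb {dx d : ℕ} (hp : LA.Rep π.g e dx d p a) (hq : LA.Rep π.g e dx d q b) :
    LA.Rep π.g e dx d (sb p q) (a - b) := hp.sub hq
lemma rtc (s : ℕ) (hp : LA.Rep π.g (e + s) 22 22 p a) : LA.Rep π.g e 11 11 (tc s p) a :=
  hp.tr s 11 11 (ln (by decide)) (ln (by decide))
lemma rbd {dx d : ℕ} (hp : LA.Rep π.g e dx d p a) (h : d < 150) : |a| * 2 ^ e ≤ bd p := hp.nb_le h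
lemma rcs (e dx d n : ℕ) (h : a * 2 ^ e = 2 ^ n) :
    LA.Rep π.g e dx d (.cst (Nat.pow 2 n)) a := (LA.Rep.cst π.g e dx d _).scale (by rw [h]; simp)

namespace Raw
variable (r : Raw)

/-- The mass of the first primary. -/
def ma : ℝ := r.w / 2 ^ 60
def xs (x : ℝ) (i : I4) : ℝ := pl (r.xp i) (r.xn i) 0 x / 2 ^ 40
def dx (x : ℝ) (i : I4) : ℝ := dpl (r.xp i) (r.xn i) 0 x / 2 ^ 40
def As (x : ℝ) : Matrix I4 I4 ℝ := .of fun k j => pl (r.ap k) (r.an k) j.n x / 2 ^ 72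
def dA (x : ℝ) : Matrix I4 I4 ℝ := .of fun k j => dpl (r.ap k) (r.an k) j.n x / 2 ^ 72
def bs (x : ℝ) (i l : I4) : ℝ :=
  mv cV 5 63 r0 (cl 7) (r.bp i l) x (fun _ => 1) - mv cV 5 63 r0 (cl 7) (r.bn i l) x fun _ => 1
def Bv (x : ℝ) (v : I4 → ℝ) (i : I4) : ℝ := r.bs x i .i0 * v .i0 + r.bs x i .i1 * v .i1
  + (r.bs x i .i2 * v .i2 + r.bs x i .i3 * v .i3)

lemma rX (i : I4) : LA.Rep π.g 40 11 11 (r.X i) (r.xs π.x i) := rep0 ..

lemma rE (i : I4) : LA.Rep π.g 72 11 131 (r.E i) ((r.As π.x).mulVec π.y i) :=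
  (rep1 72 _ _).congr (by
    simp only [As, Matrix.mulVec, dotProduct, Matrix.of_apply, sum_div]
    exact sum_congr rfl fun j _ => by ring)

lemma rdZ (i : I4) : LA.Rep π.g 128 22 142 (r.dZ i) ((r.dA π.x).mulVec π.y i + r.dx π.x i) := by
  refine (LA.Rep.up (e := 72) 56 (LA.Rep.add ((repd1 _ _).scale ?_)
    ((((repd0 _ _).up 32).scale ?_).mono le_rfl (by decide)))).mono (by decide) (by decide)
  · simp only [dA, Matrix.mulVec, dotProduct, Matrix.of_apply, sum_mul]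
    exact sum_congr rfl fun j _ => by ring
  · rw [dx]; ring

lemma rB (i l : I4) : LA.Rep π.g 0 7 7 (r.B i l) (r.bs π.x i l) :=
  (LA.Rep.ex π.g (m := 5) (b := 63) rfl (lw (by decide)) h_r0 (h_cl 7) 0 _ _).congr (by
    rw [pow_zero, div_one, bs, mv0 _ _ _ _ (ζ := fun _ => 1) rfl, mv0 _ _ _ _ (ζ := fun _ => 1) rfl]
    exact congrArg₂ _ (mv0 _ _ _ _ rfl) (mv0 _ _ _ _ rfl))

lemma rdB {v : I4 → TM} {w : I4 → ℝ} (h : ∀ l, LA.Rep π.g e 22 142 (v l) (w l)) (i : I4) :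
    LA.Rep π.g e 29 149 (r.dB v i) (r.Bv π.x w i) := by
  have m : ∀ i l, LA.Rep π.g e 29 149 (mu (r.B i l) (v l)) (r.bs π.x i l * w l) := fun i l =>
    ((r.rB i l).mul (h l) (lx (by decide)) (lx (by decide))).scale (by rw [zero_add])
  exact ((m i .i0).add (m i .i1)).add ((m i .i2).add (m i .i3))

/-- The position relative to one of the two primaries. -/
def yj (X : I4 → ℝ) (j : Bool) : ℂ := cond j (yc X + 1 / 2) (yc X - 1 / 2)

lemma rrho (j : Bool) : LA.Rep π.g 48 11 11 (r.rho j) (‖yj (r.xs π.x) j‖ ^ 2) := by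
  have hq := (rtc (e := 48) 32 ((m2 (r.rX (π := π) .i0) (r.rX .i0)).add
    (m2 (r.rX .i1) (r.rX .i1)))).add (rcs (a := 1 / 4) 48 11 11 46 (by norm_num))
  cases j
  · exact (rsb hq ((r.rX .i0).up 8)).congr (by simp [yj, sq_norm', yc]; ring)
  · exact (hq.add ((r.rX .i0).up 8)).congr (by simp [yj, sq_norm', yc]; ring)

lemma err_dn {k : TM} {v w ε : ℝ} {n : ℕ} (hk : LA.Rep π.g e 11 11 k v) (h : |w - v| ≤ 2 * ε * v)
    (h0 : 0 ≤ v) (hn : ε * 2 ^ 96 = n) : LA.Rep π.g e 11 11 (k.err (dn (Nat.mul n k.bd0) 95)) w := by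
  refine hk.err (le_trans ?_ (le_dn _ _))
  have h1 := hk.le0
  rw [abs_of_nonneg h0] at h1
  have e0 : 0 ≤ ε := by
    have : (0 : ℝ) ≤ n := n.cast_nonneg
    nlinarith
  rw [Nat.mul_eq, Nat.cast_mul, ← hn, le_div_iff₀ (by positivity)]
  calc |w - v| * 2 ^ e * 2 ^ 95 ≤ 2 * ε * v * 2 ^ e * 2 ^ 95 := by gcongr
    _ = ε * 2 ^ 96 * (v * 2 ^ e) := by ring
    _ ≤ _ := by gcongr

lemma rH {j : Bool} (h1 : r.eps j ≤ 2 ^ 95) (h2 : (r.Hr j).bd0 ≤ r.hk j) :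
    0 < ‖yj (r.xs π.x) j‖ ∧ LA.Rep π.g 40 11 11 (r.ht j) ‖yj (r.xs π.x) j‖⁻¹ ∧
      LA.Rep π.g 48 11 11 (r.kt j) (‖yj (r.xs π.x) j‖⁻¹ ^ 2) := by
  have a1 : LA.Rep π.g 40 11 11 (r.Hr j) _ := rep0 40 _ _
  have a2 : LA.Rep π.g 40 11 11 (r.H j) _ := (LA.Rep.cst π.g 40 11 11 _).add a1
  have a3 : LA.Rep π.g 48 11 11 (r.kk j) _ := rtc 32 (m2 (e := 40) (f := 40) a2 a2)
  have a4 : _ ≤ (r.eps j : ℝ) :=
    rbd (rsb (m2 a3 (r.rrho j)) (rcs (a := 1) 96 22 22 96 (by norm_num))) (by decide)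
  have a5 := a1.le0
  have a6 : ((r.Hr j).bd0 : ℝ) ≤ r.hk j := by exact_mod_cast h2
  have a7 : (r.eps j : ℝ) ≤ 2 ^ 95 := by exact_mod_cast h1
  generalize pl (r.hp j) (r.hm j) 0 π.x / 2 ^ 40 = v at *
  have H0 : 0 ≤ (r.hk j : ℝ) / 2 ^ 40 + v := by
    have := neg_abs_le v
    rw [div_add' _ _ _ (by positivity)]
    exact div_nonneg (by nlinarith) (by positivity)
  obtain ⟨b1, b2, b3⟩ := LA.Raw.inv_err (ε := r.eps j / 2 ^ 96) H0 (norm_nonneg _)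
    (by rw [le_div_iff₀ (by positivity)]; exact a4) (by rw [div_le_iff₀ (by positivity)]; linarith)
  exact ⟨b1, err_dn a2 b2 H0 (by ring), err_dn a3 b3 (mul_nonneg H0 H0) (by ring)⟩

/-- The linear model of the vector field. -/
def rw' (a : ℝ) (X e : I4 → ℝ) (g h : ℝ) : I4 → ℝ
  | .i0 => e .i2 + X .i2 + (e .i1 + X .i1)
  | .i1 => e .i3 + X .i3 - (e .i0 + X .i0)
  | .i2 => e .i3 + X .i3 + a
      + (2 * (a * g ^ 3 + (1 - a) * h ^ 3) - 3 * (a * g ^ 5 + (1 - a) * h ^ 5) * X .i1 ^ 2) * e .i0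
      + 3 * ((a * g ^ 5 + (1 - a) * h ^ 5) * X .i0 + (a * g ^ 5 - (1 - a) * h ^ 5) / 2) * X .i1
        * e .i1
      - ((a * g ^ 3 + (1 - a) * h ^ 3) * X .i0 + (a * g ^ 3 - (1 - a) * h ^ 3) / 2 + 1 / 2)
  | .i3 => 3 * ((a * g ^ 5 + (1 - a) * h ^ 5) * X .i0 + (a * g ^ 5 - (1 - a) * h ^ 5) / 2) * X .i1
        * e .i0
      - (e .i2 + X .i2 + (a * g ^ 3 + (1 - a) * h ^ 3
        - 3 * (a * g ^ 5 + (1 - a) * h ^ 5) * X .i1 ^ 2) * e .i1
        + (a * g ^ 3 + (1 - a) * h ^ 3) * X .i1)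

lemma wt_eq (hw : r.w ≤ 2 ^ 60) (j : Bool) :
    (r.wt j : ℝ) = cond j r.ma (1 - r.ma) * 2 ^ 60 := by
  cases j
  · simp only [wt, cond_false, Nat.sub_eq, Nat.pow_eq, ma, Nat.cast_sub hw]; push_cast; ring
  · simp [wt, ma]

lemma rrow (hw : r.w ≤ 2 ^ 60) {h : Bool → ℝ} (h1 : ∀ j, LA.Rep π.g 40 11 11 (r.ht j) (h j))
    (h2 : ∀ j, LA.Rep π.g 48 11 11 (r.kt j) (h j ^ 2)) (l : I4) : LA.Rep π.g 120 22 142 (r.row l)
      (rw' r.ma (r.xs π.x) ((r.As π.x).mulVec π.y) (h true) (h false) l) := by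
  have li : ∀ i, LA.Rep π.g 120 22 142 (r.li i) _ := fun i =>
    (((r.rE (π := π) i).add (((r.rX i).up 32).mono le_rfl (by decide))).up 48).mono
      (by decide) (by decide)
  have aa : ∀ j, LA.Rep π.g 48 11 11 (r.aa j) (cond j r.ma (1 - r.ma) * h j ^ 3) := fun j =>
    rtc 100 (((m2 (h2 j) (h1 j)).smul (r.wt j)).scale (by rw [r.wt_eq hw]; ring))
  have bb : ∀ j, LA.Rep π.g 96 22 22 (r.bb j) _ := fun j => m2 (aa j) (h2 j)
  have as : LA.Rep π.g 48 11 11 r.as _ := (aa true).add (aa false)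
  have uu : LA.Rep π.g 40 11 11 r.uu _ :=
    rtc 40 (m2 (rtc (e := 40) 56 ((bb true).add (bb false))) (r.rX .i1))
  have ii : LA.Rep π.g 48 11 11 r.ii _ := rtc 32
    (rsb ((as.up 32).mono (by decide) (by decide)) ((m2 uu (r.rX .i1)).smul 3))
  have ri : LA.Rep π.g 48 11 11 r.ri _ := rtc 33 ((((m2 uu (r.rX .i0)).up 1).add
    ((m2 (rtc (e := 40) 56 (rsb (bb true) (bb false))) (r.rX .i1)).scale (f := 81)
      (b := (r.ma * h true ^ 5 - (1 - r.ma) * h false ^ 5) * r.xs π.x .i1 / 2)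
      (by simp only [cond_true, cond_false]; ring))).smul 3)
  have lf : ∀ {k : TM} {a : ℝ}, LA.Rep π.g 88 22 22 k a → LA.Rep π.g 120 22 142 (k.up 32) a :=
    fun h => (h.up 32).mono le_rfl (by decide)
  cases l
  · exact (li _).add (li _)
  · exact rsb (li _) (li _)
  · exact (rsb ((((li _).add ((LA.Rep.cst π.g 120 22 142 _).congr (b := r.ma) (by
        simp only [ma, Nat.shiftLeft_eq', Nat.shiftLeft_eq]; push_cast; ring))).add
        (mw (as.add ii) (r.rE _))).add (mw ri (r.rE _))) ((lf ((m2 as (r.rX _)).add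
        ((((rsb (aa true) (aa false)).up 39).scale (f := 88)
          (b := (r.ma * h true ^ 3 - (1 - r.ma) * h false ^ 3) / 2)
          (by simp only [cond_true, cond_false]; ring)).mono (by decide) (by decide)))).add
        (rcs (a := 1 / 2) 120 22 142 119 (by norm_num)))).congr
      (by simp only [rw', cond_true, cond_false]; push_cast; ring)
  · exact (rsb (mw ri (r.rE _)) (((li _).add (mw ii (r.rE _))).add (lf (m2 as (r.rX _))))).congr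
      (by simp only [rw', cond_true, cond_false]; push_cast; ring)

end Raw

end Pool.Agent.Lib.MP_6e7c44_mp.RS
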