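import Pool.Agent.Lib.MP_6e7c44_mp.RS.StepA
import Pool.Agent.Lib.MP_6e7c44_mp.LA.StepB

/-! The pointwise estimates of a step. -/

set_option autoImplicit false

open Finset

noncomputable section

namespace Pool.Agent.Lib.MP_6e7c44_mp.RS

open LA

lemma all4_iff {f : I4 → Bool} : all4 f = true ↔ ∀ i, f i = true :=
  ⟨fun h i => by simp only [all4, Bool.and_eq_true] at h; cases i <;> tauto,
    fun h => by simp [all4, h]⟩

/-- The remainder of the attraction of the two primaries. -/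
def rem (X e : I4 → ℝ) (j : Bool) : ℂ :=
  ff (Raw.yj X j + yc e) - ff (Raw.yj X j) - dff (Raw.yj X j) (yc e)

def quad (a : ℝ) (X e : I4 → ℝ) : I4 → ℝ
  | .i0 => 0
  | .i1 => 0
  | .i2 => -(a * (rem X e true).re + (1 - a) * (rem X e false).re)
  | .i3 => -(a * (rem X e true).im + (1 - a) * (rem X e false).im)

lemma yj_add (X e : I4 → ℝ) (j : Bool) : Raw.yj (X + e) j = Raw.yj X j + yc e := by
  cases j <;> apply Complex.ext <;> simp [Raw.yj, yc] <;> ring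

lemma tay (a : ℝ) (X e : I4 → ℝ) (h : ∀ j, 0 < ‖Raw.yj X j‖) (l : I4) :
    f0 a (X + e) l - Raw.rw' a X e ‖Raw.yj X true‖⁻¹ ‖Raw.yj X false‖⁻¹ l = quad a X e l := by
  have k : ∀ j, ‖Raw.yj X j‖⁻¹ ^ 2 * ‖Raw.yj X j‖ ^ 2 = 1 := fun j => by
    have := (h j).ne'; field_simp
  have k0 := k true
  have k1 := k false
  have e0 : Fa a (yc (X + e))
      = a • ff (Raw.yj X true + yc e) + (1 - a) • ff (Raw.yj X false + yc e) := by
    rw [← yj_add, ← yj_add]; rfl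
  rw [sq_norm' (Raw.yj X _)] at k0 k1
  have a1 : (Raw.yj X true).re = X .i0 + 1 / 2 := by simp [Raw.yj, yc]
  have a2 : (Raw.yj X false).re = X .i0 - 1 / 2 := by simp [Raw.yj, yc]
  have a3 : ∀ j, (Raw.yj X j).im = X .i1 := fun j => by cases j <;> simp [Raw.yj, yc]
  have a4 : (yc e).re = e .i0 := rfl
  have a5 : (yc e).im = e .i1 := rfl
  have f1 : ∀ y : ℂ, (ff y).re = ‖y‖⁻¹ ^ 3 * y.re ∧ (ff y).im = ‖y‖⁻¹ ^ 3 * y.im := fun y => by
    simp only [ff, Complex.smul_re, Complex.smul_im, smul_eq_mul, inv_pow, and_self]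
  have f2 : ∀ y z : ℂ, (dff y z).re = ‖y‖⁻¹ ^ 3 * z.re - 3 * ‖y‖⁻¹ ^ 5 * dot y z * y.re ∧
      (dff y z).im = ‖y‖⁻¹ ^ 3 * z.im - 3 * ‖y‖⁻¹ ^ 5 * dot y z * y.im := fun y z => by
    simp only [dff, Complex.smul_re, Complex.smul_im, smul_eq_mul, inv_pow, Complex.sub_re,
      Complex.sub_im, and_self]
  simp only [a1, a2, a3] at k0 k1
  cases l <;> simp only [f0, Raw.rw', quad, Pi.add_apply, e0, rem, Complex.sub_re, Complex.sub_im,
    Complex.smul_re, Complex.smul_im, smul_eq_mul, Complex.add_re, Complex.add_im, f2,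
    f1 (Raw.yj X _), dot, a1, a2, a3, a4, a5]
  · ring
  · ring
  · linear_combination (3 * a * e .i0 * ‖Raw.yj X true‖⁻¹ ^ 3) * k0
      + (3 * (1 - a) * e .i0 * ‖Raw.yj X false‖⁻¹ ^ 3) * k1
  · ring

lemma key {T : (I4 → ℝ) → I4 → ℝ} (hT : ∀ (c : ℝ) (y : I4 → ℝ), T (c • y) = c • T y)
    {δ g w : I4 → ℝ} {m : ℝ} (h1 : ∀ y : I4 → ℝ, (∀ j, |y j| ≤ 1) → ∀ i, |y i - T y i| ≤ δ i)
    (h2 : ∀ i, δ i ≤ 1 / 2) (h3 : ∀ i, |T w i| ≤ g i) (h4 : ∀ i, g i ≤ m) (i : I4) :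
    |w i| ≤ g i + δ i * (2 * m) := by
  obtain ⟨k, -, hk⟩ := exists_max_image univ (fun j => |w j|) ⟨i, mem_univ i⟩
  have d0 : ∀ j, 0 ≤ δ j := fun j => (abs_nonneg _).trans (h1 0 (by simp) j)
  have g0 : ∀ j, 0 ≤ g j := fun j => (abs_nonneg _).trans (h3 j)
  rcases (abs_nonneg (w k)).eq_or_lt with h0 | h0
  · have := hk i (mem_univ i)
    nlinarith [g0 i, d0 i, h4 i, mul_nonneg (d0 i) ((g0 i).trans (h4 i))]
  have h5 : ∀ j, |w j| ≤ g j + δ j * |w k| := fun j => by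
    have h6 := h1 ((|w k|)⁻¹ • w) (fun j => by
      rw [Pi.smul_apply, smul_eq_mul, abs_mul, abs_inv, abs_abs, inv_mul_le_one₀ h0]
      exact hk j (mem_univ j)) j
    rw [hT, Pi.smul_apply, Pi.smul_apply, smul_eq_mul, smul_eq_mul, ← mul_sub, abs_mul, abs_inv,
      abs_abs, inv_mul_le_iff₀ h0] at h6
    linarith [abs_sub_abs_le_abs_sub (w j) (T w j), h3 j]
  have h7 : |w k| ≤ 2 * m := by nlinarith [h5 k, h2 k, h4 k]
  nlinarith [h5 i, d0 i]

namespace Raw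
variable {r : Raw} {π : Pt}

lemma ok_iff (h : r.ok = true) : 0 < r.hn ∧ r.w ≤ 2 ^ 60 ∧ r.e2 ≤ r.es * r.es ∧
    (∀ j, r.eps j ≤ 2 ^ 95 ∧ (r.Hr j).bd0 ≤ r.hk j ∧ r.hb j * r.es < 2 ^ 112 ∧ r.gq j ≤ 2 ^ 25) ∧
    ∀ i, r.dl i ≤ 2 ^ 19 ∧ 0 < r.R i ∧ r.R i + r.d i < 2 ^ 24 ∧
      (r.X i).bd0 * 2 ^ 32 + r.eb i ≤ 2 ^ 78 := by
  simp only [ok, okH, Bool.and_eq_true, all4_iff, okI, Nat.ble_eq, Nat.blt_eq, Nat.add_eq,
    Nat.mul_eq, Nat.pow_eq, Nat.shiftLeft_eq', Nat.shiftLeft_eq] at h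
  exact ⟨h.1, h.2.1, h.2.2.1, fun j => by cases j; exacts [h.2.2.2.2.1, h.2.2.2.1], h.2.2.2.2.2⟩

lemma near (h : r.ok = true) (j : Bool) : ‖yc ((r.As π.x).mulVec π.y)‖ ≤ r.es / 2 ^ 72 ∧
    (r.es : ℝ) / 2 ^ 72 < ‖yj (r.xs π.x) j‖ ∧
    (‖yj (r.xs π.x) j‖ - r.es / 2 ^ 72)⁻¹ ≤ (r.gq j / 2 ^ 20 : ℝ) := by
  obtain ⟨-, -, h1, h2, -⟩ := ok_iff h
  obtain ⟨a1, a2, a3, -⟩ := h2 j
  obtain ⟨b1, b2, -⟩ := r.rH (π := π) a1 a2
  have b3 : _ ≤ (r.hb j : ℝ) := b2.le0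
  have c2 : _ ≤ (r.eb .i0 : ℝ) := (r.rE (π := π) .i0).le0
  have c3 : _ ≤ (r.eb .i1 : ℝ) := (r.rE (π := π) .i1).le0
  have h3 : (r.eb .i0 : ℝ) * r.eb .i0 + r.eb .i1 * r.eb .i1 ≤ r.es * r.es := by exact_mod_cast h1
  have h4 : (r.hb j : ℝ) * r.es < 2 ^ 112 := by exact_mod_cast a3
  have h5 : (r.hb j : ℝ) * 2 ^ 92 < r.gq j * (2 ^ 112 - r.hb j * r.es) := by
    have := (Nat.div_lt_iff_lt_mul (Nat.sub_pos_of_lt a3)).1
      (Nat.lt_succ_self (r.hb j * 2 ^ 92 / (2 ^ 112 - r.hb j * r.es)))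
    have e : r.gq j = (r.hb j * 2 ^ 92 / (2 ^ 112 - r.hb j * r.es)).succ := by
      simp [gq, ndiv, Nat.shiftLeft_eq]
    rw [← e] at this
    have := (Nat.cast_lt (α := ℝ)).2 this
    rw [Nat.cast_mul, Nat.cast_mul, Nat.cast_sub a3.le] at this
    exact_mod_cast this
  rw [abs_of_pos (inv_pos.2 b1), inv_mul_le_iff₀ b1] at b3
  have e0 : (0 : ℝ) ≤ r.es := Nat.cast_nonneg _
  have g0 : (0 : ℝ) ≤ r.gq j := Nat.cast_nonneg _
  have h0 : (0 : ℝ) ≤ r.hb j := Nat.cast_nonneg _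
  clear a1 a2 a3 h1 h2 b2
  generalize ‖yj (r.xs π.x) j‖ = n, (r.es : ℝ) = s, (r.gq j : ℝ) = q, (r.hb j : ℝ) = b,
    (r.eb .i0 : ℝ) = u, (r.eb .i1 : ℝ) = v, (r.As π.x).mulVec π.y = e at *
  have hp : 0 < b := by nlinarith
  have d1 : s / 2 ^ 72 < n := by
    rw [div_lt_iff₀ (by positivity)]; nlinarith
  refine ⟨?_, d1, ?_⟩
  · refine (abs_le_of_sq_le_sq' ?_ (by positivity)).2
    rw [sq_norm', div_pow, le_div_iff₀ (by positivity)]
    simp only [yc]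
    have f2 := mul_self_le_mul_self (by positivity) c2
    have f3 := mul_self_le_mul_self (by positivity) c3
    nlinarith [abs_mul_abs_self (e .i0), abs_mul_abs_self (e .i1)]
  · rw [inv_le_iff_one_le_mul₀ (by linarith)]
    refine le_of_mul_le_mul_left ?_ hp
    nlinarith [mul_le_mul_of_nonneg_left b3 g0]

lemma safe (h : r.ok = true) : Safe (r.xs π.x + (r.As π.x).mulVec π.y) := by
  have h1 : ∀ j, 1 / 32 ≤ ‖yj (r.xs π.x + (r.As π.x).mulVec π.y) j‖ := fun j => by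
    obtain ⟨a1, a2, a3⟩ := near (π := π) h j
    have a4 : (r.gq j : ℝ) ≤ 2 ^ 25 := by exact_mod_cast ((ok_iff h).2.2.2.1 j).2.2.2
    have a5 : (‖yj (r.xs π.x) j‖ - r.es / 2 ^ 72)⁻¹ ≤ 32 :=
      a3.trans (by rw [div_le_iff₀ (by positivity)]; linarith)
    rw [inv_le_iff_one_le_mul₀ (by linarith)] at a5
    have := norm_sub_norm_le (yj (r.xs π.x) j) (-yc ((r.As π.x).mulVec π.y))
    rw [norm_neg, sub_neg_eq_add, ← yj_add] at this
    linarith
  refine ⟨fun i => ?_, h1 true, h1 false⟩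
  have a1 := (r.rX (π := π) i).le0
  have a2 : _ ≤ (r.eb i : ℝ) := (r.rE (π := π) i).le0
  have a3 : ((r.X i).bd0 : ℝ) * 2 ^ 32 + r.eb i ≤ 2 ^ 78 := by
    exact_mod_cast ((ok_iff h).2.2.2.2 i).2.2.2
  have := abs_add_le (r.xs π.x i) ((r.As π.x).mulVec π.y i)
  rw [Pi.add_apply]
  linarith

lemma ma_mem (h : r.ok = true) : 0 ≤ r.ma ∧ r.ma ≤ 1 := by
  have : (r.w : ℝ) ≤ 2 ^ 60 := by exact_mod_cast (ok_iff h).2.1
  exact ⟨by unfold ma; positivity, by unfold ma; rw [div_le_one (by positivity)]; exact this⟩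

lemma quad_le (h : r.ok = true) (l : I4) :
    |quad r.ma (r.xs π.x) ((r.As π.x).mulVec π.y) l| * 2 ^ 120 ≤ r.nl l := by
  obtain ⟨m0, m1⟩ := ma_mem h
  have w : ∀ j, ‖rem (r.xs π.x) ((r.As π.x).mulVec π.y) j‖ * 2 ^ 224
      ≤ 3 * (r.es * r.es) * (r.gq j * r.gq j * (r.gq j * r.gq j)) := fun j => by
    obtain ⟨a1, a2, a3⟩ := near (π := π) h j
    have := ff2 a1 a2
    rw [div_eq_mul_inv, ← inv_pow] at this
    have a4 := pow_le_pow_left₀ (inv_pos.2 (by linarith)).le a3 4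
    have a5 := this.trans (mul_le_mul_of_nonneg_left a4 (mul_nonneg zero_le_three (sq_nonneg _)))
    simp only [rem]
    linarith
  have w2 : (r.ma * ‖rem (r.xs π.x) ((r.As π.x).mulVec π.y) true‖
      + (1 - r.ma) * ‖rem (r.xs π.x) ((r.As π.x).mulVec π.y) false‖) * 2 ^ 120 ≤ r.w2 := by
    refine le_trans ?_ (le_dn _ _)
    simp only [Nat.mul_eq, Nat.add_eq, g4]
    push_cast
    rw [r.wt_eq (ok_iff h).2.1, r.wt_eq (ok_iff h).2.1, cond_true, cond_false]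
    have b1 := mul_le_mul_of_nonneg_left (w true) m0
    have b2 := mul_le_mul_of_nonneg_left (w false) (sub_nonneg.2 m1)
    linarith
  generalize (r.As π.x).mulVec π.y = e at *
  have r1 := fun j => abs_le.1 (Complex.abs_re_le_norm (rem (r.xs π.x) e j))
  have r2 := fun j => abs_le.1 (Complex.abs_im_le_norm (rem (r.xs π.x) e j))
  have m2 := sub_nonneg.2 m1
  rw [← le_div_iff₀ (by positivity), abs_le]
  cases l <;> simp only [quad, nl] <;> push_cast <;> constructor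
  · simp
  · simp
  · simp
  · simp
  · linarith [mul_le_mul_of_nonneg_left (r1 true).2 m0, mul_le_mul_of_nonneg_left (r1 false).2 m2]
  · linarith [mul_le_mul_of_nonneg_left (r1 true).1 m0, mul_le_mul_of_nonneg_left (r1 false).1 m2]
  · linarith [mul_le_mul_of_nonneg_left (r2 true).2 m0, mul_le_mul_of_nonneg_left (r2 false).2 m2]
  · linarith [mul_le_mul_of_nonneg_left (r2 true).1 m0, mul_le_mul_of_nonneg_left (r2 false).1 m2]

lemma Bv_smul (x c : ℝ) (v : I4 → ℝ) (i : I4) : r.Bv x (c • v) i = c * r.Bv x v i := by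
  simp only [Bv, Pi.smul_apply, smul_eq_mul]; ring

/-- The matrix `B` is an approximate inverse of `A`. -/
lemma solve (h : r.ok = true) {x : ℝ} (hx : |x| ≤ 1) {w g : I4 → ℝ} {m : ℝ}
    (h3 : ∀ i, |r.Bv x ((r.As x).mulVec w) i| * 2 ^ 72 / 2 ^ r.t i ≤ g i) (h4 : ∀ i, g i ≤ m)
    (i : I4) : |w i| ≤ g i + r.dl i / 2 ^ 20 * (2 * m) := by
  refine key (T := fun y i => r.Bv x ((r.As x).mulVec y) i * 2 ^ 72 / 2 ^ r.t i) (w := w)
    (δ := fun i => r.dl i / 2 ^ 20)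
    (fun c y => funext fun i => ?_) (fun y hy i => ?_) (fun i => ?_) (fun i => ?_) h4 i
  · simp only [Matrix.mulVec_smul, Bv_smul, Pi.smul_apply, smul_eq_mul]
    ring
  · have a1 := rbd (rsb ((((LA.Rep.mono_y (Pt.g ⟨x, y, hx, hy⟩) i.n).smul
      (Nat.pow 2 (r.t i))).scale (f := 72) (b := y i * 2 ^ r.t i / 2 ^ 72) (by
        simp only [Pt.g, Pt.zn, Nat.pow_eq]; push_cast; ring)).mono (by decide : 0 ≤ 29)
          (by cases i <;> decide : 30 * i.n ≤ 149)) (r.rdB (fun l =>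
            (r.rE l).mono (by decide) (by decide)) i)) (by decide)
    rw [le_div_iff₀ (by positivity)]
    refine le_trans ?_ (le_dn _ _)
    simp only [Nat.shiftLeft_eq', Nat.shiftLeft_eq, Nat.cast_mul, Nat.cast_pow, Nat.cast_ofNat]
    rw [le_div_iff₀ (by positivity)]
    refine le_trans (le_of_eq ?_) (mul_le_mul_of_nonneg_right a1 (by positivity))
    rw [show y i - r.Bv x ((r.As x).mulVec y) i * 2 ^ 72 / 2 ^ r.t i = (y i * 2 ^ r.t i / 2 ^ 72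
      - r.Bv x ((r.As x).mulVec y) i) * (2 ^ 72 / 2 ^ r.t i) by field_simp, abs_mul,
      abs_of_pos (a := (2 : ℝ) ^ 72 / _) (by positivity)]
    field_simp
  · have : (r.dl i : ℝ) ≤ 2 ^ 19 := by exact_mod_cast ((ok_iff h).2.2.2.2 i).1
    linarith
  · rw [abs_div, abs_mul, abs_of_pos (a := (2 : ℝ) ^ 72) (by positivity),
      abs_of_pos (a := (2 : ℝ) ^ r.t i) (by positivity)]
    exact h3 i

lemma det_ne (h : r.ok = true) {x : ℝ} (hx : |x| ≤ 1) : (r.As x).det ≠ 0 := fun h0 => by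
  obtain ⟨w, h1, h2⟩ := Matrix.exists_mulVec_eq_zero_iff.2 h0
  refine h1 (funext fun i => ?_)
  simpa using solve h hx (w := w) (g := 0) (m := 0) (fun i => by simp [h2, Bv]) (fun _ => le_rfl) i

/-- The bound of the derivative of the coordinates. -/
lemma drift (h : r.ok = true) {w p : I4 → ℝ} (hp : ∀ l, |p l| ≤ 1 / 2 ^ 44)
    (hw : ∀ l, (r.As π.x).mulVec w l = r.hn / 256
      * (f0 r.ma (r.xs π.x + (r.As π.x).mulVec π.y) l + p l)
      - ((r.dA π.x).mulVec π.y l + r.dx π.x l)) (i : I4) : 2 * |w i| ≤ r.d i / 2 ^ 24 := by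
  have a := fun j => r.rH (π := π) ((ok_iff h).2.2.2.1 j).1 ((ok_iff h).2.2.2.1 j).2.1
  have b : ∀ l, LA.Rep π.g 128 22 142 (r.G l) ((r.As π.x).mulVec w l) := fun l => by
    refine (rsb (((r.rrow (ok_iff h).2.1 (h := fun j => ‖yj (r.xs π.x) j‖⁻¹) (fun j => (a j).2.1)
      (fun j => (a j).2.2) l).smul r.hn).scale (f := 128) (b := r.hn / 256 * rw' r.ma (r.xs π.x)
        ((r.As π.x).mulVec π.y) ‖yj (r.xs π.x) true‖⁻¹ ‖yj (r.xs π.x) false‖⁻¹ l) (by ring))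
        (r.rdZ l)).err ?_
    have b1 := tay r.ma (r.xs π.x) ((r.As π.x).mulVec π.y) (fun j => (a j).1) l
    have b2 := quad_le (π := π) h l
    have b4 := abs_add_le (quad r.ma (r.xs π.x) ((r.As π.x).mulVec π.y) l) (p l)
    rw [hw, sub_sub_sub_cancel_right, ← mul_sub, add_sub_right_comm, b1, abs_mul, Nat.mul_eq,
      Nat.cast_mul, abs_of_nonneg (by positivity), div_mul_eq_mul_div, mul_div_assoc, mul_assoc]
    refine mul_le_mul_of_nonneg_left ?_ (Nat.cast_nonneg _)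
    simp only [Nat.add_eq, Nat.pow_eq]
    push_cast
    linarith [hp l]
  have c := solve h π.hx (w := w) (g := fun i => r.gg i / 2 ^ 24) (m := r.gm / 2 ^ 24) (fun i => by
    have c1 := rbd (r.rdB b i) (by decide)
    rw [le_div_iff₀ (by positivity)]
    refine le_trans ?_ (le_dn _ _)
    rw [Nat.add_eq, pow_add, le_div_iff₀ (by positivity)]
    refine le_trans (le_of_eq ?_) c1
    field_simp) (fun i => by
      have : r.gg i ≤ r.gm := by
        have l := fun a b => (le_mx a b).1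
        have u := fun a b => (le_mx a b).2
        cases i
        exacts [(l _ _).trans (l _ _), (u _ _).trans (l _ _), (l _ _).trans (u _ _),
          (u _ _).trans (u _ _)]
      gcongr) i
  have c2 := le_dn (Nat.mul (r.dl i) r.gm) 19
  simp only [d, Nat.mul_eq, Nat.add_eq, Nat.cast_mul, Nat.cast_add, Nat.cast_ofNat] at c2 ⊢
  linarith

end Raw

end Pool.Agent.Lib.MP_6e7c44_mp.RS
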