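import Pool.Agent.Lib.MP_6e7c44_mp.RS.LocB

/-! The trap along the resonant unstable cone. -/

set_option autoImplicit false

open Set Complex Filter Topology

noncomputable section

namespace Pool.Agent.Lib.MP_6e7c44_mp.RS

open LA

def P4.of (u w : ℂ) (hu : ‖u‖ ≤ 1) (hw : ‖w‖ ≤ 1) : P4 :=
  ⟨pt4 u w, max ‖u‖ ‖w‖, by positivity, max_le hu hw, fun i => by cases i <;> simp [pt4]⟩

lemma ev_cont (L : List Tm) : Continuous (ev L) := by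
  induction L with
  | nil => exact continuous_const.congr fun x => (ev_nil x).symm
  | cons t L ih =>
    rw [show ev (t :: L) = fun x => t.val x / 2 ^ 64 + ev L x from funext (ev_cons t L)]
    unfold Tm.val
    fun_prop

lemma dv4_mul (L : List Tm) (x v : I4 → ℂ) (g : ℂ) : dv4 L x (fun i => g * v i) = g * dv4 L x v := by
  simp only [dv4, I4.sumC]; ring

namespace Dt
variable (d : Dt) (μ : Fin 3 → ℝ)

def Uo (z : Z3) : Prop := ‖z.1 - I‖ < 1 / 8 ∧ ‖d.uu μ true z‖ < 1 ∧ ‖d.uu μ false z‖ < 1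
/-- The trap. -/
def Tr (k : ℝ) (x : I4 → ℂ) : Prop := |(ev d.JJ x).re| ≤ k / 150000 * ‖ev d.Z2 x‖ ^ 2 ∧
  |(ev d.XX x).re| ≤ k / 30000 * ‖ev d.Z2 x‖ ^ 3 ∧ 0 ≤ (ev d.Z1 x * ev d.Z2 x ^ 2).im
def rr (z : Z3) : ℝ := ‖ev d.Z2 (d.xx μ z)‖

variable {d μ} {z : Z3}

def Uo.p (h : d.Uo μ z) : P4 := P4.of _ _ h.2.1.le h.2.2.le

lemma uu_cont (j : Bool) : Continuous (d.uu μ j) := by
  unfold uu ell sz pz; fun_prop

lemma xx_cont : Continuous (d.xx μ) := continuous_pi fun i => by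
  have := uu_cont (d := d) (μ := μ)
  cases i <;> simp only [xx, pt4] <;> fun_prop

lemma tr_st (hd : d.Fc) {u w : ℂ} (hu : ‖u‖ ≤ 1) (hw : ‖w‖ ≤ 1) (h : d.Tr 2 (pt4 u w)) {r : ℝ}
    (hr : r = ‖ev d.Z2 (pt4 u w)‖) : max ‖u‖ ‖w‖ ≤ 23 / 20 * r ∧ r ≤ 9 / 8 * max ‖u‖ ‖w‖ ∧
    |(ev d.Z1 (pt4 u w) * ev d.Z2 (pt4 u w) ^ 2).re| ≤ 23 / 1250 * r ^ 3 ∧
    |(ev d.Z1 (pt4 u w) * ev d.Z2 (pt4 u w) ^ 2).im - r ^ 3| ≤ 3 / 1000 * r ^ 3 := by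
  obtain ⟨a1, a2, -, -, a3, a4⟩ := hd.st (P4.of u w hu hw) u w rfl
  obtain ⟨b1, b2, b3⟩ := h
  simp only [P4.of, ← hr] at a1 a2 a3 a4 b1 b2
  have c1 := abs_le.1 ((abs_norm_sub_norm_le _ _).trans a1)
  have c2 := abs_le.1 ((abs_norm_sub_norm_le _ _).trans a2)
  have n := sq_norm' (ev d.Z1 (pt4 u w) * ev d.Z2 (pt4 u w) ^ 2)
  rw [norm_mul, norm_pow, ← hr] at n
  rw [← hr] at c2
  have r0 : 0 ≤ r := hr ▸ norm_nonneg _
  have p0 := norm_nonneg (ev d.Z1 (pt4 u w))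
  have m1 := le_max_right ‖u‖ ‖w‖
  have m2 := max_choice ‖u‖ ‖w‖
  have t1 := max_le hu hw
  have t0 := (norm_nonneg _).trans m1
  generalize max ‖u‖ ‖w‖ = t, ‖ev d.Z1 (pt4 u w)‖ = ρ, (ev d.JJ (pt4 u w)).re = J,
    (ev d.XX (pt4 u w)).re = X, (ev d.Z1 (pt4 u w) * ev d.Z2 (pt4 u w) ^ 2).re = A,
    (ev d.Z1 (pt4 u w) * ev d.Z2 (pt4 u w) ^ 2).im = G at *
  rw [abs_le] at a3 a4 b1 b2
  have t2 : t ^ 2 ≤ t := by nlinarith
  have e1 : t ≤ 23 / 20 * r := by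
    rcases m2 with m | m
    · have := pow_le_pow_left₀ (by positivity) (show 7 / 8 * t ≤ ρ by linarith) 2
      exact (abs_le_of_sq_le_sq' (by nlinarith) (by positivity)).2
    · linarith
  have e2 := pow_le_pow_left₀ t0 e1 2
  have e3 := pow_le_pow_left₀ t0 e1 3
  have r3 := pow_nonneg r0 3
  have e4 : |A| ≤ 23 / 1250 * r ^ 3 := abs_le.2 ⟨by linarith, by linarith⟩
  have e5 := sq_le_sq' (abs_le.1 e4).1 (abs_le.1 e4).2
  have r4 := pow_nonneg r0 4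
  have e6 := mul_le_mul_of_nonneg_right (show ρ ^ 2 ≤ 100531 / 100000 * r ^ 2 by linarith) r4
  have e7 := mul_le_mul_of_nonneg_right (show 99469 / 100000 * r ^ 2 ≤ ρ ^ 2 by linarith) r4
  have r6 := pow_nonneg r0 6
  have e8 : G ≤ 1003 / 1000 * r ^ 3 :=
    (abs_le_of_sq_le_sq' (by linarith [sq_nonneg A]) (by positivity)).2
  have e9 : 997 / 1000 * r ^ 3 ≤ G := (abs_le_of_sq_le_sq' (by linarith) b3).2
  exact ⟨e1, by linarith, e4, abs_le.2 ⟨by linarith, by linarith⟩⟩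

lemma Uo.st (hd : d.Fc) (V : d.Uo μ z) (h : d.Tr 2 (d.xx μ z)) : V.p.t ≤ 23 / 20 * d.rr μ z ∧
    d.rr μ z ≤ 9 / 8 * V.p.t ∧
    |(ev d.Z1 (d.xx μ z) * ev d.Z2 (d.xx μ z) ^ 2).re| ≤ 23 / 1250 * d.rr μ z ^ 3 ∧
    |(ev d.Z1 (d.xx μ z) * ev d.Z2 (d.xx μ z) ^ 2).im - d.rr μ z ^ 3| ≤ 3 / 1000 * d.rr μ z ^ 3 :=
  tr_st hd V.2.1.le V.2.2.le h rfl

lemma Tr.two {x : I4 → ℂ} (h : d.Tr 1 x) : d.Tr 2 x :=
  ⟨h.1.trans (by gcongr; norm_num), h.2.1.trans (by gcongr; norm_num), h.2.2⟩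

lemma Uo.inv (hd : d.Fc) (hμ : Mass (d.w / 2 ^ 60) μ) (h : d.Uo μ z) :
    NC z ∧ 0 < En μ z ∧ 0 < Am μ z :=
  let ⟨a, b, c, _⟩ := loc_inv hμ (hd.sp μ z h.p hμ rfl).1 (hd.sp μ z h.p hμ rfl).2
    (by linarith [h.p.t1]) h.1.le
  ⟨a, b, c⟩

lemma tr_pt (hd : d.Fc) (hμ : Mass (d.w / 2 ^ 60) μ) {γ : ℝ → Z3} {g t : ℝ} (g0 : 0 ≤ g)
    (hU : d.Uo μ (γ t)) (h : HasDerivAt γ (g • GR μ (γ t)) t) (hT : d.Tr 2 (d.xx μ (γ t)))
    (r0 : 0 < d.rr μ (γ t)) (hζ : ‖(γ t).1 - I‖ ≤ hU.p.t / 2 ^ 80) : ∃ r' J' X',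
    HasDerivAt (fun s => d.rr μ (γ s)) r' t ∧
    HasDerivAt (fun s => (ev d.JJ (d.xx μ (γ s))).re) J' t ∧
    HasDerivAt (fun s => (ev d.XX (d.xx μ (γ s))).re) X' t ∧
    g * (47 / 50000 * d.rr μ (γ t) ^ 2) ≤ r' ∧ |J'| ≤ 1 / 150000 * (2 * d.rr μ (γ t) * r') ∧
    |X'| ≤ 1 / 30000 * (3 * d.rr μ (γ t) ^ 2 * r') := by
  have du : ∀ j, HasDerivAt (fun s => d.uu μ j (γ s))
      (g * (I * nu j * d.uu μ j (γ t) + d.gg μ j (γ t))) t := fun j =>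
    hd_congr ((ell_flow hμ j h).const_mul (d.b j)) (fun _ => rfl) (by rw [uu, gg]; ring)
  have dx : ∀ i, HasDerivAt (fun s => d.xx μ (γ s) i) (g * d.vv μ (γ t) i) t := fun i => by
    cases i
    exacts [du _, hd_congr (du true).star (fun _ => rfl) (by simp [vv, pt4]), du _,
      hd_congr (du false).star (fun _ => rfl) (by simp [vv, pt4])]
  have dL := fun L => (ev_der L dx).congr_deriv (dv4_mul ..)
  obtain ⟨a1, a2, a3⟩ := hd.dy μ _ hU.p hμ rfl hζ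
  obtain ⟨b1, -, -, b2⟩ := hU.st hd hT
  have e2 := pow_le_pow_left₀ hU.p.t0 b1 2
  have e3 := pow_le_pow_left₀ hU.p.t0 b1 3
  have e4 := pow_le_pow_left₀ hU.p.t0 b1 4
  have c1 := (abs_dot_le (ev d.Z2 hU.p.x) _).trans
    (mul_le_mul_of_nonneg_left (a3.trans (mul_le_mul_of_nonneg_left e2 (by norm_num))) r0.le)
  have c2 : g * (47 / 50000 * d.rr μ (γ t) ^ 2)
      ≤ dot (ev d.Z2 hU.p.x) (g * dv4 d.Z2 hU.p.x (d.vv μ (γ t))) / d.rr μ (γ t) := by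
    rw [le_div_iff₀ r0]
    have : dot (ev d.Z2 hU.p.x) (g * dv4 d.Z2 hU.p.x (d.vv μ (γ t))) = g * (dot (ev d.Z2 hU.p.x)
        (dv4 d.Z2 hU.p.x (d.vv μ (γ t)) + I * om * ev d.Z2 hU.p.x - I * (97 / 100000)
        * (starRingEnd ℂ) (ev d.Z1 hU.p.x * ev d.Z2 hU.p.x))
        + 97 / 100000 * (ev d.Z1 hU.p.x * ev d.Z2 hU.p.x ^ 2).im) := by
      simp [dot, sq]; ring
    rw [this, mul_assoc]
    exact mul_le_mul_of_nonneg_left (by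
      have := pow_pos r0 3
      linarith! [(abs_le.1 c1).1, (abs_le.1 b2).1]) g0
  have n : ∀ w : ℂ, |(g * w).re| ≤ g * ‖w‖ := fun w => by
    simpa [abs_of_nonneg g0] using abs_re_le_norm (g * w)
  refine ⟨_, _, _, hd_norm (dL _) r0, hd_re (dL _), hd_re (dL _), c2, (n _).trans ?_, (n _).trans ?_⟩
  · have := mul_le_mul_of_nonneg_left c2 r0.le
    have := mul_le_mul_of_nonneg_left (a1.trans (div_le_div_of_nonneg_right e3 (by norm_num))) g0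
    have := mul_nonneg g0 (pow_pos r0 3).le
    linarith!
  · have := mul_le_mul_of_nonneg_left c2 (sq_nonneg (d.rr μ (γ t)))
    have := mul_le_mul_of_nonneg_left (a2.trans (div_le_div_of_nonneg_right e4 (by norm_num))) g0
    have := mul_nonneg g0 (pow_pos r0 4).le
    linarith!

lemma mono_abs {F G F' G' : ℝ → ℝ} {T : ℝ} (hT : 0 ≤ T) (h0 : |F 0| ≤ G 0)
    (h : ∀ t ∈ Icc 0 T, HasDerivAt F (F' t) t ∧ HasDerivAt G (G' t) t ∧ |F' t| ≤ G' t) :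
    |F T| ≤ G T := by
  have a := mono_of_deriv hT (fun t ht => (h t ht).2.1.fun_sub (h t ht).1)
    fun t ht => sub_nonneg.2 (abs_le.1 (h t ht).2.2).2
  have b := mono_of_deriv hT (fun t ht => (h t ht).2.1.fun_add (h t ht).1)
    fun t ht => by linarith [(abs_le.1 (h t ht).2.2).1]
  rw [abs_le] at *
  constructor <;> linarith

theorem trap (hd : d.Fc) (hμ : Mass (d.w / 2 ^ 60) μ) {γ : ℝ → Z3} {g : ℝ → ℝ} (cg : Continuous g)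
    (g0 : ∀ t, 0 ≤ g t) (h : ∀ t, d.Uo μ (γ t) ∧ HasDerivAt γ (g t • GR μ (γ t)) t)
    (hK : ∀ t, ‖(γ t).1 - I‖ ≤ 1 / 16 → (h t).1.p.t ≤ 19 / 20 → g t = 1)
    (r0 : 0 < d.rr μ (γ 0)) (h0 : d.Tr 1 (d.xx μ (γ 0)))
    (hl : 1 - d.rr μ (γ 0) ^ 2 / 2 ^ 186 ≤ 2 * (En μ (γ 0) * Am μ (γ 0) ^ 2)) {T : ℝ} (hT : 0 ≤ T) :
    d.Tr 1 (d.xx μ (γ T)) ∧ d.rr μ (γ 0) ≤ d.rr μ (γ T) ∧ ‖(γ T).1 - I‖ ≤ 1 / 2 ^ 80 ∧ Iv μ (γ T) ∧
    (d.rr μ (γ T) ≤ 81 / 100 → (∀ t ∈ Icc 0 T, g t = 1) ∧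
      47 / 50000 * d.rr μ (γ 0) ^ 2 * T ≤ d.rr μ (γ T)) := by
  have cγ : Continuous γ := continuous_iff_continuousAt.2 fun t => (h t).2.continuousAt
  have cL : ∀ L, Continuous fun t => ev L (d.xx μ (γ t)) := fun L =>
    (ev_cont L).comp (xx_cont.comp cγ)
  have c1 : Continuous fun t => (ev d.Z1 (d.xx μ (γ t)) * ev d.Z2 (d.xx μ (γ t)) ^ 2).im :=
    continuous_im.comp ((cL _).mul ((cL _).pow 2))
  have c2 : Continuous fun t => d.rr μ (γ t) := (cL _).norm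
  have c3 : ∀ L, Continuous fun t => |(ev L (d.xx μ (γ t))).re| := fun L =>
    (continuous_re.comp (cL L)).abs
  have c4 : ∀ (k : ℝ) (n : ℕ), Continuous fun t => k * d.rr μ (γ t) ^ n := fun k n => by fun_prop
  have iv := fun t => (inv_flow hμ.ms cg (fun t => ⟨((h t).1.inv hd hμ).1, (h t).2⟩) t).2.2
  have st := fun t => (h t).1.st hd
  have hz : ∀ t, d.Tr 2 (d.xx μ (γ t)) → d.rr μ (γ 0) / 2 ≤ d.rr μ (γ t) →
      ‖(γ t).1 - I‖ ≤ (h t).1.p.t / 2 ^ 80 := fun t h1 h2 => by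
    have := pow_le_pow_left₀ (by positivity) (h2.trans (st t h1).2.1) 2
    exact loc_zeta hμ (hd.sp μ _ _ hμ rfl).1 (hd.sp μ _ _ hμ rfl).2 (h t).1.p.t1 (h t).1.1.le
      (by rw [iv]; linarith [sq_nonneg (d.rr μ (γ 0))])
  have pt := fun t (ht : d.Tr 2 (d.xx μ (γ t)) ∧ d.rr μ (γ 0) / 2 ≤ d.rr μ (γ t)) =>
    tr_pt hd hμ (g0 t) (h t).1 (h t).2 ht.1 (by linarith [ht.2]) (hz t ht.1 ht.2)
  choose! r' J' X' p1 p2 p3 p4 p5 p6 using pt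
  have mv : ∀ T, 0 ≤ T → Icc 0 T ⊆ {t | d.Tr 2 (d.xx μ (γ t)) ∧ d.rr μ (γ 0) / 2 ≤ d.rr μ (γ t)} →
      d.Tr 1 (d.xx μ (γ T)) ∧ ∀ t ∈ Icc 0 T, d.rr μ (γ t) ≤ d.rr μ (γ T) := fun T hT hs =>
    ⟨⟨mono_abs hT h0.1 fun t ht => ⟨p2 t (hs ht), hd_congr (((p1 t (hs ht)).fun_pow 2).const_mul _)
      (fun _ => rfl) (by simp), p5 t (hs ht)⟩, mono_abs hT h0.2.1 fun t ht => ⟨p3 t (hs ht),
      hd_congr (((p1 t (hs ht)).fun_pow 3).const_mul _) (fun _ => rfl) (by simp), p6 t (hs ht)⟩,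
      (hs ⟨hT, le_rfl⟩).1.2.2⟩, fun t ht => mono_of_deriv (F := fun t => d.rr μ (γ t)) ht.2
        (fun s k => p1 s (hs ⟨ht.1.trans k.1, k.2⟩)) fun s k =>
        le_trans (by have := g0 s; positivity) (p4 s (hs ⟨ht.1.trans k.1, k.2⟩))⟩
  have key : Icc 0 T ⊆ {t | d.Tr 2 (d.xx μ (γ t)) ∧ d.rr μ (γ 0) / 2 ≤ d.rr μ (γ t)} := by
    refine IsClosed.Icc_subset_of_forall_mem_nhdsGT_of_Icc_subset (IsClosed.inter ?_ isClosed_Icc)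
      ⟨h0.two, by linarith⟩ fun t ht hs => mem_nhdsWithin_of_mem_nhds ?_
    · exact ((isClosed_le (c3 _) (c4 _ _)).inter ((isClosed_le (c3 _) (c4 _ _)).inter
        (isClosed_le continuous_const c1))).inter (isClosed_le continuous_const c2)
    obtain ⟨⟨a1, a2, -⟩, a3⟩ := mv t ht.1 hs
    have a4 := a3 0 ⟨le_rfl, ht.1⟩
    have a5 := (abs_le.1 (st t (hs ⟨ht.1, le_rfl⟩).1).2.2.2).1
    have a6 := pow_pos (r0.trans_le a4) 2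
    have a7 := pow_pos (r0.trans_le a4) 3
    filter_upwards [(c3 d.JJ).continuousAt.eventually_lt (c4 (2 / 150000) 2).continuousAt
        (a1.trans_lt (by rw [← rr]; linarith)),
      (c3 d.XX).continuousAt.eventually_lt (c4 (2 / 30000) 3).continuousAt
        (a2.trans_lt (by rw [← rr]; linarith)),
      c1.continuousAt.eventually_const_lt (u := 0) (by linarith),
      c2.continuousAt.eventually_const_lt (show d.rr μ (γ 0) / 2 < d.rr μ (γ t) by linarith)]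
      with s b1 b2 b3 b4
    exact ⟨⟨b1.le, b2.le, b3.le⟩, b4.le⟩
  obtain ⟨m1, m2⟩ := mv T hT key
  have zz : ∀ t ∈ Icc 0 T, ‖(γ t).1 - I‖ ≤ 1 / 2 ^ 80 := fun t ht =>
    (hz t (key ht).1 (key ht).2).trans (by linarith [(h t).1.p.t1])
  have a1 := (st 0 (key ⟨le_rfl, hT⟩).1).2.1
  refine ⟨m1, m2 0 ⟨le_rfl, hT⟩, zz T ⟨hT, le_rfl⟩, ⟨((h T).1.inv hd hμ).2.1,
    ((h T).1.inv hd hμ).2.2, ?_⟩, fun k => ?_⟩
  · have := pow_le_pow_left₀ r0.le (show d.rr μ (γ 0) ≤ 2 by linarith [(h 0).1.p.t1]) 2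
    rw [iv]; linarith
  have g1 : ∀ t ∈ Icc 0 T, g t = 1 := fun t ht => hK t ((zz t ht).trans (by norm_num))
    (by linarith [(st t (key ht).1).1, m2 t ht])
  have := mono_of_deriv hT (fun t ht => (p1 t (key ht)).fun_sub
    ((hasDerivAt_id' t).const_mul (47 / 50000 * d.rr μ (γ 0) ^ 2))) fun t ht => by
      have := pow_le_pow_left₀ r0.le ((mv t ht.1 fun s k => key ⟨k.1, k.2.trans ht.2⟩).2 0
        ⟨le_rfl, ht.1⟩) 2
      have := p4 t (key ht)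
      rw [g1 t ht] at this
      linarith
  exact ⟨g1, by linarith⟩

end Dt

end Pool.Agent.Lib.MP_6e7c44_mp.RS
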